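import Pool.Agent.H52.VK.Sys

/-!
# [H52 VK CHO] Minimal counterexamples (2 files; 90 min)

`exists_ctr`, think 1291, section 3. Let `PolR` fail; take a counterexample `l` of minimal length (`l.length ≥ 4`, `Cyc adj l`, `csum < 2`, no triple), `n = l.length`, `P k = l[(k % n).toNat]`. So `Min`: every closed
chain with `csum < 2` and length `< n` has length `≤ 3` or a triple.
`per`, `adj` (`Cyc` in terms of indices), `nd` (a triple at the index `k % n`: `l.rotate`), `wt` (`csum` = the sum over one period; shift by one, `Int.induction_on`).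
`iv i k = (List.range (k + 1)).map (fun t => P (i + t))` (the vertices `P i, .., P (i + k)`): `Cyc adj (iv i k)` if `adj (P (i + k)) (P i)`; `csum wv (iv i k) = (∑ k ∈ Ico i (i + k), W P k) + wv (P (i + k)) (P i)`; a triple
`iv i k ~r a :: b :: c :: m` is `P (i + t), P (i + t + 1), P (i + t + 2)` with `t + 2 ≤ k`, or `P (i + k - 1), P (i + k), P i`, or `P (i + k), P i, P (i + 1)` (index `t`, `(t + 1) % (k + 1)`, `(t + 2) % (k + 1)`).
`arc`: `∀ k i, 2 ≤ k → k + 1 < n → ∑ Ico i (i + k) W < 1 → ¬ J (P i) (P (i + k))`: strong induction on `k`. `k = 2`: `nd`. `k = 3` and `P i = P (i + 3)` (same type): `J (P i) (P (i + 2))`: `nd`. Let `J (P i) (P (i + k))`. Same type: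
equal: `iv i (k - 1)` (length `k`, closed by `adj (P (i + k - 1)) (P i)`, sum `< 1`), `k ≥ 4`: a triple: `nd`, or `J (P (i + k - 2)) (P i)` with `P i = P (i + k)`: `nd`, or `J (P (i + k - 1)) (P (i + 1))`:
induction for `i + 1`, `k - 2`. Different types: `iv i k` (length `k + 1 < n`, `csum < 1 + 1 / 2` by `whalf`): a triple: `nd`, or `J (P (i + k - 1)) (P i)`: induction for `k - 1`; or `J (P (i + k)) (P (i + 1))`: induction for `i + 1`, `k - 1`.
(`W > 0` by `wpos`, so subarcs have smaller sums.) `chord`: `i + 2 ≤ j ≤ i + n - 2`: `∑ Ico i j + ∑ Ico j (i + n) < 2`, one of them is `< 1`: `arc` for `i, j - i` or for `j, i + n - j` (`P (i + n) = P i`).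
-/

set_option autoImplicit false

namespace Pool.Agent.H52.VK

namespace Sys

variable {B V : Type*} {A : Sys B V}

private theorem ps_range (w : V → V → ℝ) (x : V) : ∀ (k : ℕ) (f : ℕ → V),
    ps w (f 0) ((List.range k).map (fun t => f (t + 1)) ++ [x]) =
      ∑ t ∈ Finset.range k, w (f t) (f (t + 1)) + w (f k) x := by
  intro k
  induction k with
  | zero => intro f; simp [ps]
  | succ k ih =>
    intro f
    have h := ih (fun t => f (t + 1))
    have e : (List.range (k + 1)).map (fun t => f (t + 1)) =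
        f 1 :: (List.range k).map (fun t => f (t + 1 + 1)) := by
      rw [List.range_succ_eq_map, List.map_cons, List.map_map]
      rfl
    rw [e, List.cons_append, ps, Finset.sum_range_succ']
    simp only [zero_add] at h ⊢
    rw [h]
    ring

private theorem csum_range (w : V → V → ℝ) (k : ℕ) (f : ℕ → V) :
    csum w ((List.range (k + 1)).map f) =
      ∑ t ∈ Finset.range k, w (f t) (f (t + 1)) + w (f k) (f 0) := by
  rw [List.range_succ_eq_map, List.map_cons, List.map_map, csum]
  exact ps_range w (f 0) k f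

private theorem cyc_range (R : V → V → Prop) (k : ℕ) (f : ℕ → V) :
    Cyc R ((List.range (k + 1)).map f) ↔ (∀ t < k, R (f t) (f (t + 1))) ∧ R (f k) (f 0) := by
  have e : (List.range (k + 1)).map f = f 0 :: (List.range k).map (f ∘ Nat.succ) := by
    rw [List.range_succ_eq_map, List.map_cons, List.map_map]
  have e2 : Cyc R ((List.range (k + 1)).map f) ↔
      List.IsChain R ((List.range (k + 1)).map f ++ [f 0]) := by
    rw [e]
    rfl
  have e3 : ((List.range (k + 1)).map f).getLast? = some (f k) := by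
    rw [List.range_succ, List.map_append, List.map_cons, List.map_nil, List.getLast?_append]
    simp
  rw [e2, List.isChain_append, List.isChain_map, List.isChain_range_succ, e3]
  simp

/-- triples by indices -/
private theorem triple_get (l : List V) (a b c : V) (m : List V) (h : l ~r (a :: b :: c :: m)) :
    ∃ t, ∃ ht : t < l.length, ∃ h2 : (t + 2) % l.length < l.length,
      l[t] = a ∧ l[(t + 2) % l.length] = c := by
  obtain ⟨s, hs⟩ := h
  have hlen : l.length = (a :: b :: c :: m).length := by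
    rw [← hs, List.length_rotate]
  have h3 : 2 < l.length := by
    rw [hlen]
    simp
  have hpos : 0 < l.length := by omega
  have hr : (l.rotate s).length = l.length := List.length_rotate _ _
  refine ⟨s % l.length, Nat.mod_lt _ hpos, Nat.mod_lt _ hpos, ?_, ?_⟩
  · have h4 : (l.rotate s)[0]'(by omega) = l[(0 + s) % l.length]'(Nat.mod_lt _ hpos) :=
      List.getElem_rotate _ _ _ _
    have h5 : (l.rotate s)[0]'(by omega) = a := by
      simp only [hs]
      rfl
    rw [← h5, h4]
    simp only [zero_add]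
  · have h4 : (l.rotate s)[2]'(by omega) = l[(2 + s) % l.length]'(Nat.mod_lt _ hpos) :=
      List.getElem_rotate _ _ _ _
    have h5 : (l.rotate s)[2]'(by omega) = c := by
      simp only [hs]
      rfl
    rw [← h5, h4]
    have h6 : (s % l.length + 2) % l.length = (2 + s) % l.length := by
      rw [Nat.mod_add_mod, add_comm]
    simp only [h6]

private theorem triple_mk (l : List V) (h3 : 3 ≤ l.length) (t : ℕ) (ht : t < l.length) :
    ∃ b m, l ~r (l[t] :: b :: (l[(t + 2) % l.length]'(Nat.mod_lt _ (by omega))) :: m) := by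
  have hpos : 0 < l.length := by omega
  have hr : (l.rotate t).length = l.length := List.length_rotate _ _
  obtain ⟨a, b, c, m, hm⟩ : ∃ a b c m, l.rotate t = a :: b :: c :: m := by
    rcases hl : l.rotate t with _ | ⟨a, _ | ⟨b, _ | ⟨c, m⟩⟩⟩
    · rw [hl] at hr; simp at hr; omega
    · rw [hl] at hr; simp at hr; omega
    · rw [hl] at hr; simp at hr; omega
    · exact ⟨a, b, c, m, rfl⟩
  have h4 : (l.rotate t)[0]'(by omega) = l[(0 + t) % l.length]'(Nat.mod_lt _ hpos) :=
    List.getElem_rotate _ _ _ _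
  have h5 : (l.rotate t)[2]'(by omega) = l[(2 + t) % l.length]'(Nat.mod_lt _ hpos) :=
    List.getElem_rotate _ _ _ _
  have h6 : (l.rotate t)[0]'(by omega) = a := by
    simp only [hm]
    rfl
  have h7 : (l.rotate t)[2]'(by omega) = c := by
    simp only [hm]
    rfl
  refine ⟨b, m, t, ?_⟩
  have h8 : l[t] = a := by
    rw [← h6, h4]
    simp only [zero_add, Nat.mod_eq_of_lt ht]
  have h9 : l[(t + 2) % l.length]'(Nat.mod_lt _ hpos) = c := by
    rw [← h7, h5]
    simp only [add_comm]
  rw [hm, h8, h9]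

private theorem sum_Ico_range (g : ℤ → ℝ) (i : ℤ) (k : ℕ) :
    ∑ x ∈ Finset.Ico i (i + k), g x = ∑ t ∈ Finset.range k, g (i + t) := by
  have e : Finset.Ico i (i + k) = (Finset.range k).image (fun t : ℕ => i + (t : ℤ)) := by
    ext x
    simp only [Finset.mem_Ico, Finset.mem_image, Finset.mem_range]
    constructor
    · rintro ⟨h1, h2⟩
      exact ⟨(x - i).toNat, by omega, by omega⟩
    · rintro ⟨t, h1, rfl⟩
      omega
  rw [e, Finset.sum_image]
  intro a _ b _ h
  simp only [add_right_inj, Nat.cast_inj] at h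
  exact h

/-- the minimal counterexample as a periodic function -/
private theorem exists_per (hA : A.Ax) (h : ¬ PolR A.adj A.J A.wv (fun _ => True)) :
    ∃ (n : ℕ) (P : ℤ → V), 4 ≤ n ∧ (∀ k, P (k + n) = P k) ∧ (∀ k, A.adj (P k) (P (k + 1))) ∧
      (∀ k, ¬ A.J (P k) (P (k + 2))) ∧
      (∀ h : ℤ, ∑ k ∈ Finset.Ico h (h + (n : ℤ)), A.W P k < 2) ∧
      ∀ l : List V, l.length < n → Cyc A.adj l → csum A.wv l < 2 →
        l.length ≤ 3 ∨ ∃ a b c m, l ~r (a :: b :: c :: m) ∧ A.J a c := by
  classical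
  have hex : ∃ n, ∃ l : List V, l.length = n ∧ Cyc A.adj l ∧ csum A.wv l < 2 ∧
      ¬ (l.length ≤ 3 ∨ ∃ a b c m, l ~r (a :: b :: c :: m) ∧ A.J a c) := by
    unfold PolR at h
    push Not at h
    obtain ⟨l, _, h1, h2, h3, h4⟩ := h
    refine ⟨l.length, l, rfl, h1, h2, ?_⟩
    rintro (h5 | ⟨a, b, c, m, h5, h6⟩)
    · omega
    · exact h4 a b c m h5 h6
  obtain ⟨l, hl, hc, hs, hn⟩ := Nat.find_spec hex
  have hmin : ∀ l' : List V, l'.length < Nat.find hex → Cyc A.adj l' → csum A.wv l' < 2 →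
      l'.length ≤ 3 ∨ ∃ a b c m, l' ~r (a :: b :: c :: m) ∧ A.J a c := by
    intro l' h1 h2 h3
    by_contra h4
    exact Nat.find_min hex h1 ⟨l', rfl, h2, h3, h4⟩
  generalize Nat.find hex = n at hl hmin
  have hn4 : 4 ≤ n := by
    by_contra h5
    exact hn (Or.inl (by omega))
  obtain ⟨k, rfl⟩ : ∃ k, n = k + 1 := ⟨n - 1, by omega⟩
  have hlpos : 0 < l.length := by omega
  -- the function
  let f : ℕ → V := fun t => l.getD t (l[0]'hlpos)
  have hf : ∀ t (ht : t < l.length), f t = l[t] := fun t ht => List.getD_eq_getElem _ _ ht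
  have hlf : l = (List.range (k + 1)).map f := by
    apply List.ext_getElem
    · rw [List.length_map, List.length_range, hl]
    · intro i h1 h2
      rw [List.getElem_map, List.getElem_range, hf i h1]
  have hc2 := (cyc_range A.adj k f).1 (hlf ▸ hc)
  have hs2 : ∑ t ∈ Finset.range k, A.wv (f t) (f (t + 1)) + A.wv (f k) (f 0) < 2 := by
    rw [← csum_range]
    exact hlf ▸ hs
  have hadj : ∀ t < k + 1, A.adj (f t) (f ((t + 1) % (k + 1))) := by
    intro t ht
    rcases Nat.lt_or_ge t k with h1 | h1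
    · rw [Nat.mod_eq_of_lt (by omega)]
      exact hc2.1 t h1
    · have h2 : t = k := by omega
      subst h2
      rw [Nat.mod_self]
      exact hc2.2
  have hnd : ∀ t < k + 1, ¬ A.J (f t) (f ((t + 2) % (k + 1))) := by
    intro t ht hJ
    obtain ⟨b, m, hb⟩ := triple_mk l (by omega) t (by omega)
    refine hn (Or.inr ⟨_, b, _, m, hb, ?_⟩)
    have h1 : (t + 2) % l.length < l.length := Nat.mod_lt _ hlpos
    rw [← hf t (by omega), ← hf _ h1, hl]
    exact hJ
  have hmod : ∀ (z : ℤ) (j : ℕ), ((z + j) % ((k + 1 : ℕ) : ℤ)).toNat =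
      ((z % ((k + 1 : ℕ) : ℤ)).toNat + j) % (k + 1) := by
    intro z j
    have h1 : 0 ≤ z % ((k + 1 : ℕ) : ℤ) := Int.emod_nonneg _ (by omega)
    have h2 : ((((z % ((k + 1 : ℕ) : ℤ)).toNat + j) % (k + 1) : ℕ) : ℤ) =
        (z + j) % ((k + 1 : ℕ) : ℤ) := by
      rw [Int.natCast_mod, Nat.cast_add, Int.toNat_of_nonneg h1, Int.emod_add_emod]
    rw [← h2, Int.toNat_natCast]
  have hlt : ∀ z : ℤ, (z % ((k + 1 : ℕ) : ℤ)).toNat < k + 1 := by
    intro z
    have h1 : 0 ≤ z % ((k + 1 : ℕ) : ℤ) := Int.emod_nonneg _ (by omega)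
    have h2 : z % ((k + 1 : ℕ) : ℤ) < ((k + 1 : ℕ) : ℤ) := Int.emod_lt_of_pos _ (by omega)
    omega
  let P : ℤ → V := fun z => f (z % ((k + 1 : ℕ) : ℤ)).toNat
  have hPj : ∀ (z : ℤ) (j : ℕ), P (z + j) = f (((z % ((k + 1 : ℕ) : ℤ)).toNat + j) % (k + 1)) := by
    intro z j
    show f _ = _
    rw [hmod]
  have hper : ∀ z, P (z + ((k + 1 : ℕ) : ℤ)) = P z := by
    intro z
    rw [hPj, Nat.add_mod_right, Nat.mod_eq_of_lt (hlt z)]
  refine ⟨k + 1, P, hn4, hper, fun z => ?_, fun z => ?_, ?_, hmin⟩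
  · have h1 := hPj z 1
    rw [Nat.cast_one] at h1
    rw [h1]
    exact hadj _ (hlt z)
  · have h1 := hPj z 2
    rw [Nat.cast_ofNat] at h1
    rw [h1]
    exact hnd _ (hlt z)
  · have hWper : ∀ z, A.W P (z + ((k + 1 : ℕ) : ℤ)) = A.W P z := by
      intro z
      unfold Sys.W
      rw [add_right_comm, hper, hper]
    have h0 : ∑ z ∈ Finset.Ico 0 (0 + ((k + 1 : ℕ) : ℤ)), A.W P z < 2 := by
      rw [sum_Ico_range, Finset.sum_range_succ]
      have hP : ∀ t < k + 1, P (0 + (t : ℤ)) = f t := by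
        intro t ht
        rw [hPj, Int.zero_emod, Int.toNat_zero, zero_add, Nat.mod_eq_of_lt ht]
      have h1 : ∑ t ∈ Finset.range k, A.W P (0 + (t : ℤ)) =
          ∑ t ∈ Finset.range k, A.wv (f t) (f (t + 1)) := by
        refine Finset.sum_congr rfl fun t ht => ?_
        rw [Finset.mem_range] at ht
        unfold Sys.W
        have h2 : (0 : ℤ) + (t : ℤ) + 1 = 0 + ((t + 1 : ℕ) : ℤ) := by push_cast; ring
        rw [h2, hP t (by omega), hP (t + 1) (by omega)]
      have h3 : A.W P (0 + (k : ℤ)) = A.wv (f k) (f 0) := by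
        unfold Sys.W
        have h2 : (0 : ℤ) + (k : ℤ) + 1 = 0 + ((k + 1 : ℕ) : ℤ) := by push_cast; ring
        have h4 : P (0 + ((k + 1 : ℕ) : ℤ)) = f 0 := by
          rw [hper]
          have := hP 0 (by omega)
          simpa using this
        rw [h2, h4, hP k (by omega)]
      rw [h1, h3]
      exact hs2
    have hshift : ∀ z : ℤ, ∑ x ∈ Finset.Ico (z + 1) (z + 1 + ((k + 1 : ℕ) : ℤ)), A.W P x =
        ∑ x ∈ Finset.Ico z (z + ((k + 1 : ℕ) : ℤ)), A.W P x := by
      intro z
      rw [sum_Ico_range, sum_Ico_range, Finset.sum_range_succ, Finset.sum_range_succ']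
      have h1 : z + 1 + (k : ℤ) = z + ((k + 1 : ℕ) : ℤ) := by push_cast; ring
      rw [h1, hWper]
      have h2 : z + ((0 : ℕ) : ℤ) = z := by simp
      rw [h2]
      congr 1
      refine Finset.sum_congr rfl fun t _ => ?_
      congr 1
      push_cast
      ring
    intro z
    induction z using Int.induction_on with
    | zero => exact h0
    | succ i ih => rw [hshift]; exact ih
    | pred i ih =>
      have h1 := hshift (-(i : ℤ) - 1)
      have h2 : -(i : ℤ) - 1 + 1 = -(i : ℤ) := by ring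
      rw [h2] at h1
      rw [← h1]
      exact ih

/-- triples of arcs -/
private theorem arc_tri {n : ℕ} {P : ℤ → V}
    (hnd : ∀ k, ¬ A.J (P k) (P (k + 2)))
    (hmin : ∀ l : List V, l.length < n → Cyc A.adj l → csum A.wv l < 2 →
        l.length ≤ 3 ∨ ∃ a b c m, l ~r (a :: b :: c :: m) ∧ A.J a c)
    (hadj : ∀ k, A.adj (P k) (P (k + 1))) (i : ℤ) (k : ℕ) (hk3 : 3 ≤ k) (hkn : k + 1 < n)
    (hcl : A.adj (P (i + k)) (P i))
    (hs : ∑ t ∈ Finset.range k, A.W P (i + t) + A.wv (P (i + k)) (P i) < 2) :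
    A.J (P (i + ((k - 1 : ℕ) : ℤ))) (P i) ∨ A.J (P (i + k)) (P (i + 1)) := by
  have hW : ∀ t : ℕ, A.W P (i + t) = A.wv (P (i + (t : ℤ))) (P (i + ((t + 1 : ℕ) : ℤ))) := by
    intro t
    unfold Sys.W
    rw [Nat.cast_add, Nat.cast_one, add_assoc]
  have h0 : P (i + ((0 : ℕ) : ℤ)) = P i := by simp
  have h1 : Cyc A.adj ((List.range (k + 1)).map (fun t : ℕ => P (i + (t : ℤ)))) := by
    rw [cyc_range]
    refine ⟨fun t _ => ?_, ?_⟩
    · have h := hadj (i + t)
      rw [add_assoc] at h
      rw [Nat.cast_add, Nat.cast_one]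
      exact h
    · rw [h0]
      exact hcl
  have h2 : csum A.wv ((List.range (k + 1)).map (fun t : ℕ => P (i + (t : ℤ)))) < 2 := by
    rw [csum_range, h0]
    refine lt_of_eq_of_lt ?_ hs
    congr 1
    exact Finset.sum_congr rfl fun t _ => (hW t).symm
  have hlen : ((List.range (k + 1)).map (fun t : ℕ => P (i + (t : ℤ)))).length = k + 1 := by
    rw [List.length_map, List.length_range]
  rcases hmin _ (by rw [hlen]; exact hkn) h1 h2 with h3 | ⟨a, b, c, m, h3, h4⟩
  · rw [hlen] at h3
    omega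
  · obtain ⟨t, ht, ht2, e1, e2⟩ := triple_get _ a b c m h3
    rw [List.getElem_map, List.getElem_range] at e1 e2
    simp only [hlen] at ht ht2 e2
    rw [← e1, ← e2] at h4
    rcases Nat.lt_or_ge k (t + 2) with h5 | h5
    · rcases Nat.lt_or_ge k (t + 1) with h6 | h6
      · right
        have h7 : t = k := by omega
        subst h7
        have h8 : (t + 2) % (t + 1) = 1 := by
          have : t + 2 = 1 + (t + 1) := by ring
          rw [this, Nat.add_mod_right, Nat.mod_eq_of_lt (by omega)]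
        rw [h8, Nat.cast_one] at h4
        exact h4
      · left
        have h7 : t = k - 1 := by omega
        have h8 : (t + 2) % (k + 1) = 0 := by
          have : t + 2 = k + 1 := by omega
          rw [this, Nat.mod_self]
        rw [h8, h0, h7] at h4
        exact h4
    · exfalso
      rw [Nat.mod_eq_of_lt (by omega)] at h4
      refine hnd (i + t) ?_
      have h9 : i + (t : ℤ) + 2 = i + ((t + 2 : ℕ) : ℤ) := by push_cast; ring
      rw [h9]
      exact h4

private theorem arc (hA : A.Ax) {n : ℕ} {P : ℤ → V}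
    (hnd : ∀ k, ¬ A.J (P k) (P (k + 2)))
    (hmin : ∀ l : List V, l.length < n → Cyc A.adj l → csum A.wv l < 2 →
        l.length ≤ 3 ∨ ∃ a b c m, l ~r (a :: b :: c :: m) ∧ A.J a c)
    (hadj : ∀ k, A.adj (P k) (P (k + 1))) :
    ∀ (k : ℕ) (i : ℤ), 2 ≤ k → k + 1 < n → ∑ t ∈ Finset.range k, A.W P (i + t) < 1 →
      ¬ A.J (P i) (P (i + k)) := by
  have hWpos : ∀ z, 0 < A.W P z := fun z => hA.wpos _ _
  have hleft : ∀ (i : ℤ) (j k : ℕ), j ≤ k →
      ∑ t ∈ Finset.range j, A.W P (i + t) ≤ ∑ t ∈ Finset.range k, A.W P (i + t) := by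
    intro i j k hjk
    refine Finset.sum_le_sum_of_subset_of_nonneg ?_ fun t _ _ => (hWpos _).le
    intro x hx
    rw [Finset.mem_range] at hx ⊢
    omega
  have hright : ∀ (i : ℤ) (k : ℕ),
      ∑ t ∈ Finset.range k, A.W P (i + 1 + t) ≤ ∑ t ∈ Finset.range (k + 1), A.W P (i + t) := by
    intro i k
    rw [Finset.sum_range_succ']
    have h1 : ∑ t ∈ Finset.range k, A.W P (i + 1 + t) =
        ∑ t ∈ Finset.range k, A.W P (i + ((t + 1 : ℕ) : ℤ)) := by
      refine Finset.sum_congr rfl fun t _ => ?_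
      congr 1
      push_cast
      ring
    rw [h1]
    have := (hWpos (i + ((0 : ℕ) : ℤ))).le
    linarith
  intro k
  induction k using Nat.strong_induction_on with
  | _ k ih =>
    intro i hk2 hkn hs hJ
    rcases Nat.lt_or_ge 2 k with hk3 | hk3
    swap
    · have h1 : k = 2 := by omega
      subst h1
      exact hnd i hJ
    have hk1 : i + (k : ℤ) = i + ((k - 1 : ℕ) : ℤ) + 1 := by
      have : ((k - 1 : ℕ) : ℤ) = (k : ℤ) - 1 := by omega
      rw [this]
      ring
    by_cases htyp : A.typ (P i) = A.typ (P (i + k))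
    · have heq := hA.same _ _ hJ htyp
      rcases Nat.lt_or_ge 3 k with hk4 | hk4
      · -- the arc without its last vertex
        have hadj1 : A.adj (P (i + ((k - 1 : ℕ) : ℤ))) (P i) := by
          have h1 := hadj (i + ((k - 1 : ℕ) : ℤ))
          rw [← hk1, ← heq] at h1
          exact h1
        have hs1 : ∑ t ∈ Finset.range (k - 1), A.W P (i + t) +
            A.wv (P (i + ((k - 1 : ℕ) : ℤ))) (P i) < 2 := by
          have h1 : ∑ t ∈ Finset.range k, A.W P (i + t) =
              ∑ t ∈ Finset.range (k - 1), A.W P (i + t) + A.W P (i + ((k - 1 : ℕ) : ℤ)) := by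
            have h2 := Finset.sum_range_succ (fun t : ℕ => A.W P (i + t)) (k - 1)
            have h3 : k - 1 + 1 = k := by omega
            rw [h3] at h2
            exact h2
          have h4 : A.W P (i + ((k - 1 : ℕ) : ℤ)) = A.wv (P (i + ((k - 1 : ℕ) : ℤ))) (P i) := by
            unfold Sys.W
            rw [← hk1, ← heq]
          rw [← h4, ← h1]
          linarith
        rcases arc_tri hnd hmin hadj i (k - 1) (by omega) (by omega) hadj1 hs1 with h1 | h1
        · refine hnd (i + ((k - 1 - 1 : ℕ) : ℤ)) ?_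
          have h2 : i + ((k - 1 - 1 : ℕ) : ℤ) + 2 = i + (k : ℤ) := by omega
          rw [h2, ← heq]
          exact h1
        · refine ih (k - 2) (by omega) (i + 1) (by omega) (by omega) ?_ ?_
          · have h2 := hright i (k - 2)
            have h3 := hleft i (k - 2 + 1) k (by omega)
            linarith
          · have h2 : i + 1 + ((k - 2 : ℕ) : ℤ) = i + ((k - 1 : ℕ) : ℤ) := by omega
            rw [h2]
            exact hA.symm _ _ h1
      · have h1 : k = 3 := by omega
        subst h1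
        have h2 := (hadj (i + 2)).2
        have h3 : i + 2 + 1 = i + ((3 : ℕ) : ℤ) := by push_cast; ring
        rw [h3, ← heq] at h2
        exact hnd i (hA.symm _ _ h2)
    · have hadj1 : A.adj (P (i + k)) (P i) := ⟨fun h => htyp h.symm, hA.symm _ _ hJ⟩
      have hs1 : ∑ t ∈ Finset.range k, A.W P (i + t) + A.wv (P (i + k)) (P i) < 2 := by
        have h1 := hA.whalf _ _ (fun h => htyp h.symm)
        have h2 : A.wv (P (i + k)) (P i) ≤ 1 / 2 := h1
        linarith
      rcases arc_tri hnd hmin hadj i k (by omega) hkn hadj1 hs1 with h1 | h1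
      · exact ih (k - 1) (by omega) i (by omega) (by omega)
          (lt_of_le_of_lt (hleft i (k - 1) k (by omega)) hs) (hA.symm _ _ h1)
      · refine ih (k - 1) (by omega) (i + 1) (by omega) (by omega) ?_ ?_
        · have h2 := hright i (k - 1)
          have h3 := hleft i (k - 1 + 1) k (by omega)
          linarith
        · have h2 : i + 1 + ((k - 1 : ℕ) : ℤ) = i + (k : ℤ) := by omega
          rw [h2]
          exact hA.symm _ _ h1

/-- `exists_ctr` with integers -/
theorem exists_ctrZ (hA : A.Ax) (h : ¬ PolR A.adj A.J A.wv (fun _ => True)) :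
    ∃ (n : ℕ) (P : ℤ → V), 4 ≤ n ∧ (∀ k, P (k + n) = P k) ∧ (∀ k, A.adj (P k) (P (k + 1))) ∧
      (∀ k, ¬ A.J (P k) (P (k + 2))) ∧
      (∀ h : ℤ, ∑ k ∈ Finset.Ico h (h + (n : ℤ)), A.W P k < 2) ∧
      ∀ i j : ℤ, i + 2 ≤ j → j + 2 ≤ i + n → ¬ A.J (P i) (P j) := by
  obtain ⟨n, P, hn, hper, hadj, hnd, hwt, hmin⟩ := exists_per hA h
  refine ⟨n, P, hn, hper, hadj, hnd, hwt, fun i j h1 h2 hJ => ?_⟩
  have harc := arc hA hnd hmin hadj
  obtain ⟨k, hk⟩ : ∃ k : ℕ, j = i + k := ⟨(j - i).toNat, by omega⟩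
  obtain ⟨k', hk'⟩ : ∃ k' : ℕ, i + n = j + k' := ⟨(i + n - j).toNat, by omega⟩
  have hsum : ∑ t ∈ Finset.range k, A.W P (i + t) + ∑ t ∈ Finset.range k', A.W P (j + t) < 2 := by
    have h3 := hwt i
    have h4 : (n : ℤ) = ((k + k' : ℕ) : ℤ) := by push_cast; omega
    rw [h4, sum_Ico_range, Finset.sum_range_add] at h3
    refine lt_of_eq_of_lt ?_ h3
    congr 1
    refine Finset.sum_congr rfl fun t _ => ?_
    rw [hk, Nat.cast_add, add_assoc]
  rcases lt_or_ge (∑ t ∈ Finset.range k, A.W P (i + t)) 1 with h3 | h3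
  · refine harc k i (by omega) (by omega) h3 ?_
    rw [← hk]
    exact hJ
  · refine harc k' j (by omega) (by omega) (by linarith) ?_
    rw [← hk', hper]
    exact hA.symm _ _ hJ

theorem exists_ctr (hA : A.Ax) (h : ¬ PolR A.adj A.J A.wv (fun _ => True)) : ∃ n P, A.Ctr n P := by
  obtain ⟨n, P, hn, hper, hadj, hnd, hwt, hchord⟩ := exists_ctrZ hA h
  refine ⟨n, P, ⟨hn, hper, hadj, hnd, fun h => ?_, fun i j h1 h2 => ?_⟩⟩
  · have h1 := hwt h
    rw [sum_Ico_range] at h1
    rw [Finset.sum_Ico_eq_sum_range, Nat.add_sub_cancel_left]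
    refine lt_of_eq_of_lt (Finset.sum_congr rfl fun t _ => ?_) h1
    rw [Nat.cast_add]
  · exact hchord i j (by omega) (by omega)

end Sys

end Pool.Agent.H52.VK
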