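import Pool.Agent.H52.VK.Gba

/-!
# [H52 VK ZED] Lemma Z (60 min)

`zed`: strong induction on `D.length`. `n` = the area of `D.map fst` (`Nat.find`). `gb`: `GB1`: `L.map fst = D.map fst`; position by position `1 - l θ ≤ c` (`List.Forall₂` / induction on `zip`; decompositions of `L`
and `D` at the same position). `GB2`: `D.map fst ~r x :: u ++ x :: v`: rotate `D` (`List.map` of a rotation): `D ~r (x, c₁) :: D₁ ++ (x, c₂) :: D₂`; apply the induction to `(x, 1) :: D₁` and `(x, 1) :: D₂`
(lengths smaller as `u, v ≠ []`; closed walks): domination at a position of `D₁`: a sector of `x :: u` (area `a₀ ≤ a`) at it is a sector of the whole walk: `g_insert` of the other closed walk at `x`, with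
`n - l ≥ (a₀ - l) + b`; at `x`: `1 - l θ ≤ 1`. So `1 + ΣD₁ ≥ 2`, `1 + ΣD₂ ≥ 2`, `c₁, c₂ ≥ 0`.
-/

set_option autoImplicit false

namespace Pool.Agent.H52.VK

variable {V : Type*} {E : V → V → Prop} {T : V → V → V → Prop} {θ : V → ℝ}

/-- the hypothesis of Lemma Z -/
private def Dm (T : V → V → V → Prop) (θ : V → ℝ) (n : ℕ) (D : List (V × ℝ)) : Prop :=
  ∀ P e Q, D = P ++ e :: Q → 0 ≤ e.2 ∧ ∀ l, Sec T n e.1 l ((Q ++ P).map Prod.fst) → 1 - (l : ℝ) * θ e.1 ≤ e.2

private theorem dm_rot_one {n : ℕ} {e₀ : V × ℝ} {L : List (V × ℝ)} (h : Dm T θ n (e₀ :: L)) :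
    Dm T θ n (L ++ [e₀]) := by
  intro P e Q hP
  rcases List.eq_nil_or_concat Q with rfl | ⟨Q', e', rfl⟩
  · have h1 : L = P ∧ [e₀] = [e] := List.append_inj' hP (by simp)
    obtain ⟨rfl, h2⟩ := h1
    rw [List.cons.injEq] at h2
    obtain ⟨rfl, -⟩ := h2
    have h3 := h [] e₀ L rfl
    simpa using h3
  · rw [List.concat_eq_append] at hP ⊢
    have hP' : L ++ [e₀] = (P ++ e :: Q') ++ [e'] := by
      rw [hP]
      simp
    have h1 : L = P ++ e :: Q' ∧ [e₀] = [e'] := List.append_inj' hP' (by simp)
    obtain ⟨rfl, h2⟩ := h1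
    rw [List.cons.injEq] at h2
    obtain ⟨rfl, -⟩ := h2
    have h3 := h (e₀ :: P) e Q' (by simp)
    have h4 : Q' ++ [e₀] ++ P = Q' ++ e₀ :: P := by simp
    rw [h4]
    exact h3

private theorem dm_rot {n : ℕ} {L : List (V × ℝ)} (k : ℕ) (h : Dm T θ n L) :
    Dm T θ n (L.rotate k) := by
  induction k generalizing L with
  | zero => rwa [List.rotate_zero]
  | succ k ih =>
    cases L with
    | nil => rwa [List.rotate_nil]
    | cons e L =>
      rw [List.rotate_cons_succ]
      exact ih (dm_rot_one h)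

private theorem ar_ex {a : ℕ} {w : List V} (h : G T a (cw w)) : ∃ a₀ ≤ a, Ar T a₀ w := by
  classical
  have h1 : ∃ m, G T m (cw w) := ⟨a, h⟩
  exact ⟨Nat.find h1, Nat.find_min' h1 h, Nat.find_spec h1, fun m hm => Nat.find_min h1 hm⟩

private theorem sec_insert {n a b l : ℕ} {x y : V} {q p v : List V} (h : Sec T a y l (q ++ x :: p))
    (hb : G T b (cw (x :: v))) (hn : a + b ≤ n) : Sec T n y l (q ++ x :: (v ++ x :: p)) := by
  obtain ⟨r, h1, h2, h3, h4, h5, h6⟩ := h
  refine ⟨r, h1, h2, ?_, ?_, by omega, ?_⟩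
  · rw [h3]
    simp [List.getLast?_append, List.getLast?_cons]
  · rw [h4]
    cases q <;> rfl
  · have h7 : pw (q ++ x :: (v ++ x :: p)) ++ pw r =
        pw (q ++ [x]) ++ (cw (x :: v) ++ (pw (x :: p) ++ pw r)) := by
      have h8 : pw (x :: (v ++ x :: p)) = pw (x :: (v ++ [x])) ++ pw (x :: p) := by
        have h9 := pw_append (x :: v) p x
        simpa using h9
      rw [pw_append, h8]
      show _ = pw (q ++ [x]) ++ (pw (x :: (v ++ [x])) ++ (pw (x :: p) ++ pw r))
      simp only [List.append_assoc]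
    rw [h7]
    have h8 : G T (a - l) (pw (q ++ [x]) ++ (pw (x :: p) ++ pw r)) := by
      rw [pw_append, List.append_assoc] at h6
      exact h6
    exact (g_insert h8 hb).mono (by omega)

private theorem sum_le {n : ℕ} {L : List (V × ℕ)} {D : List (V × ℝ)} (hL : Good T n L)
    (hD : Dm T θ n D) : ∀ (L₂ : List (V × ℕ)) (D₂ : List (V × ℝ)) (L₁ : List (V × ℕ))
    (D₁ : List (V × ℝ)), L = L₁ ++ L₂ → D = D₁ ++ D₂ → L₁.map Prod.fst = D₁.map Prod.fst →
    L₂.map Prod.fst = D₂.map Prod.fst →
    (L₂.map fun e => 1 - (e.2 : ℝ) * θ e.1).sum ≤ (D₂.map Prod.snd).sum := by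
  intro L₂
  induction L₂ with
  | nil =>
    intro D₂ L₁ D₁ _ _ _ h2
    have h3 : D₂ = [] := by
      cases D₂ with
      | nil => rfl
      | cons d D₂ => simp at h2
    subst h3
    simp
  | cons e L₂ ih =>
    intro D₂ L₁ D₁ hL1 hD1 h1 h2
    cases D₂ with
    | nil => simp at h2
    | cons d D₂ =>
      rw [List.map_cons, List.map_cons, List.cons.injEq] at h2
      obtain ⟨h3, h4⟩ := h2
      have h5 := hL L₁ e L₂ hL1
      have h6 := (hD D₁ d D₂ hD1).2 e.2 (by
        rw [← h3]
        have h7 : (D₂ ++ D₁).map Prod.fst = (L₂ ++ L₁).map Prod.fst := by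
          rw [List.map_append, List.map_append, h1, h4]
        rw [h7]
        exact h5)
      have h7 := ih D₂ (L₁ ++ [e]) (D₁ ++ [d]) (by rw [hL1]; simp) (by rw [hD1]; simp)
        (by rw [List.map_append, List.map_append, h1]; simp [h3]) h4
      rw [List.map_cons, List.sum_cons, List.map_cons, List.sum_cons]
      rw [← h3] at h6
      exact add_le_add h6 h7

private theorem cyc_left {x : V} {u v : List V} (h : Cyc E (x :: u ++ x :: v)) : Cyc E (x :: u) := by
  have h1 : List.IsChain E ((x :: u) ++ x :: (v ++ [x])) := by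
    have h2 : List.IsChain E (x :: ((u ++ x :: v) ++ [x])) := h
    have h3 : (x :: u) ++ x :: (v ++ [x]) = x :: ((u ++ x :: v) ++ [x]) := by simp
    rw [h3]
    exact h2
  rw [List.isChain_split] at h1
  exact h1.1

private theorem cyc_right {x : V} {u v : List V} (h : Cyc E (x :: u ++ x :: v)) : Cyc E (x :: v) := by
  have h1 : List.IsChain E ((x :: u) ++ x :: (v ++ [x])) := by
    have h2 : List.IsChain E (x :: ((u ++ x :: v) ++ [x])) := h
    have h3 : (x :: u) ++ x :: (v ++ [x]) = x :: ((u ++ x :: v) ++ [x]) := by simp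
    rw [h3]
    exact h2
  rw [List.isChain_split] at h1
  exact h1.2

/-- Lemma Z -/
theorem zed (hX : Cx E T) (h0 : ∀ x, 0 ≤ θ x) (hs : ∀ x y z, T x y z → θ x + θ y + θ z ≤ 1) (hg : Gth T θ) (D : List (V × ℝ))
    (hc : Cyc E (D.map Prod.fst)) (h2 : 2 ≤ D.length) (n : ℕ) (hn : Ar T n (D.map Prod.fst))
    (hd : ∀ P e Q, D = P ++ e :: Q → 0 ≤ e.2 ∧ ∀ l, Sec T n e.1 l ((Q ++ P).map Prod.fst) → 1 - (l : ℝ) * θ e.1 ≤ e.2) :
    2 ≤ (D.map Prod.snd).sum := by
  suffices H : ∀ (N : ℕ) (D : List (V × ℝ)) (n : ℕ), D.length ≤ N → Cyc E (D.map Prod.fst) →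
      2 ≤ D.length → Ar T n (D.map Prod.fst) → Dm T θ n D → 2 ≤ (D.map Prod.snd).sum from
    H D.length D n le_rfl hc h2 hn hd
  intro N
  induction N with
  | zero =>
    intro D n hN _ h2 _ _
    omega
  | succ N ih =>
    intro D n hN hc h2 hn hd
    rcases gb hX hs hg n (D.map Prod.fst) hc (by rw [List.length_map]; exact h2) hn with
      ⟨L, hL1, hL2, hL3⟩ | ⟨x, u, v, a, b, hr, hu, hv, hab, ha, hb⟩
    · exact le_trans hL3 (sum_le hL2 hd L D [] [] rfl rfl rfl hL1)
    · obtain ⟨k, hk⟩ := hr
      rw [← List.map_rotate] at hk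
      have hd' := dm_rot k hd
      have hlen : (D.rotate k).length = D.length := List.length_rotate _ _
      have hsum : ((D.rotate k).map Prod.snd).sum = (D.map Prod.snd).sum :=
        ((List.rotate_perm D k).map _).sum_eq
      have hc' : Cyc E ((D.rotate k).map Prod.fst) := by
        rw [List.map_rotate]
        exact hc.rot ⟨k, rfl⟩
      rw [← hsum]
      generalize D.rotate k = D' at hk hd' hlen hsum hc'
      rw [hk] at hc'
      rw [List.cons_append, List.map_eq_cons_iff] at hk
      obtain ⟨e₁, D₀, rfl, hx1, hk⟩ := hk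
      rw [List.map_eq_append_iff] at hk
      obtain ⟨D₁, D₃, rfl, hu1, hk⟩ := hk
      rw [List.map_eq_cons_iff] at hk
      obtain ⟨e₂, D₂, rfl, hx2, hv1⟩ := hk
      have hlu : 1 ≤ D₁.length := by
        rw [← List.length_map (f := Prod.fst), hu1]
        exact List.length_pos_iff.2 hu
      have hlv : 1 ≤ D₂.length := by
        rw [← List.length_map (f := Prod.fst), hv1]
        exact List.length_pos_iff.2 hv
      simp only [List.length_cons, List.length_append] at hlen
      -- the two parts
      obtain ⟨a₀, ha₀, hA⟩ := ar_ex ha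
      obtain ⟨b₀, hb₀, hB⟩ := ar_ex hb
      have k1 : 2 ≤ (((x, (1 : ℝ)) :: D₁).map Prod.snd).sum := by
        refine ih _ a₀ (by simp only [List.length_cons]; omega) ?_
          (by simp only [List.length_cons]; omega) ?_ ?_
        · rw [List.map_cons, hu1]
          exact cyc_left hc'
        · rw [List.map_cons, hu1]
          exact hA
        · intro P e Q hP
          cases P with
          | nil =>
            rw [List.nil_append, List.cons.injEq] at hP
            obtain ⟨rfl, rfl⟩ := hP
            refine ⟨zero_le_one, fun l _ => ?_⟩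
            have h3 : 0 ≤ (l : ℝ) * θ x := mul_nonneg (Nat.cast_nonneg l) (h0 x)
            show 1 - (l : ℝ) * θ x ≤ 1
            linarith
          | cons f P =>
            rw [List.cons_append, List.cons.injEq] at hP
            obtain ⟨rfl, hP⟩ := hP
            subst hP
            have h3 := hd' (e₁ :: P) e (Q ++ e₂ :: D₂) (by simp)
            refine ⟨h3.1, fun l hl => h3.2 l ?_⟩
            rw [List.map_append, List.map_cons] at hl
            have h4 := sec_insert hl hb (n := n) (by omega)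
            simpa [hx1, hx2, hv1] using h4
      have k2 : 2 ≤ (((x, (1 : ℝ)) :: D₂).map Prod.snd).sum := by
        refine ih _ b₀ (by simp only [List.length_cons]; omega) ?_
          (by simp only [List.length_cons]; omega) ?_ ?_
        · rw [List.map_cons, hv1]
          exact cyc_right hc'
        · rw [List.map_cons, hv1]
          exact hB
        · intro P e Q hP
          cases P with
          | nil =>
            rw [List.nil_append, List.cons.injEq] at hP
            obtain ⟨rfl, rfl⟩ := hP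
            refine ⟨zero_le_one, fun l _ => ?_⟩
            have h3 : 0 ≤ (l : ℝ) * θ x := mul_nonneg (Nat.cast_nonneg l) (h0 x)
            show 1 - (l : ℝ) * θ x ≤ 1
            linarith
          | cons f P =>
            rw [List.cons_append, List.cons.injEq] at hP
            obtain ⟨rfl, hP⟩ := hP
            subst hP
            have h3 := hd' (e₁ :: (D₁ ++ e₂ :: P)) e Q (by simp)
            refine ⟨h3.1, fun l hl => h3.2 l ?_⟩
            rw [List.map_append, List.map_cons] at hl
            have h4 := sec_insert hl ha (n := n) (by omega)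
            simpa [hx1, hx2, hu1] using h4
      have c1 : 0 ≤ e₁.2 := (hd' [] e₁ (D₁ ++ e₂ :: D₂) rfl).1
      have c2 : 0 ≤ e₂.2 := (hd' (e₁ :: D₁) e₂ D₂ (by simp)).1
      simp only [List.map_cons, List.sum_cons, List.map_append, List.sum_append] at k1 k2 ⊢
      linarith

end Pool.Agent.H52.VK
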