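import Pool.Agent.H52.VK.Loc1
import Pool.Agent.H52.VK.Cho
import Pool.Agent.H52.VK.Zed

/-!
# [H52 VK ABS] The abstract theorem (45 min)

`poly_abs`: otherwise `exists_ctr`, `exists_min`; `D = cD P i L`; `zed` for `D` (with `cx`, `theta_pos`, `theta_sum`, `gth`): `Cyc E`, `2 ≤ D.length` (`L = [(x, _)]` gives `E x x`), `Ar T N` (minimality); domination:
induction on `P'` for a decomposition `cD P i L = P' ++ e :: Q`: `P' = []`: `loc1` (and `0 ≤ ∑ W`, `wpos`); `P' = (x, c) :: P''`: `min_rot`, `cD P j (L ++ [(x, j + n)]) = cD P j L ++ [(x, c)]` (`per`: the sum over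
`Ico (i + n) (j + n)` is the sum over `Ico i j`; `ll j L = i + n`), decomposition `P'' ++ e :: (Q ++ [(x, c)])`. `zed`: `2 ≤ ∑ = ∑ Ico i (i + n) W < 2` (`cD_sum`, `Ctr.wt`).
-/

set_option autoImplicit false

namespace Pool.Agent.H52.VK

namespace Sys

variable {B V : Type*} {A : Sys B V}

private theorem cD_app (P : ℤ → V) (L' : List (V × ℤ)) : ∀ (L : List (V × ℤ)) (i : ℤ),
    A.cD P i (L ++ L') = A.cD P i L ++ A.cD P (ll i L) L' := by
  intro L
  induction L with
  | nil =>
    intro i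
    rfl
  | cons e L ih =>
    intro i
    obtain ⟨x, j⟩ := e
    show (x, ∑ k ∈ Finset.Ico i j, A.W P k) :: A.cD P j (L ++ L') =
      (x, ∑ k ∈ Finset.Ico i j, A.W P k) :: (A.cD P j L ++ A.cD P (ll j L) L')
    rw [ih j]

private theorem w_per {n : ℕ} {P : ℤ → V} (hP : A.Ctr n P) (i j : ℤ) :
    ∑ k ∈ Finset.Ico (i + n) (j + n), A.W P k = ∑ k ∈ Finset.Ico i j, A.W P k := by
  rw [← Finset.sum_Ico_add']
  refine Finset.sum_congr rfl fun k _ => ?_
  have h1 : k + n + 1 = k + 1 + n := by ring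
  unfold W
  rw [h1, hP.per, hP.per]

private theorem w_rng (P : ℤ → V) (n : ℕ) (i : ℤ) :
    ∑ k ∈ Finset.Ico i (i + n), A.W P k = ∑ t ∈ Finset.range n, A.W P (i + t) := by
  refine Finset.sum_nbij' (fun k => (k - i).toNat) (fun t => i + t) ?_ ?_ ?_ ?_ ?_
  · intro k hk
    rw [Finset.mem_Ico] at hk
    rw [Finset.mem_range]
    omega
  · intro t ht
    rw [Finset.mem_range] at ht
    rw [Finset.mem_Ico]
    omega
  · intro k hk
    rw [Finset.mem_Ico] at hk
    show i + ((k - i).toNat : ℤ) = k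
    omega
  · intro t _
    show (i + (t : ℤ) - i).toNat = t
    omega
  · intro k hk
    rw [Finset.mem_Ico] at hk
    have h1 : i + ((k - i).toNat : ℤ) = k := by omega
    show A.W P k = A.W P (i + ((k - i).toNat : ℤ))
    rw [h1]

private theorem w_step {n : ℕ} {P : ℤ → V} (hP : A.Ctr n P) (i : ℤ) :
    ∑ t ∈ Finset.range n, A.W P (i + 1 + t) = ∑ t ∈ Finset.range n, A.W P (i + t) := by
  have h1 := Finset.sum_range_succ (fun t : ℕ => A.W P (i + t)) n
  have h2 := Finset.sum_range_succ' (fun t : ℕ => A.W P (i + t)) n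
  have h3 : A.W P (i + n) = A.W P i := by
    have h4 : i + (n : ℤ) + 1 = i + 1 + n := by ring
    unfold W
    rw [h4, hP.per, hP.per]
  have h5 : ∑ t ∈ Finset.range n, A.W P (i + ((t + 1 : ℕ) : ℤ)) =
      ∑ t ∈ Finset.range n, A.W P (i + 1 + t) := by
    refine Finset.sum_congr rfl fun t _ => ?_
    have h6 : i + ((t + 1 : ℕ) : ℤ) = i + 1 + t := by
      push_cast
      ring
    rw [h6]
  rw [h1] at h2
  rw [h5, Nat.cast_zero, add_zero, h3] at h2
  linarith

private theorem w_lt {n : ℕ} {P : ℤ → V} (hP : A.Ctr n P) (i : ℤ) :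
    ∑ k ∈ Finset.Ico i (i + n), A.W P k < 2 := by
  have h0 : ∑ t ∈ Finset.range n, A.W P ((0 : ℤ) + t) < 2 := by
    first
    | (have h1 := hP.wt 0
       rw [zero_add, ← Finset.range_eq_Ico] at h1
       simpa using h1)
    | (have h1 := hP.wt 0
       rw [w_rng] at h1
       exact h1)
  have h2 : ∑ t ∈ Finset.range n, A.W P (i + t) = ∑ t ∈ Finset.range n, A.W P ((0 : ℤ) + t) := by
    induction i with
    | zero => rfl
    | succ i ih =>
      rw [w_step hP]
      exact ih
    | pred i ih =>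
      rw [← ih, ← w_step hP (-(i : ℤ) - 1)]
      refine Finset.sum_congr rfl fun t _ => ?_
      rw [sub_add_cancel]
  rw [w_rng, h2]
  exact h0

private theorem dom (hA : A.Ax) {n N : ℕ} {P : ℤ → V} (hP : A.Ctr n P) :
    ∀ (P' : List (V × ℝ)) (e : V × ℝ) (Q : List (V × ℝ)) (i : ℤ) (L : List (V × ℤ)),
      A.MinConf n P N i L → A.cD P i L = P' ++ e :: Q →
      0 ≤ e.2 ∧ ∀ l : ℕ, Sec A.T N e.1 l ((Q ++ P').map Prod.fst) → 1 - (l : ℝ) * A.θ e.1 ≤ e.2 := by
  intro P'
  induction P' with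
  | nil =>
    intro e Q i L hM hD
    cases L with
    | nil => exact absurd rfl hM.1.1
    | cons f L =>
      obtain ⟨x, j⟩ := f
      have hD' : (x, ∑ k ∈ Finset.Ico i j, A.W P k) :: A.cD P j L = e :: Q := hD
      rw [List.cons.injEq] at hD'
      obtain ⟨rfl, rfl⟩ := hD'
      refine ⟨?_, fun l hl => ?_⟩
      · show 0 ≤ ∑ k ∈ Finset.Ico i j, A.W P k
        exact Finset.sum_nonneg fun k _ => (hA.wpos _ _).le
      rw [List.append_nil, cD_fst] at hl
      exact loc1 hA hP (j - i).toNat i j x L l rfl hM hl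
  | cons f' P'' ih =>
    intro e Q i L hM hD
    cases L with
    | nil => exact absurd rfl hM.1.1
    | cons f L =>
      obtain ⟨x, j⟩ := f
      have hD' : (x, ∑ k ∈ Finset.Ico i j, A.W P k) :: A.cD P j L = f' :: (P'' ++ e :: Q) := hD
      rw [List.cons.injEq] at hD'
      obtain ⟨rfl, hD'⟩ := hD'
      have hll : ll j L = i + n := hM.1.2.2.1
      have h1 : A.cD P j (L ++ [(x, j + n)]) =
          P'' ++ e :: (Q ++ [(x, ∑ k ∈ Finset.Ico i j, A.W P k)]) := by
        rw [cD_app, hD', hll]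
        have h2 : A.cD P (i + n) [(x, j + n)] = [(x, ∑ k ∈ Finset.Ico i j, A.W P k)] := by
          show [(x, ∑ k ∈ Finset.Ico (i + n) (j + n), A.W P k)] = _
          rw [w_per hP]
        rw [h2, List.append_assoc, List.cons_append]
      have h2 := ih e _ j _ (min_rot hA hP hM) h1
      refine ⟨h2.1, fun l hl => h2.2 l ?_⟩
      rw [List.append_assoc]
      exact hl

theorem poly_abs (hA : A.Ax) : PolR A.adj A.J A.wv (fun _ => True) := by
  by_contra h
  obtain ⟨n, P, hP⟩ := exists_ctr hA h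
  obtain ⟨N, i, L, hM⟩ := exists_min hA hP
  have hlen : 2 ≤ (A.cD P i L).length := by
    rw [← List.length_map (f := Prod.fst), cD_fst, List.length_map]
    match L, hM with
    | [], hM => exact absurd rfl hM.1.1
    | [(x, j)], hM =>
      exfalso
      have h1 : List.IsChain A.E [x, x] := hM.1.2.2.2
      rw [List.isChain_cons_cons] at h1
      exact h1.1.2.2.1 rfl
    | _ :: _ :: L, _ =>
      rw [List.length_cons, List.length_cons]
      omega
  have h2 : 2 ≤ ((A.cD P i L).map Prod.snd).sum := by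
    refine zed (cx hA) (fun x => (theta_pos hA x).le) (theta_sum hA) (gth hA) (A.cD P i L) ?_ hlen N
      ?_ ?_
    · rw [cD_fst]
      exact hM.1.2.2.2
    · rw [cD_fst]
      refine ⟨hM.2.1, fun m hm hG => ?_⟩
      have h3 := (hM.2.2 i L m hM.1 hG).1
      omega
    · exact fun P' e Q hD => dom hA hP P' e Q i L hM hD
  rw [cD_sum hM.1.2.1, hM.1.2.2.1] at h2
  exact absurd (w_lt hP i) (not_lt.2 h2)

end Sys

end Pool.Agent.H52.VK
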