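import Pool.Agent.H52.VK.Defs

/-!
# [H52 VK PMAP] PolR along maps (45 min)

`polR_map`: `l.map f`; `Cyc`, `csum`, `length` and rotations commute with `List.map`; a rotation `l.map f ~r a' :: b' :: c' :: m'` comes from a rotation `l ~r a :: b :: c :: m` with the same number
(`List.IsRotated` is `∃ k, l.rotate k = _`, `List.map_rotate`, `List.map_eq_cons_iff`).
-/

set_option autoImplicit false

namespace Pool.Agent.H52.VK

variable {V V' : Type*}

theorem cyc_map {R : V → V → Prop} {R' : V' → V' → Prop} (f : V → V') {l : List V} (hR : ∀ a ∈ l, ∀ b ∈ l, R a b → R' (f a) (f b))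
    (h : Cyc R l) : Cyc R' (l.map f) := by
  cases l with
  | nil => trivial
  | cons a l =>
    have h1 : List.IsChain R (a :: (l ++ [a])) := h
    have h2 : List.IsChain (fun x y => R' (f x) (f y)) (a :: (l ++ [a])) := by
      refine h1.imp_of_mem_imp ?_
      intro x y hx hy hxy
      refine hR x ?_ y ?_ hxy
      · simpa [or_comm] using hx
      · simpa [or_comm] using hy
    have h3 : List.IsChain R' ((a :: (l ++ [a])).map f) := by
      rw [List.isChain_map]
      exact h2
    show List.IsChain R' (f a :: (l.map f ++ [f a]))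
    simpa using h3

private theorem ps_map {R : V → V → Prop} {w : V → V → ℝ} {w' : V' → V' → ℝ} (f : V → V') : ∀ (l : List V) (a : V),
    (∀ x ∈ a :: l, ∀ y ∈ a :: l, R x y → w' (f x) (f y) = w x y) → List.IsChain R (a :: l) →
    ps w' (f a) (l.map f) = ps w a l := by
  intro l
  induction l with
  | nil => intro a _ _; rfl
  | cons b l ih =>
    intro a hw h
    rw [List.isChain_cons_cons] at h
    have h1 := ih b (fun x hx y hy => hw x (List.mem_cons_of_mem _ hx) y (List.mem_cons_of_mem _ hy)) h.2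
    have h2 := hw a List.mem_cons_self b (List.mem_cons_of_mem _ List.mem_cons_self) h.1
    show w' (f a) (f b) + ps w' (f b) (l.map f) = w a b + ps w b l
    rw [h1, h2]

theorem csum_map {R : V → V → Prop} {w : V → V → ℝ} {w' : V' → V' → ℝ} (f : V → V') {l : List V}
    (hw : ∀ a ∈ l, ∀ b ∈ l, R a b → w' (f a) (f b) = w a b) (h : Cyc R l) : csum w' (l.map f) = csum w l := by
  cases l with
  | nil => rfl
  | cons a l =>
    have h1 : List.IsChain R (a :: (l ++ [a])) := h
    have h2 := ps_map (w := w) (w' := w') f (l ++ [a]) a (by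
      intro x hx y hy hxy
      refine hw x ?_ y ?_ hxy
      · simpa [or_comm] using hx
      · simpa [or_comm] using hy) h1
    show ps w' (f a) (l.map f ++ [f a]) = ps w a (l ++ [a])
    rw [← h2]
    simp

theorem polR_map {R J : V → V → Prop} {w : V → V → ℝ} {Q : V → Prop} {R' J' : V' → V' → Prop} {w' : V' → V' → ℝ} {Q' : V' → Prop}
    (f : V → V') (hQ : ∀ a, Q a → Q' (f a)) (hR : ∀ a b, Q a → Q b → R a b → R' (f a) (f b))
    (hw : ∀ a b, Q a → Q b → R a b → w' (f a) (f b) = w a b) (hJ : ∀ a b, Q a → Q b → J' (f a) (f b) → J a b)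
    (h : PolR R' J' w' Q') : PolR R J w Q := by
  intro l hl hc hs
  have h1 : ∀ x ∈ l.map f, Q' x := by
    intro x hx
    rw [List.mem_map] at hx
    obtain ⟨a, ha, rfl⟩ := hx
    exact hQ a (hl a ha)
  have h2 : Cyc R' (l.map f) := cyc_map f (fun a ha b hb => hR a b (hl a ha) (hl b hb)) hc
  have h3 : csum w' (l.map f) = csum w l := csum_map (R := R) f (fun a ha b hb => hw a b (hl a ha) (hl b hb)) hc
  rcases h (l.map f) h1 h2 (by rw [h3]; exact hs) with h4 | ⟨a', b', c', m', ⟨k, hk⟩, hJ'⟩
  · left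
    simpa using h4
  · right
    rw [← List.map_rotate, List.map_eq_cons_iff] at hk
    obtain ⟨a, l1, hk, rfl, hk1⟩ := hk
    rw [List.map_eq_cons_iff] at hk1
    obtain ⟨b, l2, rfl, rfl, hk2⟩ := hk1
    rw [List.map_eq_cons_iff] at hk2
    obtain ⟨c, m, rfl, rfl, rfl⟩ := hk2
    have h5 : ∀ x ∈ a :: b :: c :: m, Q x := by
      intro x hx
      rw [← hk, List.mem_rotate] at hx
      exact hl x hx
    exact ⟨a, b, c, m, ⟨k, hk⟩, hJ a c (h5 a (by simp)) (h5 c (by simp)) hJ'⟩

end Pool.Agent.H52.VK
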