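import Pool.Agent.H52.VK.Defs
import Pool.Agent.H54.TF.Defs

/-!
# [H52 VK POL] POLY(S) for an Artin group

`M` is a Coxeter matrix. A vertex is a pair `(t, g)`: the coset `g * ap M (S \ {t})`. `Jv M S x y`: the two cosets meet. `wt M s t = 1 / m`, `m = 4` if the label is `5`, otherwise the
label. `Pol M S`: closed chains of vertices with types in `S`, consecutive ones of different types and meeting, with sum of weights `< 2`, are degenerate.
-/

set_option autoImplicit false

namespace Pool.Agent.H52.VK

open Pool.H8.CDW Pool.Agent.H52.PAG Pool.Agent.H75.INF Pool.Agent.H54.TF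

variable {B : Type}

/-- the label, with `5` replaced by `4` -/
def lab (m : ℕ) : ℕ := if m = 5 then 4 else m

variable (M : CoxeterMatrix B)

/-- the weight of a pair of types -/
noncomputable def wt (s t : B) : ℝ := 1 / (lab (M s t) : ℝ)

/-- the cosets `x.2 * ap M (S \ {x.1})` and `y.2 * ap M (S \ {y.1})` meet -/
def Jv (S : Set B) (x y : B × Art M) : Prop := Mt M (S \ {x.1}) (S \ {y.1}) x.2 y.2

/-- POLY(S) -/
def Pol (S : Set B) : Prop :=
  PolR (fun x y : B × Art M => x.1 ≠ y.1 ∧ Jv M S x y) (Jv M S) (fun x y => wt M x.1 y.1) (fun x => x.1 ∈ S)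

end Pool.Agent.H52.VK
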