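import Pool.Agent.H52.VK.Walk
import Pool.Agent.H54.CX.Defs

/-!
# [H52 VK SCX] Closed walks in simply connected complexes can be filled (45 min)

`cx_of`: the fields of `Cpx`. `fill_of_sc`: `l = x :: l'`: the list `x :: (l' ++ [x])` is a `Path x x` (`Near`), so `Htp` to `[x]` (`contr`). Invariant of the moves: let `red m` be `pw m` without the darts `(a, a)`
(`List.filter`, classical); `∃ n, G X.Tri n (red m)` is invariant under `Move` in both directions: `stay`: `red` is the same (`pw_append`); `back`: `g_bt`, `g_del`; `tri`: `g_tri`, `g_tri'` (the three darts are not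
degenerate: `edge`, `rot`, `swap`, `ne`). `Relation.EqvGen` induction. `red [x] = []`. `red (x :: (l' ++ [x])) = cw l` as consecutive vertices are different.
`g_map`: `Fill` is mapped (induction; a triangle to a triangle). `cw_map`: induction.
-/

set_option autoImplicit false

namespace Pool.Agent.H52.VK

open Pool.Agent.H54.CX

theorem cx_of {V : Type} (X : Cpx V) : Cx X.Edge X.Tri :=
  ⟨fun x h => X.ne x x h rfl, X.symm, X.edge, X.rot, X.swap⟩

open Classical in
/-- a word without the degenerate darts -/
private noncomputable def red {V : Type} (w : List (V × V)) : List (V × V) := w.filter fun d => decide (d.1 ≠ d.2)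

private theorem red_append {V : Type} (u v : List (V × V)) : red (u ++ v) = red u ++ red v := List.filter_append _ _

private theorem red_same {V : Type} (a : V) (w : List (V × V)) : red ((a, a) :: w) = red w := by
  unfold red
  rw [List.filter_cons_of_neg]
  simp

private theorem red_cons {V : Type} {a b : V} (h : a ≠ b) (w : List (V × V)) :
    red ((a, b) :: w) = (a, b) :: red w := by
  unfold red
  rw [List.filter_cons_of_pos]
  simpa using h

private theorem move_iff {V : Type} (X : Cpx V) {l m : List V} (h : X.Move l m) :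
    (∃ n, G X.Tri n (red (pw l))) ↔ ∃ n, G X.Tri n (red (pw m)) := by
  have hX := cx_of X
  cases h with
  | stay u w a =>
    rw [pw_append u (a :: w) a, pw_append u w a, red_append, red_append]
    have h1 : pw (a :: a :: w) = (a, a) :: pw (a :: w) := rfl
    rw [h1, red_same]
  | back u w a b hab =>
    have hne := X.ne a b hab
    rw [pw_append u (b :: a :: w) a, pw_append u w a, red_append, red_append]
    have h1 : pw (a :: b :: a :: w) = (a, b) :: (b, a) :: pw (a :: w) := rfl
    rw [h1, red_cons hne, red_cons hne.symm]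
    constructor
    · rintro ⟨n, hn⟩
      exact ⟨n, g_del hX hn⟩
    · rintro ⟨n, hn⟩
      exact ⟨n, g_bt hn⟩
  | tri u w a b c hT =>
    have hab := X.ne a b (X.edge a b c hT)
    have hbc := X.ne b c (X.edge b c a (X.rot a b c hT))
    have hac := X.ne a c (X.edge a c b (X.rot b a c (X.swap a b c hT)))
    rw [pw_append u (b :: c :: w) a, pw_append u (c :: w) a, red_append, red_append]
    have h1 : pw (a :: b :: c :: w) = (a, b) :: (b, c) :: pw (c :: w) := rfl
    have h2 : pw (a :: c :: w) = (a, c) :: pw (c :: w) := rfl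
    rw [h1, h2, red_cons hab, red_cons hbc, red_cons hac]
    constructor
    · rintro ⟨n, hn⟩
      exact ⟨n + 1, g_tri hX hT hn⟩
    · rintro ⟨n, hn⟩
      exact ⟨n + 1, g_tri' hX hT hn⟩

private theorem pw_edge {V : Type} {R : V → V → Prop} : ∀ {l : List V}, List.IsChain R l → ∀ d ∈ pw l, R d.1 d.2
  | [], _, d, hd => absurd hd List.not_mem_nil
  | [_], _, d, hd => absurd hd List.not_mem_nil
  | a :: b :: l, h, d, hd => by
    rw [List.isChain_cons_cons] at h
    have h1 : pw (a :: b :: l) = (a, b) :: pw (b :: l) := rfl
    rw [h1] at hd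
    rcases List.mem_cons.1 hd with rfl | hd
    · exact h.1
    · exact pw_edge h.2 d hd

theorem fill_of_sc {V : Type} (X : Cpx V) (hX : X.SC) (l : List V) (hl : Cyc X.Edge l) : ∃ n, G X.Tri n (cw l) := by
  cases l with
  | nil => exact ⟨0, g_nil⟩
  | cons x l =>
    have hc : List.IsChain X.Edge (x :: (l ++ [x])) := hl
    have hp : X.Path (x :: (l ++ [x])) x x := by
      refine ⟨hc.imp fun a b h => Or.inr h, rfl, ?_⟩
      rw [← List.cons_append, List.getLast?_append]
      rfl
    have hh : X.Htp (x :: (l ++ [x])) [x] := hX.contr x _ hp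
    have key : ∀ {l m : List V}, Relation.EqvGen X.Move l m →
        ((∃ n, G X.Tri n (red (pw l))) ↔ ∃ n, G X.Tri n (red (pw m))) := by
      intro l m h
      induction h with
      | rel _ _ h => exact move_iff X h
      | refl _ => exact Iff.rfl
      | symm _ _ _ ih => exact ih.symm
      | trans _ _ _ _ _ ih1 ih2 => exact ih1.trans ih2
    obtain ⟨n, hn⟩ := (key hh).2 ⟨0, g_nil⟩
    refine ⟨n, ?_⟩
    have h1 : red (pw (x :: (l ++ [x]))) = cw (x :: l) := by
      show red (pw (x :: (l ++ [x]))) = pw (x :: (l ++ [x]))
      unfold red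
      rw [List.filter_eq_self]
      intro d hd
      simpa using X.ne _ _ (pw_edge hc d hd)
    rw [h1] at hn
    exact hn

theorem g_map {V V' : Type*} {T : V → V → V → Prop} {T' : V' → V' → V' → Prop} (f : V → V')
    (hT : ∀ x y z, T x y z → T' (f x) (f y) (f z)) {n : ℕ} {w : List (V × V)} (h : G T n w) : G T' n (w.map (Prod.map f f)) := by
  obtain ⟨j, hj, h1⟩ := h
  refine ⟨j, hj, ?_⟩
  clear hj
  induction h1 with
  | nil => exact Fill.nil
  | @pair a b d u v _ _ ih1 ih2 =>
    have h2 := Fill.pair (d := Prod.map f f d) ih1 ih2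
    rw [List.map_cons, List.map_append, List.map_cons]
    exact h2
  | @tri m a b c l hR _ ih =>
    obtain ⟨h2, h3, h4⟩ := hR
    subst h3
    rw [List.map_cons]
    rw [List.map_cons, List.map_cons] at ih
    refine Fill.tri (a := Prod.map f f a) (b := Prod.map f f b) ⟨?_, rfl, ?_⟩ ih
    · show f a.2 = f b.1
      rw [h2]
    · exact hT _ _ _ h4

private theorem pw_map {V V' : Type*} (f : V → V') : ∀ l : List V, pw (l.map f) = (pw l).map (Prod.map f f)
  | [] => rfl
  | [_] => rfl
  | a :: b :: l => by
    have ih := pw_map f (b :: l)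
    show (f a, f b) :: pw ((b :: l).map f) = (f a, f b) :: (pw (b :: l)).map (Prod.map f f)
    rw [ih]

theorem cw_map {V V' : Type*} (f : V → V') (l : List V) : cw (l.map f) = (cw l).map (Prod.map f f) := by
  cases l with
  | nil => rfl
  | cons x l =>
    show pw (f x :: (l.map f ++ [f x])) = (pw (x :: (l ++ [x]))).map (Prod.map f f)
    rw [← pw_map, List.map_cons, List.map_append]
    rfl

end Pool.Agent.H52.VK
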