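import Pool.Agent.H52.VK.Abs
import Pool.Agent.H52.VK.Scx
import Pool.Agent.H52.VK.Pmap
import Pool.Agent.H52.VK.Pol
import Pool.Agent.H54.TF.Av
import Pool.Agent.H54.TF.Ucx
import Pool.Agent.H54.TF.Usc

/-!
# [H52 VK AVP] Theorem P (75 min)

`avs`: the system of the coset complex `AV M` (H54/TF/Av). `pol_link`: for every `a` adjacent to `x` choose `g_a` with `x = av M t g_a`, `a = av M a.1 g_a` (`AJ`). `polR_map` for `f a = (a.1, g_a)` and `Pol M {t}ᶜ`:
`a.1 ≠ t`; `AJ a b`: `aj_flag` for `x, a, b`: an element `e` of all three; `g_a⁻¹ e`, `g_b⁻¹ e` are in `ap {t}ᶜ` and `ap {a.1}ᶜ` resp. `ap {b.1}ᶜ`: `ap_inter`, `{t}ᶜ ∩ {a.1}ᶜ = {t}ᶜ \ {a.1}`: `Jv`. Conversely `Jv M {t}ᶜ (f a) (f b)` gives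
`AJ a b` (`ap_mono`, `av_eq_iff`; see the proof of `aj_lk`).
`avs_ax`: `refl`, `symm`, `same`: `aj_refl`, `aj_symm`, `aj_same`; `wsymm`: `M.symmetric`; `wpos`: `lab (M s t) > 0` as `M s t ≠ 0`; `whalf`: `lab (M s t) ≥ 2` as `M s t ≠ 0, 1` (`off_diagonal`); `conn`: `ucx_conn` if `P.1 ∉ {p, q, r}` (map the
relation along `Subtype.val`: `Relation.ReflTransGen.lift`); if `P.1 ∈ {p, q, r}`: `x → P → y` (steps `E x P`, `E P y`, or equal; `J P P`). `corner`: `aj_fill` for `p`. `fill`: `ucx_sc`, `fill_of_sc` for the list lifted to the subtype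
(`E x y → U x`; a list with `Cyc E` of length `≥ 1` has all vertices in `U`: or `List.attachWith` / `lift`), `g_map`, `cw_map`; the triangles of `ucx` are triangles `T`.
`pol_step`: `poly_abs` for `avs`, `polR_map` along `f (t, g) = av M t g` (`aj_iff`, `Set.univ \ {t} = {t}ᶜ`).
-/

set_option autoImplicit false

namespace Pool.Agent.H52.VK

open Pool.H8.CDW Pool.Agent.H52.PAG Pool.Agent.H75.INF Pool.Agent.H54.TF Pool.Agent.H54.CX

variable {B : Type} (M : CoxeterMatrix B)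

/-- the system of the coset complex -/
noncomputable def avs (p q r : B) : Sys B (AV M) where
  typ x := x.1
  J := AJ
  w := wt M
  p := p
  q := q
  r := r

variable {M}

private theorem mem_of_av' {x : AV M} {g h : Art M} (h1 : x = av M x.1 g) (h2 : x = av M x.1 h) :
    g⁻¹ * h ∈ ap M ({x.1}ᶜ : Set B) := (av_eq_iff.1 (h1.symm.trans h2)).2

private theorem av_of_mem' {x : AV M} {g h : Art M} (h1 : x = av M x.1 g) (h2 : g⁻¹ * h ∈ ap M ({x.1}ᶜ : Set B)) :
    x = av M x.1 h := h1.trans (av_eq_iff.2 ⟨rfl, h2⟩)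

private theorem ap_two {t b : B} {k : Art M} (h1 : k ∈ ap M ({t}ᶜ : Set B)) (h2 : k ∈ ap M ({b}ᶜ : Set B)) :
    k ∈ ap M (({t}ᶜ : Set B) \ {b}) := by
  rw [Set.sdiff_eq, ← ap_inter]
  exact ⟨h1, h2⟩

theorem pol_link {t : B} (h : Pol M ({t}ᶜ : Set B)) (x : AV M) (hx : x.1 = t) (p q r : B) :
    PolR (avs M p q r).adj AJ (avs M p q r).wv (fun a => (avs M p q r).adj a x) := by
  have h0 : ∀ a : AV M, ∃ g : Art M, AJ a x → a = av M a.1 g ∧ x = av M x.1 g := by
    intro a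
    by_cases ha : AJ a x
    · obtain ⟨g, h1, h2⟩ := ha
      exact ⟨g, fun _ => ⟨h1, h2⟩⟩
    · exact ⟨1, fun h => absurd h ha⟩
  choose g hg using h0
  refine polR_map (f := fun a : AV M => ((a.1, g a) : B × Art M)) ?_ ?_ ?_ ?_ h
  · intro a ha
    show a.1 ∈ ({t}ᶜ : Set B)
    rw [← hx]
    exact ha.1
  · rintro a b ⟨_, ha⟩ ⟨_, hb⟩ ⟨hab, hJ⟩
    refine ⟨hab, ?_⟩
    obtain ⟨e, e1, e2, e3⟩ := aj_flag (aj_symm ha) hJ (aj_symm hb)
    obtain ⟨a1, a2⟩ := hg a ha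
    obtain ⟨b1, b2⟩ := hg b hb
    refine ⟨e, ap_two ?_ (mem_of_av' a1 e2), ap_two ?_ (mem_of_av' b1 e3)⟩
    · rw [← hx]
      exact mem_of_av' a2 e1
    · rw [← hx]
      exact mem_of_av' b2 e1
  · intro a b _ _ _
    rfl
  · rintro a b ⟨_, ha⟩ ⟨_, hb⟩ ⟨e, e1, e2⟩
    obtain ⟨a1, _⟩ := hg a ha
    obtain ⟨b1, _⟩ := hg b hb
    exact ⟨e, av_of_mem' a1 (ap_mono (fun _ h => h.2) e1), av_of_mem' b1 (ap_mono (fun _ h => h.2) e2)⟩

private theorem lab_pos {m : ℕ} (h : m ≠ 0) : 0 < lab m := by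
  unfold lab
  split_ifs <;> omega

private theorem lab_two {m : ℕ} (h : m ≠ 0) (h' : m ≠ 1) : 2 ≤ lab m := by
  unfold lab
  split_ifs <;> omega

private theorem typ_ne {x y : AV M} (h : AJ x y) (hne : x ≠ y) : x.1 ≠ y.1 := fun e => hne (aj_same h e)

private theorem all_U {V : Type} {E : V → V → Prop} {U : V → Prop} (hE : ∀ x y, E x y → U x) (m : List V) (a b : V)
    (h : List.IsChain E (a :: (m ++ [b]))) : ∀ x ∈ a :: m, U x := by
  induction m generalizing a with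
  | nil =>
    have h1 : List.IsChain E (a :: b :: []) := h
    rw [List.isChain_cons_cons] at h1
    intro x hx
    rw [List.mem_singleton] at hx
    rw [hx]
    exact hE _ _ h1.1
  | cons c m ih =>
    have h1 : List.IsChain E (a :: c :: (m ++ [b])) := h
    rw [List.isChain_cons_cons] at h1
    intro x hx
    rcases List.mem_cons.1 hx with hx | hx
    · rw [hx]
      exact hE _ _ h1.1
    · exact ih c h1.2 x hx

private theorem cyc_of_map {V V' : Type} {E : V → V → Prop} {E' : V' → V' → Prop} (f : V' → V)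
    (hE : ∀ x y, E (f x) (f y) → E' x y) (l : List V') (h : Cyc E (l.map f)) : Cyc E' l := by
  cases l with
  | nil => trivial
  | cons a l =>
    have h1 : List.IsChain E ((a :: (l ++ [a])).map f) := by
      have h2 : List.IsChain E (f a :: (l.map f ++ [f a])) := h
      simpa using h2
    rw [List.isChain_map] at h1
    exact h1.imp fun x y hxy => hE x y hxy

theorem avs_ax (hM : ∀ i j, M i j ≠ 0) {p q r : B} (hpq : p ≠ q) (hqr : q ≠ r) (hpr : p ≠ r)
    (hU : wt M p q + wt M q r + wt M p r ≤ 1) (hp : Pol M ({p}ᶜ : Set B)) (hq : Pol M ({q}ᶜ : Set B)) (hr : Pol M ({r}ᶜ : Set B)) :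
    (avs M p q r).Ax where
  refl := aj_refl
  symm := fun _ _ h => aj_symm h
  same := fun _ _ h h' => aj_same h h'
  wsymm s t := by
    show wt M s t = wt M t s
    unfold wt
    rw [M.symmetric]
  wpos s t := by
    show 0 < wt M s t
    unfold wt
    have : (0 : ℝ) < (lab (M s t) : ℝ) := by exact_mod_cast lab_pos (hM s t)
    positivity
  whalf s t hst := by
    show wt M s t ≤ 1 / 2
    unfold wt
    have : (2 : ℝ) ≤ (lab (M s t) : ℝ) := by exact_mod_cast lab_two (hM s t) (M.off_diagonal s t hst)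
    exact one_div_le_one_div_of_le (by norm_num) this
  hpq := hpq
  hqr := hqr
  hpr := hpr
  hU := hU
  link x hx := by
    rcases hx with hx | hx | hx
    · exact pol_link hp x hx p q r
    · exact pol_link hq x hx p q r
    · exact pol_link hr x hx p q r
  conn P x y hx hy hxP hyP := by
    by_cases hP : P.1 ∈ ({p, q, r} : Set B)
    · have hUP : (avs M p q r).U P := hP
      refine Relation.ReflTransGen.trans (b := P) ?_ ?_
      · by_cases e : x = P
        · rw [e]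
        · exact Relation.ReflTransGen.single ⟨⟨hx, hUP, typ_ne hxP e, hxP⟩, aj_refl P⟩
      · by_cases e : P = y
        · rw [e]
        · exact Relation.ReflTransGen.single ⟨⟨hUP, hy, typ_ne (aj_symm hyP) e, aj_symm hyP⟩, hyP⟩
    · have h1 := ucx_conn hpq hqr hpr P hP ⟨x, hx⟩ ⟨y, hy⟩ hxP hyP
      refine Relation.ReflTransGen.lift (Subtype.val : {v : AV M // v.1 ∈ ({p, q, r} : Set B)} → AV M) ?_ _ _ h1
      rintro ⟨a, ha⟩ ⟨b, hb⟩ ⟨⟨hne, hab⟩, hbP⟩
      exact ⟨⟨ha, hb, typ_ne hab fun e => hne (Subtype.ext e), hab⟩, hbP⟩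
  corner P Q hPQ := by
    obtain ⟨v, hv, h1, h2⟩ := aj_fill hPQ p
    exact ⟨v, Or.inl hv, h1, h2⟩
  fill l hl := by
    have hmem : ∀ x ∈ l, x.1 ∈ ({p, q, r} : Set B) := by
      cases l with
      | nil => intro x hx; simp at hx
      | cons a l => exact all_U (U := fun x : AV M => x.1 ∈ ({p, q, r} : Set B)) (fun _ _ h => h.1) l a a hl
    set l' : List {v : AV M // v.1 ∈ ({p, q, r} : Set B)} := l.attachWith _ hmem with hl'
    have hmap : l'.map Subtype.val = l := by rw [hl']; simp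
    have hcyc : Cyc (ucx M ({p, q, r} : Set B)).Edge l' := by
      rw [← hmap] at hl
      refine cyc_of_map Subtype.val ?_ l' hl
      rintro ⟨a, ha⟩ ⟨b, hb⟩ h
      exact ⟨fun e => h.2.2.1 (congrArg (fun v : {v : AV M // v.1 ∈ ({p, q, r} : Set B)} => v.1.1) e), h.2.2.2⟩
    obtain ⟨n, hn⟩ := fill_of_sc (ucx M ({p, q, r} : Set B)) (ucx_sc hpq hqr hpr) l' hcyc
    refine ⟨n, ?_⟩
    have h2 := g_map (T' := (avs M p q r).T) Subtype.val ?_ hn
    · rw [← cw_map, hmap] at h2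
      exact h2
    · rintro ⟨a, ha⟩ ⟨b, hb⟩ ⟨c, hc⟩ ⟨⟨n1, n2, n3⟩, h1, h2, h3⟩
      exact ⟨⟨ha, hb, typ_ne h1 fun e => n1 (Subtype.ext e), h1⟩,
        ⟨hb, hc, typ_ne h2 fun e => n2 (Subtype.ext e), h2⟩,
        ⟨ha, hc, typ_ne h3 fun e => n3 (Subtype.ext e), h3⟩⟩

/-- Theorem P -/
theorem pol_step (hM : ∀ i j, M i j ≠ 0) {p q r : B} (hpq : p ≠ q) (hqr : q ≠ r) (hpr : p ≠ r)
    (hU : wt M p q + wt M q r + wt M p r ≤ 1) (hp : Pol M ({p}ᶜ : Set B)) (hq : Pol M ({q}ᶜ : Set B)) (hr : Pol M ({r}ᶜ : Set B)) :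
    Pol M Set.univ := by
  have h := (avs M p q r).poly_abs (avs_ax hM hpq hqr hpr hU hp hq hr)
  have hiff : ∀ a b : B × Art M, Jv M Set.univ a b ↔ AJ (av M a.1 a.2) (av M b.1 b.2) := by
    intro a b
    rw [aj_iff]
    unfold Jv
    rw [← Set.compl_eq_univ_sdiff, ← Set.compl_eq_univ_sdiff]
  refine polR_map (f := fun a : B × Art M => av M a.1 a.2) ?_ ?_ ?_ ?_ h
  · intro _ _
    trivial
  · rintro a b _ _ ⟨h1, h2⟩
    exact ⟨h1, (hiff a b).1 h2⟩
  · intro a b _ _ _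
    rfl
  · intro a b _ _ h1
    exact (hiff a b).2 h1

end Pool.Agent.H52.VK
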