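import Pool.Agent.H52.VK.Sys

/-!
# [H52 VK BAS] The complex of a system (60 min)

`cx`: `E` is symmetric and irreflexive (types differ), `T` symmetric. `tri_types`: `T x y z`: the types of `x, y, z` are `p, q, r` in some order. `theta_w`: `T x a b`: `wv a b = θ x` (cases on the types, `wsymm`).
`theta_sum`: from `hU`, cases. `gth`: a closed path `c` in the link of `x` is a closed `adj`-chain of vertices `adj` to `x`; `csum wv c = c.length * θ x` (`theta_w`); `link x`: `c.length ≤ 3` or a triple
`a, b, c'` with `J a c'`, which have the same type (the types in the link alternate: `T x a b`, `T x b c'`), so `a = c'` (`same`). `c.length ≤ 3`: `1`: `T x a a` impossible; `2`: first alternative; `3`: three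
vertices in the link of `x`, pairwise adjacent: impossible (types: only two types in the link). `c.length = 0` is excluded.
`csum_append`-type lemmas are in `Defs` style: prove what you need for `ps`.
-/

set_option autoImplicit false

namespace Pool.Agent.H52.VK

namespace Sys

variable {B V : Type*} {A : Sys B V}

private theorem e_symm (hA : A.Ax) {x y : V} (h : A.E x y) : A.E y x :=
  ⟨h.2.1, h.1, fun h1 => h.2.2.1 h1.symm, hA.symm _ _ h.2.2.2⟩

private theorem th_p {x : V} (h : A.typ x = A.p) : A.θ x = A.w A.q A.r := by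
  unfold θ
  rw [if_pos h]

private theorem th_q (hA : A.Ax) {x : V} (h : A.typ x = A.q) : A.θ x = A.w A.p A.r := by
  unfold θ
  rw [if_neg (by rw [h]; exact hA.hpq.symm), if_pos h]

private theorem th_r (hA : A.Ax) {x : V} (h : A.typ x = A.r) : A.θ x = A.w A.p A.q := by
  unfold θ
  rw [if_neg (by rw [h]; exact hA.hpr.symm), if_neg (by rw [h]; exact hA.hqr.symm)]

theorem cx (hA : A.Ax) : Cx A.E A.T := by
  refine ⟨?_, ?_, ?_, ?_, ?_⟩
  · intro x h
    exact h.2.2.1 rfl
  · intro x y h
    exact ⟨h.2.1, h.1, fun h1 => h.2.2.1 h1.symm, hA.symm _ _ h.2.2.2⟩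
  · intro x y z h
    exact h.1
  · intro x y z h
    exact ⟨h.2.1, e_symm hA h.2.2, e_symm hA h.1⟩
  · intro x y z h
    exact ⟨e_symm hA h.1, h.2.2, h.2.1⟩

theorem theta_w (hA : A.Ax) {x a b : V} (h : A.T x a b) : A.wv a b = A.θ x := by
  have hxa : A.typ x ≠ A.typ a := h.1.2.2.1
  have hab : A.typ a ≠ A.typ b := h.2.1.2.2.1
  have hxb : A.typ x ≠ A.typ b := h.2.2.2.2.1
  have hx : A.U x := h.1.1
  have ha : A.U a := h.1.2.1
  have hb : A.U b := h.2.1.2.1
  unfold wv
  rcases hx with hx | hx | hx
  · rw [th_p hx]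
    rcases ha with ha | ha | ha
    · exact absurd (hx.trans ha.symm) hxa
    · rcases hb with hb | hb | hb
      · exact absurd (hx.trans hb.symm) hxb
      · exact absurd (ha.trans hb.symm) hab
      · rw [ha, hb]
    · rcases hb with hb | hb | hb
      · exact absurd (hx.trans hb.symm) hxb
      · rw [ha, hb]
        exact hA.wsymm _ _
      · exact absurd (ha.trans hb.symm) hab
  · rw [th_q hA hx]
    rcases ha with ha | ha | ha
    · rcases hb with hb | hb | hb
      · exact absurd (ha.trans hb.symm) hab
      · exact absurd (hx.trans hb.symm) hxb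
      · rw [ha, hb]
    · exact absurd (hx.trans ha.symm) hxa
    · rcases hb with hb | hb | hb
      · rw [ha, hb]
        exact hA.wsymm _ _
      · exact absurd (hx.trans hb.symm) hxb
      · exact absurd (ha.trans hb.symm) hab
  · rw [th_r hA hx]
    rcases ha with ha | ha | ha
    · rcases hb with hb | hb | hb
      · exact absurd (ha.trans hb.symm) hab
      · rw [ha, hb]
      · exact absurd (hx.trans hb.symm) hxb
    · rcases hb with hb | hb | hb
      · rw [ha, hb]
        exact hA.wsymm _ _
      · exact absurd (ha.trans hb.symm) hab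
      · exact absurd (hx.trans hb.symm) hxb
    · exact absurd (hx.trans ha.symm) hxa

theorem theta_pos (hA : A.Ax) (x : V) : 0 < A.θ x := by
  unfold θ
  split_ifs
  · exact hA.wpos _ _
  · exact hA.wpos _ _
  · exact hA.wpos _ _

theorem theta_half (hA : A.Ax) (x : V) : A.θ x ≤ 1 / 2 := by
  unfold θ
  split_ifs
  · exact hA.whalf _ _ hA.hqr
  · exact hA.whalf _ _ hA.hpr
  · exact hA.whalf _ _ hA.hpq

theorem theta_sum (hA : A.Ax) (x y z : V) (h : A.T x y z) : A.θ x + A.θ y + A.θ z ≤ 1 := by
  have hxy : A.typ x ≠ A.typ y := h.1.2.2.1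
  have hyz : A.typ y ≠ A.typ z := h.2.1.2.2.1
  have hxz : A.typ x ≠ A.typ z := h.2.2.2.2.1
  have hx : A.U x := h.1.1
  have hy : A.U y := h.1.2.1
  have hz : A.U z := h.2.1.2.1
  have hU := hA.hU
  rcases hx with hx | hx | hx
  · rcases hy with hy | hy | hy
    · exact absurd (hx.trans hy.symm) hxy
    · rcases hz with hz | hz | hz
      · exact absurd (hx.trans hz.symm) hxz
      · exact absurd (hy.trans hz.symm) hyz
      · rw [th_p hx, th_q hA hy, th_r hA hz]
        linarith
    · rcases hz with hz | hz | hz
      · exact absurd (hx.trans hz.symm) hxz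
      · rw [th_p hx, th_r hA hy, th_q hA hz]
        linarith
      · exact absurd (hy.trans hz.symm) hyz
  · rcases hy with hy | hy | hy
    · rcases hz with hz | hz | hz
      · exact absurd (hy.trans hz.symm) hyz
      · exact absurd (hx.trans hz.symm) hxz
      · rw [th_q hA hx, th_p hy, th_r hA hz]
        linarith
    · exact absurd (hx.trans hy.symm) hxy
    · rcases hz with hz | hz | hz
      · rw [th_q hA hx, th_r hA hy, th_p hz]
        linarith
      · exact absurd (hx.trans hz.symm) hxz
      · exact absurd (hy.trans hz.symm) hyz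
  · rcases hy with hy | hy | hy
    · rcases hz with hz | hz | hz
      · exact absurd (hy.trans hz.symm) hyz
      · rw [th_r hA hx, th_p hy, th_q hA hz]
        linarith
      · exact absurd (hx.trans hz.symm) hxz
    · rcases hz with hz | hz | hz
      · rw [th_r hA hx, th_q hA hy, th_p hz]
        linarith
      · exact absurd (hy.trans hz.symm) hyz
      · exact absurd (hx.trans hz.symm) hxz
    · exact absurd (hx.trans hy.symm) hxy

/-- two triangles on the same side -/
theorem tri_same (hA : A.Ax) {x a b c : V} (h1 : A.T x a b) (h2 : A.T x b c) : A.typ a = A.typ c := by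
  have hxa : A.typ x ≠ A.typ a := h1.1.2.2.1
  have hxb : A.typ x ≠ A.typ b := h1.2.2.2.2.1
  have hab : A.typ a ≠ A.typ b := h1.2.1.2.2.1
  have hxc : A.typ x ≠ A.typ c := h2.2.2.2.2.1
  have hbc : A.typ b ≠ A.typ c := h2.2.1.2.2.1
  have hx : A.U x := h1.1.1
  have ha : A.U a := h1.1.2.1
  have hb : A.U b := h1.2.1.2.1
  have hc : A.U c := h2.2.1.2.1
  have hpq := hA.hpq
  have hqr := hA.hqr
  have hpr := hA.hpr
  rcases hx with hx | hx | hx <;> rcases ha with ha | ha | ha <;> rcases hb with hb | hb | hb <;>
    rcases hc with hc | hc | hc <;> rw [hx] at hxa hxb hxc <;> rw [ha] at hxa hab <;>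
    rw [hb] at hab hbc hxb <;> rw [hc] at hbc hxc <;> rw [ha, hc] <;> exfalso <;>
    first
    | exact hxa rfl
    | exact hxb rfl
    | exact hab rfl
    | exact hxc rfl
    | exact hbc rfl

private theorem ps_eq (hA : A.Ax) {x : V} : ∀ (l : List V) (a : V), List.IsChain (A.T x) (a :: l) →
    ps A.wv a l = l.length * A.θ x := by
  intro l
  induction l with
  | nil =>
    intro a _
    simp [ps]
  | cons b l ih =>
    intro a h
    rw [List.isChain_cons_cons] at h
    rw [ps, ih b h.2, theta_w hA h.1, List.length_cons]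
    push_cast
    ring

private theorem succ_of {R : V → V → Prop} : ∀ (l : List V) (a b : V), List.IsChain R (a :: (l ++ [b])) →
    ∀ y ∈ a :: l, ∃ z, R y z := by
  intro l
  induction l with
  | nil =>
    intro a b h y hy
    rw [List.mem_singleton] at hy
    rw [List.nil_append, List.isChain_cons_cons] at h
    exact ⟨b, by rw [hy]; exact h.1⟩
  | cons c l ih =>
    intro a b h y hy
    rw [List.cons_append, List.isChain_cons_cons] at h
    rcases List.mem_cons.1 hy with h1 | h1
    · exact ⟨c, by rw [h1]; exact h.1⟩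
    · exact ih c b h.2 y h1

theorem gth (hA : A.Ax) : Gth A.T A.θ := by
  intro x c hne hcyc hlt
  obtain ⟨a0, l0, rfl⟩ : ∃ a0 l0, c = a0 :: l0 := by
    cases c with
    | nil => exact absurd rfl hne
    | cons a l => exact ⟨a, l, rfl⟩
  have hch : List.IsChain (A.T x) (a0 :: (l0 ++ [a0])) := hcyc
  have hmem : ∀ y ∈ a0 :: l0, A.adj y x := by
    intro y hy
    obtain ⟨z, hz⟩ := succ_of l0 a0 a0 hch y hy
    exact (e_symm hA hz.1).2.2
  have hU : A.U x := by
    obtain ⟨z, hz⟩ := succ_of l0 a0 a0 hch a0 List.mem_cons_self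
    exact hz.1.1
  have hcyc' : Cyc A.adj (a0 :: l0) := List.IsChain.imp (fun a b h => h.2.1.2.2) hch
  have hsum : csum A.wv (a0 :: l0) < 2 := by
    show ps A.wv a0 (l0 ++ [a0]) < 2
    rw [ps_eq hA _ _ hch, List.length_append, List.length_singleton]
    rw [List.length_cons] at hlt
    exact hlt
  have hnoT : ∀ y z, ¬ A.T x y y ∧ (A.T x y z → A.typ y ≠ A.typ z) := by
    intro y z
    exact ⟨fun h => h.2.1.2.2.1 rfl, fun h => h.2.1.2.2.1⟩
  rcases hA.link x hU (a0 :: l0) hmem hcyc' hsum with h | ⟨a, b, c', m, hr, hJ⟩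
  · match l0, h, hch with
    | [], _, hch =>
      rw [List.nil_append, List.isChain_cons_cons] at hch
      exact absurd hch.1 (hnoT a0 a0).1
    | [b], _, _ => exact Or.inl rfl
    | [b, d], _, hch =>
      rw [List.cons_append, List.cons_append, List.nil_append, List.isChain_cons_cons,
        List.isChain_cons_cons, List.isChain_cons_cons] at hch
      exact absurd (tri_same hA hch.1 hch.2.1).symm ((hnoT d a0).2 hch.2.2.1)
    | b :: d :: e :: l, h, _ =>
      exfalso
      simp only [List.length_cons] at h
      omega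
  · right
    have h1 : List.IsChain (A.T x) (a :: ((b :: c' :: m) ++ [a])) := Cyc.rot hcyc hr
    rw [List.cons_append, List.cons_append, List.isChain_cons_cons, List.isChain_cons_cons] at h1
    have h2 : a = c' := hA.same _ _ hJ (tri_same hA h1.1 h1.2.1)
    exact ⟨a, b, m, by rw [h2] at hr ⊢; exact hr⟩

end Sys

end Pool.Agent.H52.VK
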