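import Pool.Agent.H52.VK.Bas

/-!
# [H52 VK CNF] Configurations (90 min)

`P` is a `Ctr`. `no_common`: if `J x (P k)` for all `k` and `x = P k₀` for some `k₀`: `nd` (with `k₀`, `k₀ + 2`; use `symm`); otherwise all `P k` are `adj` to `x` (`same`), and the list
`(List.range n).map (fun t => P t)` is a closed `adj`-chain with `csum < 2` (`wt 0`): `link x`: length `n ≥ 4`, a triple at the index `t`: `P t, P (t + 1), P (t + 2)` (indices mod `n`, `per`): `nd`.
`conf_rot`: `Cf` and `ll` of `L ++ [(x, j + n)]` (`Cf` of an append: by induction), `per`. `conf_rot'`: the converse direction `Conf j (L ++ [(x, μ)]) → Conf (μ - n) ((x, j) :: L)`: note `μ = j + n`, and the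
incoming label of `(x, μ)` is `ll j L`; it says: `Conf j (L ++ [(x, j + n)]) → Conf i ((x, j) :: L)` for `i = ll j L - n`.
`exists_conf`: states `(x, i)` with `U x`, `J x (P i)`. Steps: `(x, i) → (x, i + 1)` if `J x (P (i + 1))` (no entry), `(x, i) → (y, i)` if `E x y`, `J y (P i)` (entry `(x, i)`). A sequence of steps from `(x, i)` to `(y, j)` gives a list `L`
(inductive predicate `St`). `κ i ∈ C_(i-1) ∩ C_i` (`corner` for `P (i - 1)`, `P i`), choose `κ (i + n) = κ i` (choose for `0 ≤ i < n` only: `κ 0, .., κ (n - 1)`, and `κ n = κ 0`). `conn` for `P i`: from `(κ i, i)` to `(κ (i + 1), i)`, step up to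
`(κ (i + 1), i + 1)`. All together from `(κ 0, 0)` to `(κ 0, n)`. If the list `L` is empty, then `J (κ 0) (P k)` for `0 ≤ k ≤ n`: `no_common`. Otherwise `L` starts at `κ 0`, it is closed (`Cyc E`: the last step into `κ 0`), and with
`i₀ = ll 0 L - n` it is `Conf i₀ L`: the head `(κ 0, λ₀)`: `J (κ 0) (P k)` for `ll 0 L - n ≤ k ≤ 0` (from the last steps up at `κ 0`, `per`) and for `0 ≤ k ≤ λ₀`. `cD_fst`, `cD_sum` (`∑` over `Ico i j` and `Ico j (ll j L)`), `ll_ge`.
-/

set_option autoImplicit false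

namespace Pool.Agent.H52.VK

namespace Sys

variable {B V : Type*} {A : Sys B V} {n : ℕ} {P : ℤ → V}

private theorem cnf_cyc {V : Type*} {R : V → V → Prop} {n : ℕ} (hn : 1 ≤ n) {f : ℕ → V} (h : f n = f 0) :
    Cyc R ((List.range n).map f) ↔ ∀ i < n, R (f i) (f (i + 1)) := by
  obtain ⟨k, rfl⟩ : ∃ k, n = k + 1 := ⟨n - 1, by omega⟩
  have h1 : (List.range (k + 1)).map f = f 0 :: (List.range k).map (fun j => f (j + 1)) := by
    rw [List.range_succ_eq_map, List.map_cons, List.map_map]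
    rfl
  have h2 : (List.range (k + 1 + 1)).map f = f 0 :: ((List.range k).map (fun j => f (j + 1)) ++ [f 0]) := by
    rw [List.range_succ, List.map_append, h1, List.map_singleton, h, List.cons_append]
  have h3 : Cyc R ((List.range (k + 1)).map f) ↔ List.IsChain R ((List.range (k + 1 + 1)).map f) := by
    rw [h1, h2]
    exact Iff.rfl
  rw [h3, List.isChain_map, List.isChain_range_succ]

private theorem cnf_ps {V : Type*} (w : V → V → ℝ) (k : ℕ) : ∀ f : ℕ → V,
    ps w (f 0) ((List.range k).map (fun j => f (j + 1))) = ∑ i ∈ Finset.range k, w (f i) (f (i + 1)) := by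
  induction k with
  | zero => intro f; rfl
  | succ k ih =>
    intro f
    have h1 : (List.range (k + 1)).map (fun j => f (j + 1)) = f 1 :: (List.range k).map (fun j => f (j + 1 + 1)) := by
      rw [List.range_succ_eq_map, List.map_cons, List.map_map]
      rfl
    rw [h1, Finset.sum_range_succ']
    have h2 := ih (fun j => f (j + 1))
    show w (f 0) (f 1) + ps w (f 1) ((List.range k).map (fun j => f (j + 1 + 1))) = _
    rw [add_comm]
    congr 1

private theorem cnf_csum {V : Type*} (w : V → V → ℝ) {n : ℕ} (hn : 1 ≤ n) {f : ℕ → V} (h : f n = f 0) :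
    csum w ((List.range n).map f) = ∑ i ∈ Finset.range n, w (f i) (f (i + 1)) := by
  obtain ⟨k, rfl⟩ : ∃ k, n = k + 1 := ⟨n - 1, by omega⟩
  have h1 : (List.range (k + 1)).map f = f 0 :: (List.range k).map (fun j => f (j + 1)) := by
    rw [List.range_succ_eq_map, List.map_cons, List.map_map]
    rfl
  have h2 : (List.range (k + 1)).map (fun j => f (j + 1)) = (List.range k).map (fun j => f (j + 1)) ++ [f 0] := by
    rw [List.range_succ, List.map_append, List.map_singleton, h]
  rw [← cnf_ps w (k + 1) f, h2, h1]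
  rfl

private theorem cnf_rot {V : Type*} {n : ℕ} {f : ℕ → V} (h : ∀ i, f (i + n) = f i) (i : ℕ) :
    ((List.range n).map f).rotate i = (List.range n).map (fun j => f (i + j)) := by
  have hp : Function.Periodic f n := h
  refine List.ext_getElem (by simp) ?_
  intro k h1 h2
  rw [List.getElem_rotate, List.getElem_map, List.getElem_map, List.getElem_range, List.getElem_range, List.length_map,
    List.length_range, hp.map_mod_nat, add_comm]

private theorem cnf_three {V : Type*} {n : ℕ} (hn : 4 ≤ n) (g : ℕ → V) :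
    ∃ m, (List.range n).map g = g 0 :: g 1 :: g 2 :: m := by
  obtain ⟨k, rfl⟩ : ∃ k, n = k + 3 := ⟨n - 3, by omega⟩
  refine ⟨(List.range k).map fun j => g (j + 1 + 1 + 1), ?_⟩
  rw [List.range_succ_eq_map, List.range_succ_eq_map, List.range_succ_eq_map]
  simp only [List.map_cons, List.map_map]
  rfl

private theorem cnf_sum (F : ℤ → ℝ) (h : ℤ) (n : ℕ) :
    ∑ k ∈ Finset.Ico h (h + n), F k = ∑ i ∈ Finset.range n, F (h + i) := by
  have h1 : (Finset.range n).image (fun i : ℕ => h + (i : ℤ)) = Finset.Ico h (h + n) := by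
    ext k
    rw [Finset.mem_image, Finset.mem_Ico]
    constructor
    · rintro ⟨i, hi, rfl⟩
      rw [Finset.mem_range] at hi
      omega
    · rintro ⟨h2, h3⟩
      refine ⟨(k - h).toNat, ?_, ?_⟩
      · rw [Finset.mem_range]
        omega
      · omega
  rw [← h1, Finset.sum_image]
  intro i _ j _ hij
  simp only at hij
  omega

theorem no_common (hA : A.Ax) (hP : A.Ctr n P) {x : V} (hx : A.U x) : ¬ ∀ k, A.J x (P k) := by
  intro h
  by_cases ht : ∃ k, A.typ x = A.typ (P k)
  · obtain ⟨k, hk⟩ := ht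
    have h1 : x = P k := hA.same x (P k) (h k) hk
    apply hP.nd k
    rw [← h1]
    exact h (k + 2)
  push Not at ht
  have hadj : ∀ k, A.adj (P k) x := fun k => ⟨(ht k).symm, hA.symm _ _ (h k)⟩
  obtain ⟨f, hf⟩ : ∃ f : ℕ → V, f = fun t : ℕ => P (t : ℤ) := ⟨_, rfl⟩
  have hper : ∀ i, f (i + n) = f i := by
    intro i
    rw [hf]
    simp only
    rw [Nat.cast_add]
    exact hP.per i
  have h0 : f n = f 0 := by
    have := hper 0
    rwa [zero_add] at this
  have hn := hP.hn
  have hsum : csum A.wv ((List.range n).map f) < 2 := by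
    rw [cnf_csum _ (by omega) h0]
    have h1 := hP.wt 0
    have h2 : ∑ i ∈ Finset.range n, A.wv (f i) (f (i + 1)) = ∑ i ∈ Finset.range n, A.W P (0 + i) := by
      refine Finset.sum_congr rfl fun i _ => ?_
      rw [hf, zero_add]
      simp only [Nat.cast_add, Nat.cast_one]
      rfl
    rw [h2]
    first
      | rwa [cnf_sum] at h1
      | simpa using h1
  have h1 := hA.link x hx ((List.range n).map f) (by
      intro a ha
      obtain ⟨i, _, rfl⟩ := List.mem_map.1 ha
      rw [hf]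
      exact hadj _)
    ((cnf_cyc (by omega) h0).2 fun i _ => by
      rw [hf]
      simp only [Nat.cast_add, Nat.cast_one]
      exact hP.adj i) hsum
  rcases h1 with h1 | ⟨a, b, c, m, hr, hJ⟩
  · rw [List.length_map, List.length_range] at h1
    omega
  · obtain ⟨i, hi⟩ := hr
    rw [cnf_rot hper] at hi
    obtain ⟨m', hm'⟩ := cnf_three hn (fun j => f (i + j))
    rw [hm'] at hi
    have e1 : f (i + 0) = a := (List.cons.inj hi).1
    have e2 : f (i + 2) = c := (List.cons.inj (List.cons.inj (List.cons.inj hi).2).2).1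
    rw [← e1, ← e2, hf] at hJ
    simp only [Nat.cast_add, add_zero, Nat.cast_ofNat] at hJ
    exact hP.nd i hJ

theorem per_mul (hP : A.Ctr n P) (k m : ℤ) : P (k + m * n) = P k := by
  have h : Function.Periodic P (n : ℤ) := hP.per
  exact (h.int_mul m) k

/-- `n` consecutive labels are not possible -/
theorem short (hA : A.Ax) (hP : A.Ctr n P) {x : V} (hx : A.U x) {i j : ℤ} (h : ∀ k, i ≤ k → k ≤ j → A.J x (P k)) : j + 2 ≤ i + n := by
  by_contra hc
  have hn := hP.hn
  refine no_common hA hP hx fun k => ?_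
  have h1 : (0 : ℤ) < n := by omega
  have h2 := Int.emod_nonneg (k - i) (ne_of_gt h1)
  have h3 := Int.emod_lt_of_pos (k - i) h1
  have h4 : k = i + (k - i) % n + (k - i) / n * n := by
    have := Int.emod_add_mul_ediv (k - i) n
    linarith
  rw [h4, per_mul hP]
  exact h _ (by omega) (by omega)

theorem cf_append {i : ℤ} {L L' : List (V × ℤ)} : A.Cf P i (L ++ L') ↔ A.Cf P i L ∧ A.Cf P (ll i L) L' := by
  induction L generalizing i with
  | nil =>
    show A.Cf P i L' ↔ True ∧ A.Cf P i L'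
    rw [true_and]
  | cons a L ih =>
    obtain ⟨x, j⟩ := a
    show (i ≤ j ∧ (∀ k, i ≤ k → k ≤ j → A.J x (P k)) ∧ A.Cf P j (L ++ L')) ↔
      (i ≤ j ∧ (∀ k, i ≤ k → k ≤ j → A.J x (P k)) ∧ A.Cf P j L) ∧ A.Cf P (ll j L) L'
    rw [ih, and_assoc, and_assoc]

theorem ll_append {i : ℤ} {L L' : List (V × ℤ)} : ll i (L ++ L') = ll (ll i L) L' := by
  induction L generalizing i with
  | nil => rfl
  | cons a L ih =>
    obtain ⟨x, j⟩ := a
    exact ih

theorem ll_ge {i : ℤ} {L : List (V × ℤ)} (h : A.Cf P i L) : i ≤ ll i L := by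
  induction L generalizing i with
  | nil => exact le_refl i
  | cons a L ih =>
    obtain ⟨x, j⟩ := a
    exact h.1.trans (ih h.2.2)

theorem conf_rot (hP : A.Ctr n P) {i j : ℤ} {x : V} {L : List (V × ℤ)} (h : A.Conf n P i ((x, j) :: L)) :
    A.Conf n P j (L ++ [(x, j + n)]) := by
  obtain ⟨h1, h2, h3, h4⟩ := h
  have h5 : ll j L = i + n := h3
  refine ⟨fun h0 => ?_, ?_, ?_, ?_⟩
  · have := congrArg List.length h0
    rw [List.length_append, List.length_singleton, List.length_nil] at this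
    omega
  · rw [cf_append, h5]
    refine ⟨h2.2.2, ?_, ?_, trivial⟩
    · have := h2.1
      omega
    · intro k hk1 hk2
      have h6 := h2.2.1 (k - n) (by omega) (by omega)
      have h7 := hP.per (k - n)
      rw [sub_add_cancel] at h7
      rwa [h7]
  · rw [ll_append]
    rfl
  · refine Cyc.rot h4 ?_
    rw [List.map_append, List.map_cons]
    exact (List.isRotated_concat _ _).symm

theorem min_rot (hA : A.Ax) (hP : A.Ctr n P) {N : ℕ} {i j : ℤ} {x : V} {L : List (V × ℤ)} (h : A.MinConf n P N i ((x, j) :: L)) :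
    A.MinConf n P N j (L ++ [(x, j + n)]) := by
  obtain ⟨h1, h2, h3⟩ := h
  have h4 : ((x, j) :: L).map Prod.fst ~r (L ++ [(x, j + (n : ℤ))]).map Prod.fst := by
    rw [List.map_append, List.map_cons]
    exact (List.isRotated_concat _ _).symm
  refine ⟨conf_rot hP h1, g_isrot (cx hA) h2 (cw_rot h4), ?_⟩
  intro i' L' N' h5 h6
  obtain ⟨h7, h8⟩ := h3 i' L' N' h5 h6
  refine ⟨h7, fun h9 => ?_⟩
  have h10 := h8 h9
  rw [List.length_append, List.length_singleton]
  exact h10

/-- paths of states -/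
private def Pt (A : Sys B V) (P : ℤ → V) (x : V) (i : ℤ) (y : V) (j : ℤ) : Prop :=
  ∃ L : List (V × ℤ), A.Cf P i L ∧ ll i L ≤ j ∧ (∀ k, ll i L ≤ k → k ≤ j → A.J y (P k)) ∧
    List.IsChain A.E (L.map Prod.fst ++ [y]) ∧ (L.map Prod.fst ++ [y]).head? = some x

private theorem pt_refl {x : V} {i : ℤ} (h : A.J x (P i)) : Pt A P x i x i := by
  refine ⟨[], trivial, le_refl i, ?_, List.isChain_singleton x, rfl⟩
  intro k h1 h2
  have h3 : k = i := le_antisymm h2 h1
  rwa [h3]

private theorem pt_up {x y : V} {i j : ℤ} (h : Pt A P x i y j) (hy : A.J y (P (j + 1))) : Pt A P x i y (j + 1) := by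
  obtain ⟨L, h1, h2, h3, h4, h5⟩ := h
  refine ⟨L, h1, by omega, ?_, h4, h5⟩
  intro k hk1 hk2
  by_cases hk : k = j + 1
  · rwa [hk]
  · exact h3 k hk1 (by omega)

private theorem pt_step {x y z : V} {i j : ℤ} (h : Pt A P x i y j) (he : A.E y z) (hz : A.J z (P j)) : Pt A P x i z j := by
  obtain ⟨L, h1, h2, h3, h4, h5⟩ := h
  have e1 : ll i (L ++ [(y, j)]) = j := by
    rw [ll_append]
    rfl
  refine ⟨L ++ [(y, j)], ?_, ?_, ?_, ?_, ?_⟩
  · rw [cf_append]
    exact ⟨h1, h2, h3, trivial⟩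
  · rw [e1]
  · rw [e1]
    intro k hk1 hk2
    have h6 : k = j := le_antisymm hk2 hk1
    rwa [h6]
  · rw [List.map_append, List.append_assoc]
    show List.IsChain A.E (L.map Prod.fst ++ y :: [z])
    rw [List.isChain_split]
    refine ⟨h4, ?_⟩
    rw [List.isChain_cons_cons]
    exact ⟨he, List.isChain_singleton z⟩
  · rw [List.map_append, List.map_cons, List.map_nil]
    rw [List.head?_append, h5]
    rfl

private theorem pt_conn {x y z : V} {i j : ℤ} (h : Pt A P x i y j)
    (hc : Relation.ReflTransGen (fun a b => A.E a b ∧ A.J b (P j)) y z) : Pt A P x i z j := by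
  induction hc with
  | refl => exact h
  | tail _ hs ih => exact pt_step ih hs.1 hs.2

theorem exists_conf (hA : A.Ax) (hP : A.Ctr n P) : ∃ i L, A.Conf n P i L := by
  have hn := hP.hn
  have hcor : ∀ k, ∃ z, A.U z ∧ A.J z (P k) ∧ A.J z (P (k + 1)) := fun k => hA.corner _ _ (hP.adj k).2
  obtain ⟨z, hz, hz1, hz2⟩ := hcor (-1)
  rw [neg_add_cancel] at hz2
  have hzn : A.J z (P ((n - 1 : ℕ) : ℤ)) := by
    have h1 := hP.per (-1)
    have h2 : (-1 : ℤ) + n = ((n - 1 : ℕ) : ℤ) := by omega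
    rw [h2] at h1
    rwa [h1]
  have hmain : ∀ m : ℕ, ∃ y, A.U y ∧ A.J y (P m) ∧ Pt A P z 0 y m := by
    intro m
    induction m with
    | zero => exact ⟨z, hz, hz2, pt_refl hz2⟩
    | succ m ih =>
      obtain ⟨y, hy1, hy2, hy3⟩ := ih
      obtain ⟨u, hu1, hu2, hu3⟩ := hcor m
      have h1 : ((m + 1 : ℕ) : ℤ) = (m : ℤ) + 1 := by push_cast; rfl
      rw [h1]
      exact ⟨u, hu1, hu3, pt_up (pt_conn hy3 (hA.conn _ _ _ hy1 hu1 hy2 hu2)) hu3⟩
  obtain ⟨y, hy1, hy2, hy3⟩ := hmain (n - 1)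
  have h1 : Pt A P z 0 z ((n - 1 : ℕ) : ℤ) := pt_conn hy3 (hA.conn _ _ _ hy1 hz hy2 hzn)
  have h2 : ((n - 1 : ℕ) : ℤ) + 1 = n := by omega
  have h3 : Pt A P z 0 z (n : ℤ) := by
    rw [← h2]
    refine pt_up h1 ?_
    rw [h2]
    have h4 := hP.per 0
    rw [zero_add] at h4
    rwa [h4]
  obtain ⟨L, hL1, hL2, hL3, hL4, hL5⟩ := h3
  cases L with
  | nil =>
    exfalso
    have h4 := short hA hP hz (i := 0) (j := n) hL3
    omega
  | cons a L =>
    obtain ⟨x, j⟩ := a
    have hx : x = z := by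
      simpa using hL5
    subst hx
    obtain ⟨hc1, hc2, hc3⟩ := hL1
    have h5 : ll 0 ((x, j) :: L) = ll j L := rfl
    have h6 := ll_ge hc3
    rw [h5] at hL2 hL3
    refine ⟨ll j L - n, (x, j) :: L, List.cons_ne_nil _ _, ⟨by omega, ?_, hc3⟩, ?_, hL4⟩
    · intro k hk1 hk2
      by_cases hk : 0 ≤ k
      · exact hc2 k hk hk2
      · rw [← hP.per k]
        exact hL3 (k + n) (by omega) (by omega)
    · show ll j L = _
      rw [sub_add_cancel]

theorem exists_min (hA : A.Ax) (hP : A.Ctr n P) : ∃ N i L, A.MinConf n P N i L := by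
  classical
  obtain ⟨i, L, h1⟩ := exists_conf hA hP
  obtain ⟨N, h2⟩ := hA.fill (L.map Prod.fst) h1.2.2.2
  have hex : ∃ N, ∃ i L, A.Conf n P i L ∧ G A.T N (cw (L.map Prod.fst)) := ⟨N, i, L, h1, h2⟩
  have hN := Nat.find_spec hex
  have hNmin := fun m hm => Nat.find_min' hex (m := m) hm
  generalize Nat.find hex = N₀ at hN hNmin
  obtain ⟨i₁, L₁, h3, h4⟩ := hN
  have hex2 : ∃ l, ∃ i L, A.Conf n P i L ∧ G A.T N₀ (cw (L.map Prod.fst)) ∧ L.length = l := ⟨_, i₁, L₁, h3, h4, rfl⟩
  have hl := Nat.find_spec hex2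
  have hlmin := fun m hm => Nat.find_min' hex2 (m := m) hm
  generalize Nat.find hex2 = l₀ at hl hlmin
  obtain ⟨i₂, L₂, h5, h6, h7⟩ := hl
  refine ⟨N₀, i₂, L₂, h5, h6, ?_⟩
  intro i' L' N' h8 h9
  refine ⟨hNmin N' ⟨i', L', h8, h9⟩, ?_⟩
  rintro rfl
  rw [h7]
  exact hlmin _ ⟨i', L', h8, h9, rfl⟩

theorem cD_fst (i : ℤ) (L : List (V × ℤ)) : (A.cD P i L).map Prod.fst = L.map Prod.fst := by
  induction L generalizing i with
  | nil => rfl
  | cons a L ih =>
    obtain ⟨x, j⟩ := a
    show x :: (A.cD P j L).map Prod.fst = x :: L.map Prod.fst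
    rw [ih]

theorem cD_sum {i : ℤ} {L : List (V × ℤ)} (h : A.Cf P i L) : ((A.cD P i L).map Prod.snd).sum = ∑ k ∈ Finset.Ico i (ll i L), A.W P k := by
  induction L generalizing i with
  | nil =>
    show (0 : ℝ) = ∑ k ∈ Finset.Ico i i, A.W P k
    rw [Finset.Ico_self, Finset.sum_empty]
  | cons a L ih =>
    obtain ⟨x, j⟩ := a
    have h1 := ih h.2.2
    have h2 := ll_ge h.2.2
    show ∑ k ∈ Finset.Ico i j, A.W P k + ((A.cD P j L).map Prod.snd).sum = ∑ k ∈ Finset.Ico i (ll j L), A.W P k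
    rw [h1, ← Finset.Ico_union_Ico_eq_Ico h.1 h2, Finset.sum_union (Finset.Ico_disjoint_Ico_consecutive i j (ll j L))]

end Sys

end Pool.Agent.H52.VK
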