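import Pool.Agent.H52.VK.Sys

/-!
# [H52 VK] `Ctr.wt` and `Ctr.chord` for integers

The fields `wt` and `chord` of `Sys.Ctr` speak of natural numbers; here are the forms for integers (periodicity).
-/

set_option autoImplicit false

namespace Pool.Agent.H52.VK

namespace Sys

variable {B V : Type*} {A : Sys B V}

private theorem perm {n : ℕ} {P : ℤ → V} (h : ∀ k, P (k + n) = P k) (m : ℕ) (k : ℤ) :
    P (k + m * n) = P k := by
  induction m with
  | zero => simp
  | succ m ih =>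
    have e : k + ((m + 1 : ℕ) : ℤ) * n = k + m * n + n := by push_cast; ring
    rw [e, h, ih]

private theorem icoN (g : ℤ → ℝ) (i : ℤ) (k : ℕ) :
    ∑ x ∈ Finset.Ico i (i + k), g x = ∑ t ∈ Finset.range k, g (i + t) := by
  have e : Finset.Ico i (i + k) = (Finset.range k).image (fun t : ℕ => i + (t : ℤ)) := by
    ext x
    simp only [Finset.mem_Ico, Finset.mem_image, Finset.mem_range]
    constructor
    · rintro ⟨h1, h2⟩
      exact ⟨(x - i).toNat, by omega, by omega⟩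
    · rintro ⟨t, h1, rfl⟩
      omega
  rw [e, Finset.sum_image]
  intro a _ b _ h
  simp only [add_right_inj, Nat.cast_inj] at h
  exact h

/-- shift to nonnegative numbers -/
private theorem shiftN {n : ℕ} (hn : 4 ≤ n) (i : ℤ) : ∃ (m a : ℕ), i + m * n = a := by
  refine ⟨i.natAbs, (i + i.natAbs * n).toNat, ?_⟩
  have h1 : -(i.natAbs : ℤ) ≤ i := by omega
  have h2 : (i.natAbs : ℤ) ≤ (i.natAbs : ℤ) * n := by
    have h3 : (i.natAbs : ℤ) * 1 ≤ (i.natAbs : ℤ) * n :=
      mul_le_mul_of_nonneg_left (by omega) (by omega)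
    omega
  rw [Int.toNat_of_nonneg (by omega)]

theorem Ctr.perz {n : ℕ} {P : ℤ → V} (h : A.Ctr n P) (m : ℕ) (k : ℤ) : P (k + m * n) = P k :=
  perm h.per m k

theorem Ctr.wtz {n : ℕ} {P : ℤ → V} (h : A.Ctr n P) (i : ℤ) :
    ∑ k ∈ Finset.Ico i (i + (n : ℤ)), A.W P k < 2 := by
  obtain ⟨m, a, ha⟩ := shiftN h.hn i
  have h1 := h.wt a
  rw [Finset.sum_Ico_eq_sum_range, Nat.add_sub_cancel_left] at h1
  rw [icoN]
  refine lt_of_eq_of_lt (Finset.sum_congr rfl fun t _ => ?_) h1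
  have e : ((a + t : ℕ) : ℤ) = i + t + m * n := by rw [Nat.cast_add, ← ha]; ring
  unfold Sys.W
  have e2 : i + (t : ℤ) + m * n + 1 = i + t + 1 + m * n := by ring
  rw [e, e2, perm h.per, perm h.per]

theorem Ctr.chordz {n : ℕ} {P : ℤ → V} (h : A.Ctr n P) (i j : ℤ) (h1 : i + 2 ≤ j)
    (h2 : j + 2 ≤ i + n) : ¬ A.J (P i) (P j) := by
  obtain ⟨m, a, ha⟩ := shiftN h.hn i
  obtain ⟨b, hb⟩ : ∃ b : ℕ, j + m * n = b := ⟨(j + m * n).toNat, by
    rw [Int.toNat_of_nonneg]
    omega⟩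
  intro hJ
  refine h.chord a b (by omega) (by omega) ?_
  rw [← ha, ← hb, perm h.per, perm h.per]
  exact hJ

end Sys

end Pool.Agent.H52.VK
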