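import Mathlib

/-!
# [H52 VK] Definitions

Closed chains are lists, up to rotation. `Cyc R l`: consecutive elements of `l` are related by `R`, and the last one to the first one. `csum w l`: the sum of `w` over
the pairs of consecutive elements (and last, first). `PolR R J w Q`: every closed `R`-chain `l` of elements with `Q` and with `csum w l < 2` has at most three elements, or three
consecutive elements `a`, `b`, `c` (cyclically) with `J a c`. (POLY; think note 1291, section 0.)
-/

set_option autoImplicit false

namespace Pool.Agent.H52.VK

variable {V : Type*}

/-- closed chains -/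
def Cyc (R : V → V → Prop) : List V → Prop
  | [] => True
  | a :: l => List.IsChain R (a :: (l ++ [a]))

/-- the sum over the pairs of consecutive elements of `a :: l` -/
def ps (w : V → V → ℝ) : V → List V → ℝ
  | _, [] => 0
  | a, b :: l => w a b + ps w b l

/-- the sum over the pairs of consecutive elements of a closed chain -/
def csum (w : V → V → ℝ) : List V → ℝ
  | [] => 0
  | a :: l => ps w a (l ++ [a])

/-- short closed chains are degenerate -/
def PolR (R J : V → V → Prop) (w : V → V → ℝ) (Q : V → Prop) : Prop :=
  ∀ l : List V, (∀ x ∈ l, Q x) → Cyc R l → csum w l < 2 → l.length ≤ 3 ∨ ∃ a b c m, l ~r (a :: b :: c :: m) ∧ J a c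

end Pool.Agent.H52.VK
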