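import Pool.Agent.H52.VK.Defs

/-!
# [H52 VK FILL] Filled words (60 min)

`D` is a set of letters with an involution `inv`; `R a b c` means `a b = c` (a triangle). `Fill n l`: the word `l` can be filled with `n` triangles (van Kampen diagrams without discs).
Symmetries: `hi : inv (inv d) = d`, `h1 : R a b c → R b (inv c) (inv a)`, `h2 : R a b c → R (inv b) (inv a) (inv c)`.

Proofs. `append`: induction on the first. `insert`: induction on `Fill n l` for all `u`, `v` with `l = u ++ v`: `u = []`: `append`; `u = e :: u'`: pair: the letter `inv e` is in `u'` or in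
`v`: induction for the part which contains the cut; tri: clear. `ROT n`: `Fill n (c :: l) → Fill n (l ++ [c])`. `TRI n`: `Fill n (u ++ a :: b :: v) → R a b c → Fill (n + 1) (u ++ c :: v)`.
(1) If `ROT k` for all `k ≤ n` then `TRI n`: induction on `(n, u.length)`. `u = []`: constructor. `u = e :: u'`: invert `Fill`. tri `R x y e`: the word `x :: y :: u' ++ a :: b :: v` has
area `n - 1`: induction. pair, `inv e` in `u'` or in `v`: induction (the part with `a b` has a shorter `u`). pair, `inv e = a`, `Fill α u'`, `Fill β (b :: v)`: `R b (inv c) e` (`h1`), so it suffices to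
fill `b :: inv c :: u' ++ c :: v` with area `n`: `insert` the word `inv c :: u' ++ [c]` (a pair, `c = inv (inv c)`) after `b`. pair, `inv e = b`: the first part is `u' ++ [a]`, the second `v`:
by `ROT` (`u'.length` times) `Fill α (a :: u')`, `R (inv c) a e` (`h1` twice), so it suffices to fill `inv c :: a :: u' ++ c :: v`: a pair.
(2) `ROT n` by strong induction: pair `c :: u ++ inv c :: v`: `u ++ (inv c :: v ++ [c])`: `append` and a pair. tri `R a b c`, `Fill m (a :: b :: l)`, `n = m + 1`: `ROT m` twice:
`Fill m (l ++ [a, b])`, `TRI m`.
`rev`: induction; pair: `v⁻¹ ++ (d :: u⁻¹ ++ [inv d])`: `append`, pair; tri: `TRI` for `R (inv b) (inv a) (inv c)`.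
-/

set_option autoImplicit false

namespace Pool.Agent.H52.VK

variable {D : Type*}

/-- filled words -/
inductive Fill (inv : D → D) (R : D → D → D → Prop) : ℕ → List D → Prop
  | nil : Fill inv R 0 []
  | pair {a b : ℕ} {d : D} {u v : List D} : Fill inv R a u → Fill inv R b v → Fill inv R (a + b) (d :: (u ++ inv d :: v))
  | tri {n : ℕ} {a b c : D} {l : List D} : R a b c → Fill inv R n (a :: b :: l) → Fill inv R (n + 1) (c :: l)

/-- the symmetries -/
structure Sym (inv : D → D) (R : D → D → D → Prop) : Prop where
  hi : ∀ d, inv (inv d) = d
  h1 : ∀ a b c, R a b c → R b (inv c) (inv a)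
  h2 : ∀ a b c, R a b c → R (inv b) (inv a) (inv c)

variable {inv : D → D} {R : D → D → D → Prop}

theorem Fill.append {a b : ℕ} {u v : List D} (hu : Fill inv R a u) (hv : Fill inv R b v) : Fill inv R (a + b) (u ++ v) := by
  induction hu with
  | nil => rw [Nat.zero_add]; exact hv
  | @pair a₁ b₁ d u₁ v₁ h₁ h₂ _ ih₂ =>
    have h := Fill.pair (d := d) h₁ ih₂
    rw [← Nat.add_assoc] at h
    simpa using h
  | @tri n x y c l hR _ ih =>
    have h := Fill.tri hR (l := l ++ v) (n := n + b) (by simpa using ih)
    have e : n + 1 + b = n + b + 1 := by omega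
    rw [e]
    simpa using h

theorem Fill.insert {n k : ℕ} {u v x : List D} (h : Fill inv R n (u ++ v)) (hx : Fill inv R k x) :
    Fill inv R (n + k) (u ++ (x ++ v)) := by
  generalize hl : u ++ v = l at h
  induction h generalizing u v with
  | nil =>
    obtain ⟨rfl, rfl⟩ := List.append_eq_nil_iff.1 hl
    simpa using hx
  | @pair a b d u₁ v₁ h₁ h₂ ih₁ ih₂ =>
    cases u with
    | nil =>
      rw [List.nil_append] at hl
      subst hl
      have h := hx.append (Fill.pair (d := d) h₁ h₂)
      rw [Nat.add_comm]
      simpa using h
    | cons e u' =>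
      rw [List.cons_append, List.cons.injEq] at hl
      obtain ⟨rfl, hl⟩ := hl
      rcases List.append_eq_append_iff.1 hl with ⟨as, hu, hv⟩ | ⟨bs, hu, hv⟩
      · -- `u₁ = u' ++ as`, `v = as ++ inv e :: v₁`
        subst hu hv
        have h := Fill.pair (d := e) (ih₁ rfl) h₂
        have e1 : a + k + b = a + b + k := by omega
        rw [e1] at h
        simpa using h
      · -- `u' = u₁ ++ bs`, `inv e :: v₁ = bs ++ v`
        subst hu
        cases bs with
        | nil =>
          rw [List.nil_append] at hv
          subst hv
          have h := Fill.pair (d := e) (h₁.append hx) h₂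
          have e1 : a + k + b = a + b + k := by omega
          rw [e1] at h
          simpa using h
        | cons y bs =>
          rw [List.cons_append, List.cons.injEq] at hv
          obtain ⟨rfl, rfl⟩ := hv
          have h := Fill.pair (d := e) h₁ (ih₂ rfl)
          rw [← Nat.add_assoc] at h
          simpa using h
  | @tri n a b c l hR h₁ ih =>
    cases u with
    | nil =>
      rw [List.nil_append] at hl
      subst hl
      have h := hx.append (Fill.tri hR h₁)
      rw [Nat.add_comm]
      simpa using h
    | cons e u' =>
      rw [List.cons_append, List.cons.injEq] at hl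
      obtain ⟨rfl, rfl⟩ := hl
      have h := Fill.tri hR (l := u' ++ (x ++ v)) (n := n + k)
        (by simpa using ih (u := a :: b :: u') (v := v) rfl)
      have e1 : n + 1 + k = n + k + 1 := by omega
      rw [e1]
      simpa using h

/-- rotation by one letter -/
private def ROT (inv : D → D) (R : D → D → D → Prop) (n : ℕ) : Prop :=
  ∀ (c : D) (l : List D), Fill inv R n (c :: l) → Fill inv R n (l ++ [c])

private theorem rot_all {n : ℕ} (hr : ROT inv R n) :
    ∀ (u v : List D), Fill inv R n (u ++ v) → Fill inv R n (v ++ u) := by
  intro u
  induction u with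
  | nil => intro v h; simpa using h
  | cons c u ih =>
    intro v h
    have h1 := hr c (u ++ v) (by simpa using h)
    rw [List.append_assoc] at h1
    have h2 := ih _ h1
    simpa using h2

private theorem tri_a (hS : Sym inv R) {α β : ℕ} {a b c e : D} {u v : List D} (hR : R a b c)
    (he : inv e = a) (h1 : Fill inv R α u) (h2 : Fill inv R β (b :: v)) :
    Fill inv R (α + β + 1) (e :: (u ++ c :: v)) := by
  have hR' : R b (inv c) e := by
    have h3 := hS.h1 a b c hR
    rw [← he, hS.hi] at h3
    exact h3
  refine Fill.tri hR' ?_
  have h3 : Fill inv R α (inv c :: (u ++ [c])) := by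
    have h4 := Fill.pair (d := inv c) h1 Fill.nil
    rw [hS.hi] at h4
    exact h4
  have h5 := Fill.insert (u := [b]) (v := v) h2 h3
  rw [Nat.add_comm] at h5
  simpa using h5

private theorem tri_b (hS : Sym inv R) {α β : ℕ} {a b c e : D} {u v : List D} (hR : R a b c)
    (he : inv e = b) (h1 : Fill inv R α (a :: u)) (h2 : Fill inv R β v) :
    Fill inv R (α + β + 1) (e :: (u ++ c :: v)) := by
  have hR' : R (inv c) a e := by
    have h3 := hS.h1 _ _ _ (hS.h1 a b c hR)
    rw [← he, hS.hi, hS.hi] at h3
    exact h3
  refine Fill.tri hR' ?_
  have h4 := Fill.pair (d := inv c) h1 h2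
  rw [hS.hi] at h4
  simpa using h4

private theorem tri_of_rot (hS : Sym inv R) : ∀ (N n : ℕ) (u : List D), 2 * n + u.length ≤ N →
    (∀ k ≤ n, ROT inv R k) → ∀ (a b c : D) (v : List D), Fill inv R n (u ++ a :: b :: v) →
      R a b c → Fill inv R (n + 1) (u ++ c :: v) := by
  intro N
  induction N with
  | zero =>
    intro n u hN hr a b c v h hR
    have hu : u = [] := List.length_eq_zero_iff.1 (by omega)
    subst hu
    exact Fill.tri hR h
  | succ N ih =>
    intro n u hN hr a b c v h hR
    cases u with
    | nil => exact Fill.tri hR h
    | cons e u' =>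
      rw [List.length_cons] at hN
      generalize hw : (e :: u') ++ a :: b :: v = w at h
      cases h with
      | nil => simp at hw
      | @pair α β d u₁ v₁ h₁ h₂ =>
        rw [List.cons_append, List.cons.injEq] at hw
        obtain ⟨rfl, hw⟩ := hw
        rcases List.append_eq_append_iff.1 hw with ⟨as, hu, hv⟩ | ⟨bs, hu, hv⟩
        · -- `u₁ = u' ++ as`, `a :: b :: v = as ++ inv e :: v₁`
          cases as with
          | nil =>
            rw [List.append_nil] at hu
            rw [List.nil_append, List.cons.injEq] at hv
            obtain ⟨h3, h4⟩ := hv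
            subst hu h4
            exact tri_a hS hR h3.symm h₁ h₂
          | cons y as =>
            rw [List.cons_append, List.cons.injEq] at hv
            obtain ⟨h3, hv⟩ := hv
            subst h3
            cases as with
            | nil =>
              rw [List.nil_append, List.cons.injEq] at hv
              obtain ⟨h4, h5⟩ := hv
              subst h5
              refine tri_b hS hR h4.symm ?_ h₂
              have h6 := rot_all (hr α (by omega)) u' [a] (by rw [← hu]; exact h₁)
              simpa using h6
            | cons y' as =>
              rw [List.cons_append, List.cons.injEq] at hv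
              obtain ⟨h4, h5⟩ := hv
              subst h4 h5
              have h6 := ih α u' (by omega) (fun k hk => hr k (by omega)) a b c as
                (by rw [← hu]; exact h₁) hR
              have h7 := Fill.pair (d := e) h6 h₂
              have e1 : α + 1 + β = α + β + 1 := by omega
              rw [e1] at h7
              simpa using h7
        · -- `u' = u₁ ++ bs`, `inv e :: v₁ = bs ++ a :: b :: v`
          subst hu
          cases bs with
          | nil =>
            rw [List.nil_append, List.cons.injEq] at hv
            obtain ⟨h3, h4⟩ := hv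
            subst h4
            have h5 := tri_a hS hR h3 h₁ h₂
            simpa using h5
          | cons y bs =>
            rw [List.cons_append, List.cons.injEq] at hv
            obtain ⟨h3, h4⟩ := hv
            subst h3 h4
            have h6 := ih β bs (by
              rw [List.length_append, List.length_cons] at hN
              omega) (fun k hk => hr k (by omega)) a b c v h₂ hR
            have h7 := Fill.pair (d := e) h₁ h6
            rw [← Nat.add_assoc] at h7
            simpa using h7
      | @tri m x y z l hR' h₁ =>
        rw [List.cons_append, List.cons.injEq] at hw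
        obtain ⟨rfl, rfl⟩ := hw
        have h6 := ih m (x :: y :: u') (by
          rw [List.length_cons, List.length_cons]
          omega) (fun k hk => hr k (by omega)) a b c v (by simpa using h₁) hR
        have h7 := Fill.tri hR' (l := u' ++ c :: v) (n := m + 1) (by simpa using h6)
        simpa using h7

private theorem rot_one (hS : Sym inv R) : ∀ n : ℕ, ROT inv R n := by
  intro n
  induction n using Nat.strong_induction_on with
  | _ n ih =>
    intro c l h
    generalize hw : c :: l = w at h
    cases h with
    | nil => simp at hw
    | @pair α β d u v h₁ h₂ =>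
      rw [List.cons.injEq] at hw
      obtain ⟨rfl, rfl⟩ := hw
      have h3 := Fill.pair (d := inv c) h₂ Fill.nil
      rw [hS.hi] at h3
      have h4 := h₁.append h3
      simpa using h4
    | @tri m a b z l' hR h₁ =>
      rw [List.cons.injEq] at hw
      obtain ⟨rfl, rfl⟩ := hw
      have h3 := rot_all (ih m (Nat.lt_succ_self m)) [a, b] l (by simpa using h₁)
      exact tri_of_rot hS _ m l le_rfl (fun k hk => ih k (by omega)) a b c [] h3 hR

theorem Fill.rot (hS : Sym inv R) {n : ℕ} {u v : List D} (h : Fill inv R n (u ++ v)) : Fill inv R n (v ++ u) :=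
  rot_all (rot_one hS n) u v h

theorem Fill.tri_any (hS : Sym inv R) {n : ℕ} {a b c : D} {u v : List D} (h : Fill inv R n (u ++ a :: b :: v)) (hR : R a b c) :
    Fill inv R (n + 1) (u ++ c :: v) :=
  tri_of_rot hS _ n u le_rfl (fun k _ => rot_one hS k) a b c v h hR

theorem Fill.rev (hS : Sym inv R) {n : ℕ} {l : List D} (h : Fill inv R n l) : Fill inv R n (l.map inv).reverse := by
  induction h with
  | nil => exact Fill.nil
  | @pair a b d u v _ _ ih₁ ih₂ =>
    have h3 := ih₂.append (Fill.pair (d := d) ih₁ Fill.nil)
    have e1 : b + (a + 0) = a + b := by omega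
    rw [e1] at h3
    simpa [hS.hi] using h3
  | @tri n a b c l hR _ ih =>
    have h3 := Fill.tri_any hS (u := (l.map inv).reverse) (a := inv b) (b := inv a) (v := [])
      (by simpa using ih) (hS.h2 a b c hR)
    simpa using h3

end Pool.Agent.H52.VK
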