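import Pool.Agent.H52.VK.Walk

/-!
# [H52 VK GB0] Gauss-Bonnet: definitions, rotations (60 min)

A closed walk `x :: v` (`v ≠ []`) with area `n` (`Ar`: minimal). The vertex `x` has the predecessor `v.getLast` and the successor `v.head`. A SECTOR of length `l` at `x`: a path `p` in the link of `x`
from the predecessor to the successor with `l` triangles, such that pushing the walk over it (`pw v ++ pw p`) costs `n - l`. `L : List (V × ℕ)` is `Good`: the second component at each position is the
length of a sector. `GB1`: sectors with sum of `1 - l θ` at least `2`. `GB2`: a cut at a repeated vertex.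

`good_rot`: it suffices to rotate by one: `L = e₀ :: L₁`, `L' = L₁ ++ [e₀]`; a decomposition `L' = P ++ e :: Q`: `Q = []` (then `e = e₀`, `P = L₁`) or `Q = Q' ++ [e₀]`, `L₁ = P ++ e :: Q'`: use
`L = (e₀ :: P) ++ e :: Q'` and `Q' ++ (e₀ :: P) = (Q' ++ [e₀]) ++ P`. Then `List.IsRotated` by `rotate k`, induction on `k`. `gb1_rot`: rotate `L` by the same number. `gb_two`: `L = [(x, 0), (y, 0)]`, the
path `[y]` resp. `[x]`. `gb_spur`: `l ≠ []` (otherwise `E x x`); the cut at `x`: `[x, y]` (a pair) and `x :: l` (`g_del`; `cw (x :: y :: x :: l) = (x, y) :: (y, x) :: cw (x :: l)`).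
`ar_tri`: `g_tri` and `g_tri'` for the three darts. `g_rev`: `Fill.rev`. `unfold_`: `replace`: a path `p` from `a` to `b` in the link of `x`, of length `l`, closed up by the triangle
`T x b a`, with a fold (or of length `2`): replace the word `pw p` by the dart `(a, b)`: `cone_fold` for the closed link path `p` (`cw p = pw p ++ [(b, a)]`), `g_rev`, `g_swap`.
-/

set_option autoImplicit false

namespace Pool.Agent.H52.VK

variable {V : Type*} {E : V → V → Prop} {T : V → V → V → Prop} {θ : V → ℝ}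

/-- sectors of length `l` at the vertex `x` of the closed walk `x :: v` of area `n` -/
def Sec (T : V → V → V → Prop) (n : ℕ) (x : V) (l : ℕ) (v : List V) : Prop :=
  ∃ p : List V, List.IsChain (T x) p ∧ p.length = l + 1 ∧ p.head? = v.getLast? ∧ p.getLast? = v.head? ∧ l ≤ n ∧
    G T (n - l) (pw v ++ pw p)

/-- the second components are the lengths of sectors -/
def Good (T : V → V → V → Prop) (n : ℕ) (L : List (V × ℕ)) : Prop :=
  ∀ P e Q, L = P ++ e :: Q → Sec T n e.1 e.2 ((Q ++ P).map Prod.fst)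

def GB1 (T : V → V → V → Prop) (θ : V → ℝ) (n : ℕ) (l : List V) : Prop :=
  ∃ L : List (V × ℕ), L.map Prod.fst = l ∧ Good T n L ∧ 2 ≤ (L.map fun e => 1 - (e.2 : ℝ) * θ e.1).sum

def GB2 (T : V → V → V → Prop) (n : ℕ) (l : List V) : Prop :=
  ∃ x u v a b, l ~r (x :: u ++ x :: v) ∧ u ≠ [] ∧ v ≠ [] ∧ a + b ≤ n ∧ G T a (cw (x :: u)) ∧ G T b (cw (x :: v))

/-- the area is `n` -/
def Ar (T : V → V → V → Prop) (n : ℕ) (l : List V) : Prop := G T n (cw l) ∧ ∀ m < n, ¬ G T m (cw l)

/-- closed paths in links with small angle have a fold -/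
def Gth (T : V → V → V → Prop) (θ : V → ℝ) : Prop :=
  ∀ x c, c ≠ [] → Cyc (T x) c → (c.length : ℝ) * θ x < 2 → c.length = 2 ∨ ∃ a b m, c ~r (a :: b :: a :: m)

theorem g_rev (hX : Cx E T) {n : ℕ} {w : List (V × V)} (h : G T n w) : G T n ((w.map Prod.swap).reverse) := by
  obtain ⟨j, hj, h1⟩ := h
  exact ⟨j, hj, Fill.rev hX.sym h1⟩

private theorem good_rot_one {n : ℕ} {e₀ : V × ℕ} {L : List (V × ℕ)} (h : Good T n (e₀ :: L)) :
    Good T n (L ++ [e₀]) := by
  intro P e Q hP
  rcases List.eq_nil_or_concat Q with rfl | ⟨Q', e', rfl⟩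
  · have h1 : L = P ∧ [e₀] = [e] := List.append_inj' hP (by simp)
    obtain ⟨rfl, h2⟩ := h1
    rw [List.cons.injEq] at h2
    obtain ⟨rfl, -⟩ := h2
    have h3 := h [] e₀ L rfl
    simpa using h3
  · rw [List.concat_eq_append] at hP ⊢
    have hP' : L ++ [e₀] = (P ++ e :: Q') ++ [e'] := by
      rw [hP]
      simp
    have h1 : L = P ++ e :: Q' ∧ [e₀] = [e'] := List.append_inj' hP' (by simp)
    obtain ⟨rfl, h2⟩ := h1
    rw [List.cons.injEq] at h2
    obtain ⟨rfl, -⟩ := h2
    have h3 := h (e₀ :: P) e Q' (by simp)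
    have h4 : Q' ++ [e₀] ++ P = Q' ++ e₀ :: P := by simp
    rw [h4]
    exact h3

theorem good_rot {n : ℕ} {L L' : List (V × ℕ)} (h : Good T n L) (hr : L ~r L') : Good T n L' := by
  obtain ⟨k, rfl⟩ := hr
  induction k generalizing L with
  | zero => rwa [List.rotate_zero]
  | succ k ih =>
    cases L with
    | nil => rwa [List.rotate_nil]
    | cons e L =>
      rw [List.rotate_cons_succ]
      exact ih (good_rot_one h)

theorem gb1_rot {n : ℕ} {l l' : List V} (h : GB1 T θ n l) (hr : l ~r l') : GB1 T θ n l' := by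
  obtain ⟨L, h1, h2, h3⟩ := h
  obtain ⟨k, rfl⟩ := hr
  refine ⟨L.rotate k, ?_, good_rot h2 ⟨k, rfl⟩, ?_⟩
  · rw [List.map_rotate, h1]
  · rw [((List.rotate_perm L k).map _).sum_eq]
    exact h3

theorem gb2_rot {n : ℕ} {l l' : List V} (h : GB2 T n l) (hr : l ~r l') : GB2 T n l' := by
  obtain ⟨x, u, v, a, b, h1, h2⟩ := h
  exact ⟨x, u, v, a, b, hr.symm.trans h1, h2⟩

theorem gb2_mono {n m : ℕ} {l : List V} (h : GB2 T n l) (hm : n ≤ m) : GB2 T m l := by
  obtain ⟨x, u, v, a, b, h1, h2, h3, h4, h5, h6⟩ := h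
  exact ⟨x, u, v, a, b, h1, h2, h3, h4.trans hm, h5, h6⟩

theorem ar_rot (hX : Cx E T) {n : ℕ} {l l' : List V} (h : Ar T n l) (hr : l ~r l') : Ar T n l' :=
  ⟨g_isrot hX h.1 (cw_rot hr), fun m hm h1 => h.2 m hm (g_isrot hX h1 (cw_rot hr).symm)⟩

private theorem sec_two (n : ℕ) (x y : V) : Sec T n x 0 [y] :=
  ⟨[y], List.isChain_singleton _, rfl, rfl, rfl, Nat.zero_le _, g_nil.mono (Nat.zero_le _)⟩

theorem gb_two (n : ℕ) (x y : V) : GB1 T θ n [x, y] := by
  refine ⟨[(x, 0), (y, 0)], rfl, ?_, ?_⟩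
  · intro P e Q hP
    match P, hP with
    | [], hP =>
      rw [List.nil_append, List.cons.injEq] at hP
      obtain ⟨rfl, rfl⟩ := hP
      exact sec_two n x y
    | [p], hP =>
      rw [List.cons_append, List.nil_append, List.cons.injEq, List.cons.injEq] at hP
      obtain ⟨rfl, rfl, rfl⟩ := hP
      exact sec_two n y x
    | p :: q :: P, hP =>
      exfalso
      have h1 := congrArg List.length hP
      simp only [List.length_cons, List.length_nil, List.length_append] at h1
      omega
  · simp only [List.map_cons, List.map_nil, List.sum_cons, List.sum_nil, Nat.cast_zero, zero_mul]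
    norm_num

theorem gb_spur (hX : Cx E T) {n : ℕ} {x y : V} {l : List V} (hc : Cyc E (x :: y :: x :: l)) (h : G T n (cw (x :: y :: x :: l))) :
    GB2 T n (x :: y :: x :: l) := by
  refine ⟨x, [y], l, 0, n, List.IsRotated.refl _, List.cons_ne_nil _ _, ?_, by omega, ?_, ?_⟩
  · rintro rfl
    have h1 : List.IsChain E (x :: y :: x :: [x]) := hc
    rw [List.isChain_cons_cons, List.isChain_cons_cons, List.isChain_cons_cons] at h1
    exact hX.irr x h1.2.2.1
  · have h1 : G T (0 + 0) ((x, y) :: ([] ++ (y, x) :: [])) := g_pair g_nil g_nil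
    exact h1
  · exact g_del hX (u := []) (x := x) (y := y) (v := cw (x :: l)) h

theorem ar_tri (hX : Cx E T) {n m : ℕ} {x y z : V} {l : List V} (hT : T x z y) (h : Ar T n (x :: y :: l)) (hm : m + 1 ≤ n)
    (h' : G T m (cw (x :: z :: y :: l))) : m + 1 = n ∧ Ar T m (x :: z :: y :: l) := by
  have key : ∀ k, G T k (cw (x :: z :: y :: l)) → G T (k + 1) (cw (x :: y :: l)) := fun k hk =>
    g_tri hX (u := []) (v := pw (y :: (l ++ [x]))) hT hk
  have h1 : m + 1 = n := by
    by_contra hne
    exact h.2 (m + 1) (by omega) (key m h')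
  refine ⟨h1, h', fun k hk hG => h.2 (k + 1) (by omega) (key k hG)⟩

/-- a folded link path can be replaced by the edge -/
theorem g_fold (hX : Cx E T) {n : ℕ} {x a b : V} {p : List V} {u : List (V × V)} (hp : List.IsChain (T x) p)
    (ha : p.head? = some a) (hb : p.getLast? = some b) (hT : T x b a) (hf : p.length = 2 ∨ ∃ a b m, p ~r (a :: b :: a :: m))
    (h : G T n (u ++ pw p)) : G T (n + (p.length - 2)) (u ++ [(a, b)]) := by
  cases p with
  | nil => simp at ha
  | cons a' p =>
    have ha' : a' = a := by simpa using ha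
    subst ha'
    obtain ⟨q, b', hq⟩ : ∃ q b', a' :: p = q ++ [b'] :=
      ⟨_, _, (List.dropLast_append_getLast (List.cons_ne_nil a' p)).symm⟩
    have hb' : b' = b := by
      rw [hq] at hb
      simpa using hb
    subst hb'
    have h1 : a' :: (p ++ [a']) = q ++ b' :: [a'] := by
      rw [← List.cons_append, hq]
      simp
    have hc : Cyc (T x) (a' :: p) := by
      show List.IsChain (T x) (a' :: (p ++ [a']))
      rw [h1, List.isChain_split, List.isChain_cons_cons]
      refine ⟨?_, hT, List.isChain_singleton _⟩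
      rw [← hq]
      exact hp
    have h2 := g_rev hX (cone_fold hX hc hf)
    have h3 : cw (a' :: p) = pw (a' :: p) ++ [(b', a')] := by
      show pw (a' :: (p ++ [a'])) = _
      rw [h1, pw_append, hq]
      rfl
    rw [h3, List.map_append, List.reverse_append] at h2
    have h4 := g_rot hX (u := [(a', b')]) (v := ((pw (a' :: p)).map Prod.swap).reverse) h2
    exact g_swap hX h h4

end Pool.Agent.H52.VK
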