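import Pool.Agent.H52.VK.Gb0

/-!
# [H52 VK GB1] Gauss-Bonnet: one triangle (75 min)

`gb1_step` (think 1291, section 2). The closed walk `x, z, y, l` of area `n` has sectors of lengths `a`, `b`, `c` at `x`, `z`, `y` (so `L' = (x, a) :: (z, b) :: (y, c) :: M`, `M.map fst = l`). Put
`L = (x, a + 1) :: (y, c + 1) :: M`.
`Good T (n + 1) L`: a decomposition `L = P ++ e :: Q`:
(x) `P = []`: from `Sec T n x a (z :: y :: l)` with the path `p` (`p.getLast? = some z`): the path `p ++ [y]` (`T x z y`); the words `pw (y :: l) ++ pw (p ++ [y])` and `pw (z :: y :: l) ++ pw p` are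
rotations of each other (`pw (p ++ [y]) = pw p ++ [(z, y)]`); the predecessor is the same (`(z :: y :: l).getLast? = (y :: l).getLast?`).
(y) `P = [(x, a + 1)]`: from `Sec T n y c (l ++ [x, z])` with the path `p` (`p.head? = some z`): the path `x :: p` (`T y x z`); `pw (l ++ [x]) ++ (x, z) :: pw p = pw (l ++ [x, z]) ++ pw p`.
(M) `P = (x, a + 1) :: (y, c + 1) :: P'`, `M = P' ++ e :: Q`: from `Sec T n e.1 e.2 ((Q ++ (x, a) :: (z, b) :: (y, c) :: P').map fst)`: the same path; the word contains `(x, z), (z, y)`, `g_tri`.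
Sum: claim `2 ≤ (b + 1) θ z`. Let `p` be the path of the sector at `z` (from `x` to `y`, `p.length = b + 1`, `G T (n - b) (pw (y :: l ++ [x]) ++ pw p)`). It is a closed path in the link of `z` (`T z y x`).
If `(b + 1) θ z < 2`: a fold or length `2` (`hg`), `g_fold`: `G T (n - b + (b + 1 - 2)) (pw (y :: l ++ [x]) ++ [(x, y)])`, a rotation of `cw (x :: y :: l)`; `b ≥ 1` as `x ≠ y`; so the area of
`x :: y :: l` is at most `n - 1` (`n` if `b = 0`, impossible): a contradiction to `Ar T (n + 1)`. Then `1 - (a + 1) θ x + 1 - (c + 1) θ y + .. ≥ 2 - (1 - b θ z) - θ x - θ y ≥ 2`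
by `θ x + θ y + θ z ≤ 1`.
-/

set_option autoImplicit false

namespace Pool.Agent.H52.VK

variable {V : Type*} {E : V → V → Prop} {T : V → V → V → Prop} {θ : V → ℝ}

private theorem chain_snoc {R : V → V → Prop} {p : List V} {z y : V} (hp : List.IsChain R p) (hl : p.getLast? = some z)
    (h : R z y) : List.IsChain R (p ++ [y]) ∧ pw (p ++ [y]) = pw p ++ [(z, y)] := by
  obtain ⟨q, rfl⟩ : ∃ q, p = q ++ [z] := by
    rw [List.getLast?_eq_some_iff] at hl
    exact hl
  have e : q ++ [z] ++ [y] = q ++ z :: [y] := by simp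
  rw [e, pw_append]
  refine ⟨?_, rfl⟩
  rw [List.isChain_split]
  refine ⟨hp, ?_⟩
  rw [List.isChain_cons_cons]
  exact ⟨h, List.isChain_singleton _⟩

private theorem head_app {l : List V} {x : V} (m : List V) : (l ++ x :: m).head? = (l ++ [x]).head? := by
  cases l <;> rfl

theorem gb1_step (hX : Cx E T) (hs : ∀ x y z, T x y z → θ x + θ y + θ z ≤ 1) (hg : Gth T θ) {n : ℕ} {x y z : V} {l : List V}
    (hT : T x z y) (hA : Ar T (n + 1) (x :: y :: l)) (h : GB1 T θ n (x :: z :: y :: l)) : GB1 T θ (n + 1) (x :: y :: l) := by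
  obtain ⟨L', hmap, hgood, hsum⟩ := h
  have hTz : T z y x := hX.rot _ _ _ hT
  have hTy : T y x z := hX.rot _ _ _ hTz
  obtain ⟨a, b, c, M, rfl, hM⟩ : ∃ (a b c : ℕ) (M : List (V × ℕ)), L' = (x, a) :: (z, b) :: (y, c) :: M ∧
      M.map Prod.fst = l := by
    match L', hmap with
    | (x', a) :: (z', b) :: (y', c) :: M, hmap =>
      simp only [List.map_cons, List.cons.injEq] at hmap
      obtain ⟨rfl, rfl, rfl, hM⟩ := hmap
      exact ⟨a, b, c, M, rfl, hM⟩
  -- the three sectors
  have sx := hgood [] (x, a) ((z, b) :: (y, c) :: M) rfl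
  have sz := hgood [(x, a)] (z, b) ((y, c) :: M) rfl
  have sy := hgood [(x, a), (z, b)] (y, c) M rfl
  simp only [List.append_nil, List.map_cons, List.map_append, List.map_nil, hM] at sx sz sy
  refine ⟨(x, a + 1) :: (y, c + 1) :: M, by simp [hM], ?_, ?_⟩
  · intro P e Q hPQ
    match P, hPQ with
    | [], hPQ =>
      rw [List.nil_append, List.cons.injEq] at hPQ
      obtain ⟨rfl, rfl⟩ := hPQ
      simp only [List.append_nil, List.map_cons, hM]
      obtain ⟨p, h1, h2, h3, h4, h5, h6⟩ := sx
      rw [List.head?_cons] at h4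
      obtain ⟨h7, h8⟩ := chain_snoc h1 h4 hT
      refine ⟨p ++ [y], h7, by simp [h2], ?_, by simp, by omega, ?_⟩
      · have hp : p ≠ [] := by
          rintro rfl
          simp at h2
        obtain ⟨u, p', rfl⟩ := List.exists_cons_of_ne_nil hp
        rw [List.getLast?_cons_cons] at h3
        exact h3
      · have e1 : n + 1 - (a + 1) = n - a := by omega
        rw [e1, h8, ← List.append_assoc]
        exact g_rot hX (u := [(z, y)]) h6
    | [q], hPQ =>
      rw [List.singleton_append, List.cons.injEq, List.cons.injEq] at hPQ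
      obtain ⟨rfl, rfl, rfl⟩ := hPQ
      simp only [List.map_append, List.map_cons, List.map_nil, hM]
      obtain ⟨p, h1, h2, h3, h4, h5, h6⟩ := sy
      have h7 : p.head? = some z := by rw [h3]; simp
      obtain ⟨p', rfl⟩ : ∃ p', p = z :: p' := by
        cases p with
        | nil => simp at h7
        | cons u p' =>
          rw [List.head?_cons, Option.some.injEq] at h7
          exact ⟨p', by rw [h7]⟩
      refine ⟨x :: z :: p', ?_, by simp at h2 ⊢; omega, by simp, ?_, by omega, ?_⟩
      · rw [List.isChain_cons_cons]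
        exact ⟨hTy, h1⟩
      · rw [List.getLast?_cons_cons, h4]
        exact head_app [z]
      · have e1 : n + 1 - (c + 1) = n - c := by omega
        have e2 : pw (l ++ [x, z]) = pw (l ++ [x]) ++ [(x, z)] := pw_append l [z] x
        rw [e2, List.append_assoc] at h6
        rw [e1]
        exact h6
    | q :: q' :: P', hPQ =>
      rw [List.cons_append, List.cons_append, List.cons.injEq, List.cons.injEq] at hPQ
      obtain ⟨rfl, rfl, hM'⟩ := hPQ
      have se := hgood ((x, a) :: (z, b) :: (y, c) :: P') e Q (by rw [hM']; rfl)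
      simp only [List.map_append, List.map_cons] at se ⊢
      obtain ⟨p, h1, h2, h3, h4, h5, h6⟩ := se
      refine ⟨p, h1, h2, ?_, ?_, by omega, ?_⟩
      · rw [h3]
        simp
      · rw [h4, head_app, head_app (x := x) (y :: P'.map Prod.fst)]
      · have e1 : n + 1 - e.2 = n - e.2 + 1 := by omega
        have e2 : ∀ r : List V, pw (Q.map Prod.fst ++ x :: r) = pw (Q.map Prod.fst ++ [x]) ++ pw (x :: r) :=
          fun r => pw_append _ _ _
        rw [e2, List.append_assoc] at h6
        rw [e1, e2, List.append_assoc]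
        exact g_tri hX hT h6
  · -- the sum
    have claim : 2 ≤ ((b : ℝ) + 1) * θ z := by
      by_contra hcon
      push Not at hcon
      obtain ⟨p, h1, h2, h3, h4, h5, h6⟩ := sz
      have h3' : p.head? = some x := by
        rw [h3]
        exact List.getLast?_concat (l := y :: l) (a := x)
      have h4' : p.getLast? = some y := by rw [h4]; rfl
      have hxy : x ≠ y := by
        rintro rfl
        exact hX.irr _ (hX.edge _ _ _ hTy)
      have hb : 1 ≤ b := by
        by_contra hb0
        have hb1 : b = 0 := by omega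
        subst hb1
        match p, h2 with
        | [u], _ =>
          apply hxy
          have e1 : u = x := by simpa using h3'
          have e2 : u = y := by simpa using h4'
          rw [← e1, e2]
      have hp : p ≠ [] := by
        rintro rfl
        simp at h2
      have hc : Cyc (T z) p := by
        obtain ⟨u, p', rfl⟩ := List.exists_cons_of_ne_nil hp
        have e1 : u = x := by simpa using h3'
        subst e1
        exact (chain_snoc h1 h4' hTz).1
      have hf := hg z p hp hc (by
        rw [h2]
        push_cast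
        exact hcon)
      have h7 := g_fold hX h1 h3' h4' hTz hf h6
      refine hA.2 _ ?_ (g_isrot hX h7 ?_)
      · rw [h2]
        omega
      · have e1 : cw (x :: y :: l) = [(x, y)] ++ pw (y :: l ++ [x]) := rfl
        rw [e1]
        exact List.isRotated_append
    have h1 := hs _ _ _ hT
    simp only [List.map_cons, List.sum_cons] at hsum ⊢
    push_cast
    nlinarith

end Pool.Agent.H52.VK
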