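import Pool.Agent.H52.VK.Gb0

/-!
# [H52 VK GB2] Gauss-Bonnet: joining two walks at the apex (75 min)

`gb1_join`. `L₁ = (z, p₁) :: (y, c) :: M₁` for `z :: y :: l₁` (area bound `a`), `L₂ = (z, p₂) :: (M₂ ++ [(x, q)])` for `z :: l₂ ++ [x]` (area bound `b`); `n = a + b + 1` (`≤` is `hn`; `≥`: the closed walk
`x :: y :: l₁ ++ z :: l₂` has area at most `a + b + 1`: `g_append` of the two words gives the closed walk `z, y, l₁, z, l₂, x`, then `g_tri` for `(x, z), (z, y)`; but it is simpler to prove all `G` bounds below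
with `a + b + 1` and to use `G.mono`: only `l ≤ n` and `n - l` occur, so assume `n = a + b + 1` by `hA.2`: if `a + b + 1 < n` then `G T (a + b + 1)` contradicts `hA`). Put
`L = (x, q + 1) :: (y, c + 1) :: (M₁ ++ (z, p₁ + 1 + p₂) :: M₂)`. The sum is `S₁ + S₂ - 1 - (θ x + θ y + θ z) ≥ 2`.
`Good T n L`:
(x) path `p ++ [y]` for the path `p` of `L₂` at `x` (`p` ends with `z`); word: `pw (y :: l₁ ++ z :: l₂) ++ pw p ++ [(z, y)]` is a rotation of `cw (z :: y :: l₁) ++ (pw (z :: l₂) ++ pw p)`.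
(y) path `x :: p` for the path `p` of `L₁` at `y` (`p` starts with `z`); word: `pw (l₁ ++ z :: l₂ ++ [x]) ++ (x, z) :: pw p`, a rotation of `(pw (l₁ ++ [z]) ++ pw p) ++ cw (z :: (l₂ ++ [x]))` with the
second one rotated (insert it at the vertex `z`: `g_insert`).
(z) path `p₁ ++ p₂` (`p₁` ends with `y`, `p₂` starts with `x`, `T z y x`); word: `pw (l₂ ++ x :: y :: l₁) ++ pw p₁ ++ (y, x) :: pw p₂`, a rotation of
`(x, y) :: ((pw (y :: l₁) ++ pw p₁) ++ (y, x) :: (pw p₂ ++ pw (l₂ ++ [x])))`: `g_pair`.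
(e in `M₁`) `Q`, `P'` the parts of `M₁`: the rest of the walk is `Q, z, l₂, x, y, P'`; the word of the rest in `L₁` is `Q, z, y, P'`: insert the closed walk `z, l₂, x` at `z`, `g_tri` for `(x, z), (z, y)`.
(e in `M₂`) the same with the closed walk `z, y, l₁`.
-/

set_option autoImplicit false

namespace Pool.Agent.H52.VK

variable {V : Type*} {E : V → V → Prop} {T : V → V → V → Prop} {θ : V → ℝ}

private theorem pw_cc (x y : V) (l : List V) : pw (x :: y :: l) = (x, y) :: pw (y :: l) := rfl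

/-- the word of a concatenation of two paths -/
private theorem pw_cat {p₁ p₂ : List V} {y x : V} (h1 : p₁.getLast? = some y) (h2 : p₂.head? = some x) :
    pw (p₁ ++ p₂) = pw p₁ ++ (y, x) :: pw p₂ := by
  obtain ⟨q, rfl⟩ : ∃ q, p₁ = q ++ [y] := by
    rcases List.eq_nil_or_concat p₁ with rfl | ⟨q, y', rfl⟩
    · simp at h1
    · refine ⟨q, ?_⟩
      rw [List.concat_eq_append] at h1 ⊢
      simp only [List.getLast?_append, List.getLast?_singleton, Option.some_or, Option.some.injEq] at h1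
      rw [h1]
  cases p₂ with
  | nil => simp at h2
  | cons x' p =>
    have hx : x' = x := by simpa using h2
    subst hx
    have h3 : q ++ [y] ++ x' :: p = q ++ y :: (x' :: p) := by simp
    rw [h3, pw_append, pw_cc]

private theorem cw_one (z y : V) (l₁ : List V) : cw (z :: y :: l₁) = (z, y) :: pw (y :: (l₁ ++ [z])) := rfl

private theorem cw_two (z x : V) (l₂ : List V) :
    cw (z :: (l₂ ++ [x])) = pw (z :: (l₂ ++ [x])) ++ [(x, z)] := by
  have h0 : cw (z :: (l₂ ++ [x])) = pw (z :: ((l₂ ++ [x]) ++ [z])) := rfl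
  have h1 : z :: ((l₂ ++ [x]) ++ [z]) = (z :: l₂) ++ x :: [z] := by simp
  rw [h0, h1, pw_append]
  rfl

private theorem area_join (hX : Cx E T) {a b : ℕ} {x y z : V} {l₁ l₂ : List V} (hT : T x z y)
    (ha : G T a (cw (z :: y :: l₁))) (hb : G T b (cw (z :: (l₂ ++ [x])))) :
    G T (a + b + 1) (cw (x :: y :: (l₁ ++ z :: l₂))) := by
  have h1 := g_append ha hb
  rw [cw_one, cw_two] at h1
  have h2 : (z, y) :: pw (y :: (l₁ ++ [z])) ++ (pw (z :: (l₂ ++ [x])) ++ [(x, z)]) =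
      ((z, y) :: pw (y :: (l₁ ++ z :: (l₂ ++ [x])))) ++ [(x, z)] := by
    have h3 : y :: (l₁ ++ z :: (l₂ ++ [x])) = (y :: l₁) ++ z :: (l₂ ++ [x]) := by simp
    rw [h3, pw_append]
    simp
  rw [h2] at h1
  have h4 := g_rot hX h1
  have h5 := g_tri hX (u := []) hT h4
  have h6 : cw (x :: y :: (l₁ ++ z :: l₂)) = (x, y) :: pw (y :: (l₁ ++ z :: (l₂ ++ [x]))) := by
    have h7 : cw (x :: y :: (l₁ ++ z :: l₂)) = pw (x :: y :: ((l₁ ++ z :: l₂) ++ [x])) := rfl
    rw [h7, pw_cc]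
    simp
  rw [h6]
  exact h5

private theorem sec_x (hX : Cx E T) {a b q : ℕ} {x y z : V} {l₁ l₂ : List V} (hT : T x z y)
    (ha : G T a (cw (z :: y :: l₁))) (h : Sec T b x q (z :: l₂)) :
    Sec T (a + b + 1) x (q + 1) (y :: (l₁ ++ z :: l₂)) := by
  obtain ⟨p, h1, h2, h3, h4, h5, h6⟩ := h
  have hp : p.getLast? = some z := by rw [h4]; rfl
  have hne : p ≠ [] := by rintro rfl; simp at hp
  refine ⟨p ++ [y], ?_, ?_, ?_, ?_, by omega, ?_⟩
  · rw [List.isChain_append]
    refine ⟨h1, List.isChain_singleton _, ?_⟩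
    intro u hu w hw
    rw [hp] at hu
    simp only [Option.mem_def, Option.some.injEq, List.head?_cons] at hu hw
    subst hu hw
    exact hT
  · simp [h2]
  · rw [List.head?_append_of_ne_nil _ hne, h3]
    have h7 : y :: (l₁ ++ z :: l₂) = (y :: l₁) ++ (z :: l₂) := by simp
    rw [h7, List.getLast?_append_of_ne_nil _ (List.cons_ne_nil _ _)]
  · simp
  · have h8 : a + b + 1 - (q + 1) = a + (b - q) := by omega
    rw [h8, pw_cat hp (p₂ := [y]) rfl]
    have h9 := g_append ha h6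
    have h10 : pw (y :: (l₁ ++ z :: l₂)) = pw (y :: (l₁ ++ [z])) ++ pw (z :: l₂) := by
      have h7 : y :: (l₁ ++ z :: l₂) = (y :: l₁) ++ z :: l₂ := by simp
      rw [h7, pw_append]
      simp
    rw [cw_one] at h9
    have h11 : (z, y) :: pw (y :: (l₁ ++ [z])) ++ (pw (z :: l₂) ++ pw p) =
        [(z, y)] ++ (pw (y :: (l₁ ++ [z])) ++ (pw (z :: l₂) ++ pw p)) := by simp
    rw [h11] at h9
    have h12 := g_rot hX h9
    rw [h10]
    have h13 : pw (y :: (l₁ ++ [z])) ++ pw (z :: l₂) ++ (pw p ++ (z, y) :: pw [y]) =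
        pw (y :: (l₁ ++ [z])) ++ (pw (z :: l₂) ++ pw p) ++ [(z, y)] := by
      show pw (y :: (l₁ ++ [z])) ++ pw (z :: l₂) ++ (pw p ++ (z, y) :: []) = _
      simp
    rw [h13]
    exact h12

private theorem sec_y (hX : Cx E T) {a b c : ℕ} {x y z : V} {l₁ l₂ : List V} (hT : T x z y)
    (hb : G T b (cw (z :: (l₂ ++ [x])))) (h : Sec T a y c (l₁ ++ [z])) :
    Sec T (a + b + 1) y (c + 1) (l₁ ++ z :: (l₂ ++ [x])) := by
  obtain ⟨p, h1, h2, h3, h4, h5, h6⟩ := h
  have hp : p.head? = some z := by rw [h3]; simp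
  have hne : p ≠ [] := by rintro rfl; simp at hp
  refine ⟨x :: p, ?_, ?_, ?_, ?_, by omega, ?_⟩
  · rw [List.isChain_cons]
    refine ⟨?_, h1⟩
    intro u hu
    rw [hp] at hu
    simp only [Option.mem_def, Option.some.injEq] at hu
    subst hu
    exact hX.rot _ _ _ (hX.rot _ _ _ hT)
  · simp [h2]
  · have h7 : l₁ ++ z :: (l₂ ++ [x]) = (l₁ ++ z :: l₂) ++ [x] := by simp
    rw [h7, List.getLast?_append_of_ne_nil _ (List.cons_ne_nil _ _)]
    rfl
  · have h7 : x :: p = [x] ++ p := rfl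
    rw [h7, List.getLast?_append_of_ne_nil _ hne, h4]
    cases l₁ with
    | nil => rfl
    | cons w l => rfl
  · have h8 : a + b + 1 - (c + 1) = (a - c) + b := by omega
    have h9 : pw (x :: p) = pw [x] ++ (x, z) :: pw p := pw_cat (p₁ := [x]) rfl hp
    have h10 : pw (l₁ ++ z :: (l₂ ++ [x])) = pw (l₁ ++ [z]) ++ pw (z :: (l₂ ++ [x])) := pw_append _ _ _
    have h11 := g_insert h6 hb
    rw [cw_two] at h11
    rw [h8, h9, h10]
    have h12 : pw (l₁ ++ [z]) ++ pw (z :: (l₂ ++ [x])) ++ (pw [x] ++ (x, z) :: pw p) =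
        pw (l₁ ++ [z]) ++ (pw (z :: (l₂ ++ [x])) ++ [(x, z)] ++ pw p) := by
      show pw (l₁ ++ [z]) ++ pw (z :: (l₂ ++ [x])) ++ ([] ++ (x, z) :: pw p) = _
      simp
    rw [h12]
    exact h11

private theorem sec_z (hX : Cx E T) {a b p₁ p₂ : ℕ} {x y z : V} {l₁ l₂ : List V} (hT : T x z y)
    (h : Sec T a z p₁ (y :: l₁)) (h' : Sec T b z p₂ (l₂ ++ [x])) :
    Sec T (a + b + 1) z (p₁ + 1 + p₂) (l₂ ++ x :: y :: l₁) := by
  obtain ⟨P, h1, h2, h3, h4, h5, h6⟩ := h
  obtain ⟨Q, k1, k2, k3, k4, k5, k6⟩ := h'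
  have hP : P.getLast? = some y := by rw [h4]; rfl
  have hQ : Q.head? = some x := by rw [k3]; simp
  have hPne : P ≠ [] := by rintro rfl; simp at hP
  have hQne : Q ≠ [] := by rintro rfl; simp at hQ
  refine ⟨P ++ Q, ?_, ?_, ?_, ?_, by omega, ?_⟩
  · rw [List.isChain_append]
    refine ⟨h1, k1, ?_⟩
    intro u hu w hw
    rw [hP] at hu
    rw [hQ] at hw
    simp only [Option.mem_def, Option.some.injEq] at hu hw
    subst hu hw
    exact hX.rot _ _ _ hT
  · rw [List.length_append, h2, k2]; omega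
  · rw [List.head?_append_of_ne_nil _ hPne, h3]
    have h7 : l₂ ++ x :: y :: l₁ = (l₂ ++ [x]) ++ (y :: l₁) := by simp
    rw [h7, List.getLast?_append_of_ne_nil _ (List.cons_ne_nil _ _)]
  · rw [List.getLast?_append_of_ne_nil _ hQne, k4]
    cases l₂ with
    | nil => rfl
    | cons w l => rfl
  · have h8 : a + b + 1 - (p₁ + 1 + p₂) = (a - p₁) + (b - p₂) := by omega
    have h9 : pw (l₂ ++ x :: y :: l₁) = pw (l₂ ++ [x]) ++ ((x, y) :: pw (y :: l₁)) := by
      rw [pw_append, pw_cc]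
    rw [h8, h9, pw_cat hP hQ]
    have h10 := g_pair (x := x) (y := y) h6 (g_rot hX k6)
    have h11 : (x, y) :: (pw (y :: l₁) ++ pw P ++ (y, x) :: (pw Q ++ pw (l₂ ++ [x]))) =
        ((x, y) :: (pw (y :: l₁) ++ pw P ++ (y, x) :: pw Q)) ++ pw (l₂ ++ [x]) := by simp
    rw [h11] at h10
    have h12 := g_rot hX h10
    have h13 : pw (l₂ ++ [x]) ++ (x, y) :: pw (y :: l₁) ++ (pw P ++ (y, x) :: pw Q) =
        pw (l₂ ++ [x]) ++ (x, y) :: (pw (y :: l₁) ++ pw P ++ (y, x) :: pw Q) := by simp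
    rw [h13]
    exact h12

private theorem sec_e₁ (hX : Cx E T) {a b k : ℕ} {x y z w : V} {l₂ Q P : List V} (hT : T x z y)
    (hb : G T b (cw (z :: (l₂ ++ [x])))) (h : Sec T a w k (Q ++ z :: y :: P)) :
    Sec T (a + b + 1) w k (Q ++ z :: (l₂ ++ x :: y :: P)) := by
  obtain ⟨p, h1, h2, h3, h4, h5, h6⟩ := h
  refine ⟨p, h1, h2, ?_, ?_, by omega, ?_⟩
  · rw [h3]
    have h7 : Q ++ z :: y :: P = (Q ++ [z]) ++ (y :: P) := by simp
    have h8 : Q ++ z :: (l₂ ++ x :: y :: P) = (Q ++ z :: (l₂ ++ [x])) ++ (y :: P) := by simp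
    rw [h7, h8, List.getLast?_append_of_ne_nil _ (List.cons_ne_nil _ _),
      List.getLast?_append_of_ne_nil _ (List.cons_ne_nil _ _)]
  · rw [h4]
    cases Q with
    | nil => rfl
    | cons w l => rfl
  · have h8 : a + b + 1 - k = (a - k) + b + 1 := by omega
    have h9 : pw (Q ++ z :: y :: P) = pw (Q ++ [z]) ++ ((z, y) :: pw (y :: P)) := by
      rw [pw_append, pw_cc]
    have h10 : pw (Q ++ z :: (l₂ ++ x :: y :: P)) =
        pw (Q ++ [z]) ++ (pw (z :: (l₂ ++ [x])) ++ ((x, y) :: pw (y :: P))) := by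
      have h11 : z :: (l₂ ++ x :: y :: P) = (z :: l₂) ++ x :: y :: P := by simp
      have h12 : pw (Q ++ z :: (l₂ ++ x :: y :: P)) = pw (Q ++ [z]) ++ pw (z :: (l₂ ++ x :: y :: P)) :=
        pw_append _ _ _
      rw [h12, h11, pw_append (z :: l₂), pw_cc]
      rfl
    rw [h9, List.append_assoc] at h6
    have h12 := g_insert h6 hb
    rw [cw_two] at h12
    have h13 : pw (Q ++ [z]) ++ (pw (z :: (l₂ ++ [x])) ++ [(x, z)] ++ ((z, y) :: pw (y :: P) ++ pw p)) =
        (pw (Q ++ [z]) ++ pw (z :: (l₂ ++ [x]))) ++ (x, z) :: (z, y) :: (pw (y :: P) ++ pw p) := by simp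
    rw [h13] at h12
    have h14 := g_tri hX hT h12
    rw [h8, h10]
    have h15 : pw (Q ++ [z]) ++ (pw (z :: (l₂ ++ [x])) ++ (x, y) :: pw (y :: P)) ++ pw p =
        (pw (Q ++ [z]) ++ pw (z :: (l₂ ++ [x]))) ++ (x, y) :: (pw (y :: P) ++ pw p) := by simp
    rw [h15]
    exact h14

private theorem sec_e₂ (hX : Cx E T) {a b k : ℕ} {x y z w : V} {l₁ Q P : List V} (hT : T x z y)
    (ha : G T a (cw (z :: y :: l₁))) (h : Sec T b w k (Q ++ x :: z :: P)) :
    Sec T (a + b + 1) w k (Q ++ x :: y :: (l₁ ++ z :: P)) := by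
  obtain ⟨p, h1, h2, h3, h4, h5, h6⟩ := h
  refine ⟨p, h1, h2, ?_, ?_, by omega, ?_⟩
  · rw [h3]
    have h7 : Q ++ x :: z :: P = (Q ++ [x]) ++ (z :: P) := by simp
    have h8 : Q ++ x :: y :: (l₁ ++ z :: P) = (Q ++ x :: y :: l₁) ++ (z :: P) := by simp
    rw [h7, h8, List.getLast?_append_of_ne_nil _ (List.cons_ne_nil _ _),
      List.getLast?_append_of_ne_nil _ (List.cons_ne_nil _ _)]
  · rw [h4]
    cases Q with
    | nil => rfl
    | cons w l => rfl
  · have h8 : a + b + 1 - k = (b - k) + a + 1 := by omega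
    have h9 : pw (Q ++ x :: z :: P) = (pw (Q ++ [x]) ++ [(x, z)]) ++ pw (z :: P) := by
      rw [pw_append, pw_cc]
      simp
    have h10 : pw (Q ++ x :: y :: (l₁ ++ z :: P)) =
        pw (Q ++ [x]) ++ ((x, y) :: (pw (y :: (l₁ ++ [z])) ++ pw (z :: P))) := by
      have h11 : y :: (l₁ ++ z :: P) = (y :: l₁) ++ z :: P := by simp
      have h12 : pw (Q ++ x :: y :: (l₁ ++ z :: P)) = pw (Q ++ [x]) ++ pw (x :: y :: (l₁ ++ z :: P)) :=
        pw_append _ _ _
      rw [h12, pw_cc, h11, pw_append (y :: l₁)]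
      rfl
    rw [h9, List.append_assoc (pw (Q ++ [x]) ++ [(x, z)])] at h6
    have h12 := g_insert h6 ha
    rw [cw_one] at h12
    have h13 : pw (Q ++ [x]) ++ [(x, z)] ++ ((z, y) :: pw (y :: (l₁ ++ [z])) ++ (pw (z :: P) ++ pw p)) =
        pw (Q ++ [x]) ++ (x, z) :: (z, y) :: (pw (y :: (l₁ ++ [z])) ++ (pw (z :: P) ++ pw p)) := by simp
    rw [h13] at h12
    have h14 := g_tri hX hT h12
    rw [h8, h10]
    have h15 : pw (Q ++ [x]) ++ (x, y) :: (pw (y :: (l₁ ++ [z])) ++ pw (z :: P)) ++ pw p =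
        pw (Q ++ [x]) ++ (x, y) :: (pw (y :: (l₁ ++ [z])) ++ (pw (z :: P) ++ pw p)) := by simp
    rw [h15]
    exact h14

theorem gb1_join (hX : Cx E T) (hs : ∀ x y z, T x y z → θ x + θ y + θ z ≤ 1) {n a b : ℕ} {x y z : V} {l₁ l₂ : List V}
    (hT : T x z y) (hA : Ar T n (x :: y :: (l₁ ++ z :: l₂))) (hn : a + b + 1 ≤ n)
    (ha : G T a (cw (z :: y :: l₁))) (hb : G T b (cw (z :: (l₂ ++ [x]))))
    (h₁ : GB1 T θ a (z :: y :: l₁)) (h₂ : GB1 T θ b (z :: (l₂ ++ [x]))) : GB1 T θ n (x :: y :: (l₁ ++ z :: l₂)) := by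
  have hn' : n = a + b + 1 := by
    by_contra hne
    exact hA.2 (a + b + 1) (by omega) (area_join hX hT ha hb)
  subst hn'
  obtain ⟨L₁, e1, g1, s1⟩ := h₁
  obtain ⟨L₂, e2, g2, s2⟩ := h₂
  -- the shape of the two lists
  obtain ⟨p₁, c, M₁, rfl, hM₁⟩ : ∃ p₁ c M₁, L₁ = (z, p₁) :: (y, c) :: M₁ ∧ M₁.map Prod.fst = l₁ := by
    rcases L₁ with _ | ⟨⟨z', p₁⟩, _ | ⟨⟨y', c⟩, M₁⟩⟩
    · simp at e1
    · simp at e1
    · simp only [List.map_cons, List.cons.injEq] at e1
      obtain ⟨rfl, rfl, h⟩ := e1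
      exact ⟨p₁, c, M₁, rfl, h⟩
  obtain ⟨p₂, q, M₂, rfl, hM₂⟩ : ∃ p₂ q M₂, L₂ = (z, p₂) :: (M₂ ++ [(x, q)]) ∧ M₂.map Prod.fst = l₂ := by
    rcases L₂ with _ | ⟨⟨z', p₂⟩, L⟩
    · simp at e2
    · rcases List.eq_nil_or_concat L with rfl | ⟨M₂, ⟨x', q⟩, rfl⟩
      · simp at e2
      · rw [List.concat_eq_append] at e2 ⊢
        simp only [List.map_cons, List.map_append, List.map_nil, List.cons.injEq] at e2
        obtain ⟨rfl, h⟩ := e2
        have h' := List.append_inj' h rfl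
        obtain ⟨h1, h2⟩ := h'
        simp only [List.cons.injEq, and_true] at h2
        subst h2
        exact ⟨p₂, q, M₂, rfl, h1⟩
  subst hM₁ hM₂
  refine ⟨(x, q + 1) :: (y, c + 1) :: (M₁ ++ (z, p₁ + 1 + p₂) :: M₂), ?_, ?_, ?_⟩
  · simp
  · intro P e Q hP
    rcases P with _ | ⟨e', _ | ⟨e'', P⟩⟩
    · -- the vertex x
      rw [List.nil_append, List.cons.injEq] at hP
      obtain ⟨rfl, rfl⟩ := hP
      have h := g2 ((z, p₂) :: M₂) (x, q) [] (by simp)
      have h' : Sec T b x q (z :: M₂.map Prod.fst) := by simpa using h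
      have := sec_x hX hT ha h'
      simpa using this
    · rw [List.cons_append, List.nil_append, List.cons.injEq, List.cons.injEq] at hP
      obtain ⟨rfl, rfl, rfl⟩ := hP
      have h := g1 [(z, p₁)] (y, c) M₁ (by simp)
      have h' : Sec T a y c (M₁.map Prod.fst ++ [z]) := by simpa using h
      have := sec_y hX hT hb h'
      simpa using this
    · rw [List.cons_append, List.cons_append, List.cons.injEq, List.cons.injEq] at hP
      obtain ⟨rfl, rfl, hP⟩ := hP
      rcases List.append_eq_append_iff.1 hP with ⟨R, hR1, hR2⟩ | ⟨R, hR1, hR2⟩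
      · -- P = M₁ ++ R, (z, _) :: M₂ = R ++ e :: Q
        rcases R with _ | ⟨e₀, R⟩
        · rw [List.nil_append, List.cons.injEq] at hR2
          obtain ⟨rfl, rfl⟩ := hR2
          rw [List.append_nil] at hR1
          subst hR1
          have h := g1 [] (z, p₁) ((y, c) :: P) rfl
          have h' : Sec T a z p₁ (y :: P.map Prod.fst) := by simpa using h
          have k := g2 [] (z, p₂) (M₂ ++ [(x, q)]) rfl
          have k' : Sec T b z p₂ (M₂.map Prod.fst ++ [x]) := by simpa using k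
          have := sec_z hX hT h' k'
          simpa using this
        · rw [List.cons_append, List.cons.injEq] at hR2
          obtain ⟨rfl, rfl⟩ := hR2
          subst hR1
          have h := g2 ((z, p₂) :: R) e (Q ++ [(x, q)]) (by simp)
          have h' : Sec T b e.1 e.2 (Q.map Prod.fst ++ x :: z :: R.map Prod.fst) := by simpa using h
          have := sec_e₂ hX hT ha h'
          simpa using this
      · -- M₁ = P ++ R, e :: Q = R ++ (z, _) :: M₂
        rcases R with _ | ⟨e₀, R⟩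
        · rw [List.nil_append, List.cons.injEq] at hR2
          obtain ⟨rfl, rfl⟩ := hR2
          rw [List.append_nil] at hR1
          subst hR1
          have h := g1 [] (z, p₁) ((y, c) :: M₁) rfl
          have h' : Sec T a z p₁ (y :: M₁.map Prod.fst) := by simpa using h
          have k := g2 [] (z, p₂) (Q ++ [(x, q)]) rfl
          have k' : Sec T b z p₂ (Q.map Prod.fst ++ [x]) := by simpa using k
          have := sec_z hX hT h' k'
          simpa using this
        · rw [List.cons_append, List.cons.injEq] at hR2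
          obtain ⟨rfl, rfl⟩ := hR2
          subst hR1
          have h := g1 ((z, p₁) :: (y, c) :: P) e R (by simp)
          have h' : Sec T a e.1 e.2 (R.map Prod.fst ++ z :: y :: P.map Prod.fst) := by simpa using h
          have := sec_e₁ hX hT hb h'
          simpa using this
  · have h3 := hs x z y hT
    simp only [List.map_cons, List.map_append, List.map_nil, List.sum_cons, List.sum_append, List.sum_nil] at s1 s2 ⊢
    push_cast at s1 s2 ⊢
    nlinarith

end Pool.Agent.H52.VK
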