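import Pool.Agent.H52.VK.Gb0

/-!
# [H52 VK GB3] Gauss-Bonnet: cuts (75 min)

`cut_pos`: a rotation `z :: v ~r c :: u ++ c :: w` has the position of `z` in one of the two parts: there are `P`, `Q` with `v = Q ++ (c :: w) ++ P` and `P ++ z :: Q = c :: u`, or the same with `u`, `w` exchanged
(`List.IsRotated`: `z :: v = B ++ A`, `A ++ B = c :: u ++ c :: w`, and `z` is the head of `B`; if `A = []` then `P = []`. `List.append_eq_append_iff`).
Note: `P = []` means `c = z`, `Q = u`; `P = c :: P'` means `u = P' ++ z :: Q`. `Q ++ P ≠ []` if `u ≠ []`.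
`drop_z`: the closed walk `z :: v` with `v.head? = some y`, `v.getLast? = some x`, `T x z y`: `cw (z :: v)` is a rotation of `pw v ++ [(x, z), (z, y)]`, `g_tri`, `pw v ++ [(x, y)]` is a rotation of `cw v`.
`gb2_step`: apply `cut_pos` to `z :: (y :: l ++ [x])` (a rotation of `x :: z :: y :: l`). `P = []`: `y :: l ++ [x] = u ++ z :: w` (`c = z`), `u = y :: l₁` (`u ≠ []`), `w = l₂ ++ [x]` (`w ≠ []`): second alternative.
`P = c :: P'`: `drop_z` for the part `z :: (Q ++ P)` (a rotation of `c :: u`): head `y` (the head of `Q ++ (c :: w) ++ P` is the head of `Q ++ c :: ..`), last `x`: the cut `c :: w`, `c :: (P' ++ Q)`.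
`merge1` (a cut of `z :: y :: l₁`): `cut_pos` for `z :: (y :: l₁)`: `y :: l₁ = Q ++ (c :: w) ++ P`. The closed walk `z :: (Q ++ P) ++ z :: (l₂ ++ [x])` (`g_append`), `drop_z` for its first `z`:
`(Q ++ P) ++ z :: (l₂ ++ [x])`. The cut: `c :: w` and (`P = c :: P'`) `c :: (P' ++ z :: l₂ ++ [x] ++ Q)` resp. (`P = []`, `c = z`) `z :: (l₂ ++ [x] ++ Q)`.
`merge2` (a cut of `z :: l₂ ++ [x]`): `l₂ ++ [x] = Q ++ (c :: w) ++ P`. `P = c :: P'`: the last of `P` is `x`: `z :: (Q ++ P) ++ z :: (y :: l₁)`, the second `z` is between `x` and `y`: `drop_z` after rotation.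
`P = []` (`c = z`): the last of `w` is `x`: use the part `z :: w` instead: `z :: w ++ z :: (y :: l₁)`, drop the second `z`; the cut at `z`: `z :: Q` and `z :: (w ++ y :: l₁)`.
-/

set_option autoImplicit false

namespace Pool.Agent.H52.VK

variable {V : Type*} {E : V → V → Prop} {T : V → V → V → Prop} {θ : V → ℝ}

theorem cut_pos {z c : V} {v u w : List V} (h : (z :: v) ~r (c :: u ++ c :: w)) :
    (∃ P Q, v = Q ++ (c :: w) ++ P ∧ P ++ z :: Q = c :: u) ∨ (∃ P Q, v = Q ++ (c :: u) ++ P ∧ P ++ z :: Q = c :: w) := by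
  obtain ⟨A, B, h1, h2⟩ : ∃ A B, v = B ++ A ∧ A ++ z :: B = (c :: u) ++ c :: w := by
    obtain ⟨k, hk⟩ := h
    rw [List.rotate_eq_drop_append_take_mod] at hk
    have hs := List.take_append_drop (k % (z :: v).length) (z :: v)
    generalize List.take (k % (z :: v).length) (z :: v) = B at hk hs
    generalize List.drop (k % (z :: v).length) (z :: v) = A at hk hs
    cases B with
    | nil =>
      rw [List.nil_append] at hs
      rw [List.append_nil] at hk
      refine ⟨[], v, by simp, ?_⟩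
      rw [List.nil_append, ← hs, hk]
    | cons b B =>
      rw [List.cons_append, List.cons.injEq] at hs
      obtain ⟨rfl, hs⟩ := hs
      exact ⟨A, B, hs.symm, hk⟩
  rcases List.append_eq_append_iff.1 h2 with ⟨as, h3, h4⟩ | ⟨bs, h3, h4⟩
  · cases as with
    | nil =>
      rw [List.nil_append, List.cons.injEq] at h4
      obtain ⟨rfl, rfl⟩ := h4
      rw [List.append_nil] at h3
      refine Or.inr ⟨[], B, ?_, rfl⟩
      rw [h1, ← h3, List.append_nil]
    | cons a as =>
      rw [List.cons_append, List.cons.injEq] at h4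
      obtain ⟨rfl, rfl⟩ := h4
      refine Or.inl ⟨A, as, ?_, h3.symm⟩
      rw [h1]
  · refine Or.inr ⟨bs, B, ?_, h4.symm⟩
    rw [h1, h3]
    simp

theorem drop_z (hX : Cx E T) {n : ℕ} {x y z : V} {v : List V} (hT : T x z y) (hy : v.head? = some y) (hx : v.getLast? = some x)
    (h : G T n (cw (z :: v))) : G T (n + 1) (cw v) := by
  obtain ⟨v', rfl⟩ : ∃ v', v = y :: v' := by
    cases v with
    | nil => simp at hy
    | cons a v =>
      rw [List.head?_cons, Option.some.injEq] at hy
      exact ⟨v, by rw [hy]⟩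
  obtain ⟨q, hq⟩ : ∃ q, y :: v' = q ++ [x] := List.getLast?_eq_some_iff.1 hx
  have h1 : ∀ a : V, pw ((y :: v') ++ [a]) = pw (y :: v') ++ [(x, a)] := by
    intro a
    rw [hq, List.append_assoc]
    show pw (q ++ x :: [a]) = _
    rw [pw_append]
    rfl
  have h2 : cw (z :: y :: v') = (z, y) :: (pw (y :: v') ++ [(x, z)]) := by
    rw [← h1]
    rfl
  rw [h2] at h
  have h3 : G T n (pw (y :: v') ++ (x, z) :: (z, y) :: []) := by
    have h4 := g_rot hX (u := [(z, y)]) (v := pw (y :: v') ++ [(x, z)]) h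
    simpa using h4
  have h5 := g_tri hX hT h3
  have h6 : cw (y :: v') = pw (y :: v') ++ [(x, y)] := by
    rw [← h1]
    rfl
  rw [h6]
  exact h5

private theorem T_ne (hX : Cx E T) {x y z : V} (hT : T x z y) : x ≠ y := by
  intro h
  subst h
  exact hX.irr _ (hX.edge _ _ _ (hX.rot _ _ _ (hX.flip _ _ _ hT)))

private theorem cw_append (z : V) (u v : List V) : cw (z :: (u ++ z :: v)) = cw (z :: u) ++ cw (z :: v) := by
  show pw (z :: ((u ++ z :: v) ++ [z])) = pw ((z :: u) ++ [z]) ++ pw (z :: (v ++ [z]))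
  rw [← pw_append]
  simp

private theorem head_app {a c : V} {Q R S : List V} (h : (Q ++ c :: R).head? = some a) : (Q ++ c :: S).head? = some a := by
  cases Q with
  | nil => exact h
  | cons q Q => exact h

private theorem last_app {a c : V} {Q R S : List V} (h : (Q ++ c :: R).getLast? = some a) :
    (S ++ c :: R).getLast? = some a := by
  rw [List.getLast?_append_of_ne_nil _ (List.cons_ne_nil _ _)] at h ⊢
  exact h

private theorem step_aux (hX : Cx E T) {n a b : ℕ} {x y z c : V} {l u w P Q : List V} (hT : T x z y)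
    (h1 : (y :: l) ++ [x] = Q ++ (c :: w) ++ P) (h2 : P ++ z :: Q = c :: u) (hu : u ≠ []) (hw : w ≠ [])
    (hab : a + b ≤ n) (ha : G T a (cw (c :: u))) (hb : G T b (cw (c :: w))) :
    GB2 T (n + 1) (x :: y :: l) ∨ ∃ l₁ l₂ a b, l = l₁ ++ z :: l₂ ∧ a + b ≤ n ∧ G T a (cw (z :: y :: l₁)) ∧
      G T b (cw (z :: (l₂ ++ [x]))) := by
  cases P with
  | nil =>
    rw [List.nil_append, List.cons.injEq] at h2
    obtain ⟨rfl, rfl⟩ := h2
    right
    obtain ⟨l₁, rfl⟩ : ∃ l₁, Q = y :: l₁ := by
      cases Q with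
      | nil => exact absurd rfl hu
      | cons q Q =>
        rw [List.append_nil, List.cons_append, List.cons_append, List.cons.injEq] at h1
        exact ⟨Q, by rw [h1.1]⟩
    obtain ⟨l₂, rfl⟩ : ∃ l₂, w = l₂ ++ [x] := by
      apply List.getLast?_eq_some_iff.1
      have h3 : ((y :: l) ++ [x]).getLast? = some x := List.getLast?_concat
      rw [h1, List.append_nil, List.getLast?_append_of_ne_nil _ (List.cons_ne_nil _ _)] at h3
      cases w with
      | nil => exact absurd rfl hw
      | cons a w =>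
        rw [List.getLast?_cons_cons] at h3
        exact h3
    refine ⟨l₁, l₂, a, b, ?_, hab, ha, hb⟩
    have h4 : (y :: l) ++ [x] = (y :: (l₁ ++ z :: l₂)) ++ [x] := by
      rw [h1]
      simp
    have h5 := List.append_cancel_right h4
    rw [List.cons.injEq] at h5
    exact h5.2
  | cons p P =>
    rw [List.cons_append, List.cons.injEq] at h2
    obtain ⟨rfl, rfl⟩ := h2
    left
    have hh : (Q ++ p :: P).head? = some y := by
      have h3 : ((y :: l) ++ [x]).head? = some y := rfl
      rw [h1, List.append_assoc] at h3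
      exact head_app h3
    have hl : (Q ++ p :: P).getLast? = some x := by
      have h3 : ((y :: l) ++ [x]).getLast? = some x := List.getLast?_concat
      rw [h1] at h3
      exact last_app h3
    have h3 : G T a (cw (z :: (Q ++ p :: P))) := by
      refine g_isrot hX ha (cw_rot ?_)
      have h4 := List.isRotated_append (l := p :: P) (l' := z :: Q)
      simpa using h4
    have h4 := drop_z hX hT hh hl h3
    refine ⟨p, w, P ++ Q, b, a + 1, ?_, hw, ?_, by omega, hb, ?_⟩
    · have h5 : (x :: y :: l) ~r ((y :: l) ++ [x]) := List.isRotated_append (l := [x]) (l' := y :: l)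
      refine h5.trans ?_
      rw [h1]
      have h6 := List.isRotated_append (l := Q) (l' := (p :: w) ++ p :: P)
      simpa using h6
    · intro h5
      obtain ⟨rfl, rfl⟩ := List.append_eq_nil_iff.1 h5
      simp only [List.nil_append, List.head?_cons, Option.some.injEq, List.getLast?_singleton] at hh hl
      exact T_ne hX hT (hl.symm.trans hh)
    · refine g_isrot hX h4 (cw_rot ?_)
      have h6 := List.isRotated_append (l := Q) (l' := p :: P)
      simpa using h6

theorem gb2_step (hX : Cx E T) {n : ℕ} {x y z : V} {l : List V} (hT : T x z y) (h : GB2 T n (x :: z :: y :: l)) :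
    GB2 T (n + 1) (x :: y :: l) ∨ ∃ l₁ l₂ a b, l = l₁ ++ z :: l₂ ∧ a + b ≤ n ∧ G T a (cw (z :: y :: l₁)) ∧
      G T b (cw (z :: (l₂ ++ [x]))) := by
  obtain ⟨c, u, w, a, b, h1, hu, hw, hab, ha, hb⟩ := h
  have h2 : (z :: ((y :: l) ++ [x])) ~r (c :: u ++ c :: w) :=
    (List.isRotated_append (l := [x]) (l' := z :: y :: l)).symm.trans h1
  rcases cut_pos h2 with ⟨P, Q, h3, h4⟩ | ⟨P, Q, h3, h4⟩
  · exact step_aux hX hT h3 h4 hu hw hab ha hb
  · exact step_aux hX hT h3 h4 hw hu (by omega) hb ha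

private theorem merge1_aux (hX : Cx E T) {a b a' b' : ℕ} {x y z c : V} {l₁ l₂ u w P Q : List V} (hT : T x z y)
    (h1 : y :: l₁ = Q ++ (c :: w) ++ P) (h2 : P ++ z :: Q = c :: u) (hu : u ≠ []) (hw : w ≠ [])
    (hab : a' + b' ≤ a) (ha' : G T a' (cw (c :: u))) (hb' : G T b' (cw (c :: w)))
    (hb : G T b (cw (z :: (l₂ ++ [x])))) : GB2 T (a + b + 1) (x :: y :: (l₁ ++ z :: l₂)) := by
  have h3 : G T a' (cw (z :: (Q ++ P))) := by
    refine g_isrot hX ha' (cw_rot ?_)
    rw [← h2]
    have h4 := List.isRotated_append (l := P) (l' := z :: Q)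
    simpa using h4
  have h4 : G T (a' + b) (cw (z :: ((Q ++ P) ++ z :: (l₂ ++ [x])))) := by
    rw [cw_append]
    exact g_append h3 hb
  have hh : ((Q ++ P) ++ z :: (l₂ ++ [x])).head? = some y := by
    have h5 : (y :: l₁).head? = some y := rfl
    rw [h1] at h5
    cases Q with
    | cons q Q => exact h5
    | nil =>
      cases P with
      | nil =>
        rw [List.nil_append, List.cons.injEq] at h2
        exact absurd h2.2.symm hu
      | cons p P =>
        rw [List.cons_append, List.cons.injEq] at h2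
        obtain ⟨rfl, -⟩ := h2
        exact h5
  have hl : ((Q ++ P) ++ z :: (l₂ ++ [x])).getLast? = some x := by
    rw [← List.cons_append, ← List.append_assoc]
    exact List.getLast?_concat
  have h5 := drop_z hX hT hh hl h4
  have h6 : (x :: y :: (l₁ ++ z :: l₂)) ~r ((c :: w) ++ (P ++ z :: (l₂ ++ [x]) ++ Q)) := by
    have h7 : (x :: y :: (l₁ ++ z :: l₂)) ~r ((y :: (l₁ ++ z :: l₂)) ++ [x]) :=
      List.isRotated_append (l := [x]) (l' := y :: (l₁ ++ z :: l₂))
    refine h7.trans ?_
    have h8 : (y :: (l₁ ++ z :: l₂)) ++ [x] = Q ++ ((c :: w) ++ (P ++ z :: (l₂ ++ [x]))) := by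
      rw [← List.cons_append, h1]
      simp
    rw [h8]
    have h9 := List.isRotated_append (l := Q) (l' := (c :: w) ++ (P ++ z :: (l₂ ++ [x])))
    simpa using h9
  have h7 : G T (a' + b + 1) (cw (P ++ z :: (l₂ ++ [x]) ++ Q)) := by
    refine g_isrot hX h5 (cw_rot ?_)
    have h9 := List.isRotated_append (l := Q) (l' := P ++ z :: (l₂ ++ [x]))
    simpa using h9
  cases P with
  | nil =>
    rw [List.nil_append, List.cons.injEq] at h2
    obtain ⟨rfl, rfl⟩ := h2
    refine ⟨z, w, (l₂ ++ [x]) ++ Q, b', a' + b + 1, ?_, hw, by simp, by omega, hb', ?_⟩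
    · simpa using h6
    · simpa using h7
  | cons p P =>
    rw [List.cons_append, List.cons.injEq] at h2
    obtain ⟨rfl, rfl⟩ := h2
    refine ⟨p, w, P ++ z :: (l₂ ++ [x]) ++ Q, b', a' + b + 1, ?_, hw, by simp, by omega, hb', ?_⟩
    · simpa using h6
    · simpa using h7

theorem gb2_merge1 (hX : Cx E T) {a b : ℕ} {x y z : V} {l₁ l₂ : List V} (hT : T x z y) (h : GB2 T a (z :: y :: l₁))
    (hb : G T b (cw (z :: (l₂ ++ [x])))) : GB2 T (a + b + 1) (x :: y :: (l₁ ++ z :: l₂)) := by
  obtain ⟨c, u, w, a', b', h1, hu, hw, hab, ha', hb'⟩ := h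
  rcases cut_pos h1 with ⟨P, Q, h3, h4⟩ | ⟨P, Q, h3, h4⟩
  · exact merge1_aux hX hT h3 h4 hu hw hab ha' hb' hb
  · exact merge1_aux hX hT h3 h4 hw hu (by omega) hb' ha' hb

private theorem merge2_aux (hX : Cx E T) {a b a' b' : ℕ} {x y z c : V} {l₁ l₂ u w P Q : List V} (hT : T x z y)
    (h1 : l₂ ++ [x] = Q ++ (c :: w) ++ P) (h2 : P ++ z :: Q = c :: u) (hu : u ≠ []) (hw : w ≠ [])
    (hab : a' + b' ≤ b) (ha' : G T a' (cw (c :: u))) (hb' : G T b' (cw (c :: w)))
    (ha : G T a (cw (z :: y :: l₁))) : GB2 T (a + b + 1) (x :: y :: (l₁ ++ z :: l₂)) := by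
  have h7 : (x :: y :: (l₁ ++ z :: l₂)) ~r ((y :: l₁) ++ z :: (l₂ ++ [x])) := by
    have h8 := List.isRotated_append (l := [x]) (l' := y :: (l₁ ++ z :: l₂))
    simpa using h8
  cases P with
  | nil =>
    rw [List.nil_append, List.cons.injEq] at h2
    obtain ⟨rfl, rfl⟩ := h2
    have hl : ((y :: l₁) ++ z :: w).getLast? = some x := by
      have h3 : (l₂ ++ [x]).getLast? = some x := by simp
      rw [h1, List.append_nil] at h3
      exact last_app h3
    have h4 : G T (a + b') (cw (z :: ((y :: l₁) ++ z :: w))) := by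
      rw [cw_append]
      exact g_append ha hb'
    have h5 := drop_z hX hT (y := y) rfl hl h4
    refine ⟨z, Q, w ++ y :: l₁, a', a + b' + 1, ?_, hu, by simp, by omega, ha', ?_⟩
    · refine h7.trans ?_
      rw [h1]
      have h9 := List.isRotated_append (l := y :: l₁) (l' := (z :: Q) ++ z :: w)
      simpa using h9
    · refine g_isrot hX h5 (cw_rot ?_)
      have h9 := List.isRotated_append (l := y :: l₁) (l' := z :: w)
      simpa using h9
  | cons p P =>
    rw [List.cons_append, List.cons.injEq] at h2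
    obtain ⟨rfl, rfl⟩ := h2
    have h3 : G T a' (cw (z :: (Q ++ p :: P))) := by
      refine g_isrot hX ha' (cw_rot ?_)
      have h4 := List.isRotated_append (l := p :: P) (l' := z :: Q)
      simpa using h4
    have h4 : G T (a + a') (cw (z :: ((y :: l₁) ++ z :: (Q ++ p :: P)))) := by
      rw [cw_append]
      exact g_append ha h3
    have hl : ((y :: l₁) ++ z :: (Q ++ p :: P)).getLast? = some x := by
      have h5 : (l₂ ++ [x]).getLast? = some x := by simp
      rw [h1] at h5
      have h6 := last_app (S := (y :: l₁) ++ z :: Q) h5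
      simpa using h6
    have h5 := drop_z hX hT (y := y) rfl hl h4
    refine ⟨p, w, P ++ (y :: l₁) ++ z :: Q, b', a + a' + 1, ?_, hw, by simp, by omega, hb', ?_⟩
    · refine h7.trans ?_
      rw [h1]
      have h9 := List.isRotated_append (l := (y :: l₁) ++ z :: Q) (l' := (p :: w) ++ p :: P)
      simpa using h9
    · refine g_isrot hX h5 (cw_rot ?_)
      have h9 := List.isRotated_append (l := (y :: l₁) ++ z :: Q) (l' := p :: P)
      simpa using h9

theorem gb2_merge2 (hX : Cx E T) {a b : ℕ} {x y z : V} {l₁ l₂ : List V} (hT : T x z y) (ha : G T a (cw (z :: y :: l₁)))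
    (h : GB2 T b (z :: (l₂ ++ [x]))) : GB2 T (a + b + 1) (x :: y :: (l₁ ++ z :: l₂)) := by
  obtain ⟨c, u, w, a', b', h1, hu, hw, hab, ha', hb'⟩ := h
  rcases cut_pos h1 with ⟨P, Q, h3, h4⟩ | ⟨P, Q, h3, h4⟩
  · exact merge2_aux hX hT h3 h4 hu hw hab ha' hb' ha
  · exact merge2_aux hX hT h3 h4 hw hu (by omega) hb' ha' ha

end Pool.Agent.H52.VK
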