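import Pool.Agent.H52.VK.Gb1
import Pool.Agent.H52.VK.Gb2
import Pool.Agent.H52.VK.Gb3

/-!
# [H52 VK GBA] Gauss-Bonnet without discs (60 min)

`gb`: strong induction on `n`, for all `l`. `l = x :: y :: l'`. `cw l = (x, y) :: pw (y :: (l' ++ [x]))`, `g_peel`.
Pair: `pw (y :: (l' ++ [x])) = u ++ (y, x) :: v`: so `y :: (l' ++ [x]) = u' ++ y :: x :: v'` with `u = pw (u' ++ [y])`, `v = pw (x :: v')` (a lemma on `pw`, by induction). `u' = []`: `l' ++ [x] = x :: v'`: `l' = []`
(`gb_two`) or `l' = x :: l''` (`gb_spur`). `v' = []`: `l' = l'' ++ [y]` (`u' = y :: u''`): rotate to `y :: x :: y :: l''`, `gb_spur`. Otherwise `u' = y :: u''`, `v' = v'' ++ [x]`, `l' = u'' ++ y :: x :: v''`,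
`cw (y :: u'') = u`, `cw (x :: v'') = v`; `u'' ≠ []`, `v'' ≠ []` (`E y y`, `E x x` impossible: `hc`): the cut at `y`: rotate `x :: y :: u'' ++ y :: x :: v''` to `y :: u'' ++ y :: (x :: v'' ++ [x])`; the second part
is `cw (x :: v'')` with a backtrack (`g_bt`).
Tri: `z`, `m + 1 ≤ n`, `G T m (cw (x :: z :: y :: l'))`; `ar_tri`: `n = m + 1`, `Ar T m (x :: z :: y :: l')`; it is a closed walk (`hX.edge`). Induction: `GB1`: `gb1_step`. `GB2`: `gb2_step`: done, or `l' = l₁ ++ z :: l₂`,
`G T a (cw (z :: y :: l₁))`, `G T b (cw (z :: (l₂ ++ [x])))`, `a + b ≤ m`. Take `a`, `b` minimal (`Nat.find`), so `Ar`. Both are closed walks (`E x z`, `E z y`, and the edges `z - l₂`, `l₁ - z` of `l'`), of length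
`≥ 2`. Induction for both: `GB2` for one of them: `gb2_merge1`, `gb2_merge2`, `gb2_mono`; both `GB1`: `gb1_join`.
-/

set_option autoImplicit false

namespace Pool.Agent.H52.VK

variable {V : Type*} {E : V → V → Prop} {T : V → V → V → Prop} {θ : V → ℝ}

private theorem pw_split {x y : V} {W : List (V × V)} : ∀ (t : List V) (U : List (V × V)),
    pw t = U ++ (y, x) :: W → ∃ u v, t = u ++ y :: x :: v ∧ U = pw (u ++ [y]) ∧ W = pw (x :: v) := by
  intro t
  induction t with
  | nil =>
    intro U h
    exact absurd h.symm (by simp [pw])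
  | cons a t ih =>
    intro U h
    cases t with
    | nil => exact absurd h.symm (by simp [pw])
    | cons b t =>
      have h1 : (a, b) :: pw (b :: t) = U ++ (y, x) :: W := h
      cases U with
      | nil =>
        rw [List.nil_append, List.cons.injEq, Prod.mk.injEq] at h1
        obtain ⟨⟨rfl, rfl⟩, h2⟩ := h1
        exact ⟨[], t, rfl, rfl, h2.symm⟩
      | cons e U =>
        rw [List.cons_append, List.cons.injEq] at h1
        obtain ⟨rfl, h2⟩ := h1
        obtain ⟨u, v, h3, h4, h5⟩ := ih U h2
        refine ⟨a :: u, v, by rw [h3]; rfl, ?_, h5⟩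
        rw [h4]
        cases u with
        | nil =>
          rw [List.nil_append, List.cons.injEq] at h3
          obtain ⟨rfl, -⟩ := h3
          rfl
        | cons c u =>
          rw [List.cons_append, List.cons.injEq] at h3
          obtain ⟨rfl, -⟩ := h3
          rfl

private theorem ar_ex' {a : ℕ} {w : List V} (h : G T a (cw w)) : ∃ a₀ ≤ a, Ar T a₀ w := by
  classical
  have h1 : ∃ m, G T m (cw w) := ⟨a, h⟩
  exact ⟨Nat.find h1, Nat.find_min' h1 h, Nat.find_spec h1, fun m hm => Nat.find_min h1 hm⟩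

/-- the first dart is paired -/
private theorem gb_pair (hX : Cx E T) {n : ℕ} {x y : V} {l : List V} (hc : Cyc E (x :: y :: l))
    (hA : G T n (cw (x :: y :: l))) {U W : List (V × V)} {a b : ℕ}
    (hw : pw (y :: (l ++ [x])) = U ++ (y, x) :: W) (hab : a + b ≤ n) (ha : G T a U) (hb : G T b W) :
    GB1 T θ n (x :: y :: l) ∨ GB2 T n (x :: y :: l) := by
  obtain ⟨u, v, h1, rfl, rfl⟩ := pw_split _ _ hw
  cases u with
  | nil =>
    rw [List.nil_append, List.cons.injEq] at h1
    have h2 := h1.2
    cases l with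
    | nil => exact Or.inl (gb_two n x y)
    | cons x' l =>
      rw [List.cons_append, List.cons.injEq] at h2
      obtain ⟨rfl, -⟩ := h2
      exact Or.inr (gb_spur hX hc hA)
  | cons y' u =>
    rw [List.cons_append, List.cons.injEq] at h1
    obtain ⟨rfl, h2⟩ := h1
    rcases List.eq_nil_or_concat v with rfl | ⟨v, x', rfl⟩
    · -- `l = u ++ [y]`
      have h3 : l ++ [x] = (u ++ [y]) ++ [x] := by rw [h2]; simp
      have h4 : l = u ++ [y] := (List.append_inj' h3 rfl).1
      subst h4
      have hr : (x :: y :: (u ++ [y])) ~r (y :: x :: y :: u) := by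
        have h5 : (x :: y :: (u ++ [y])) = (x :: y :: u) ++ [y] := by simp
        rw [h5]
        exact List.isRotated_append
      exact Or.inr (gb2_rot (gb_spur hX (hc.rot hr) (g_isrot hX hA (cw_rot hr))) hr.symm)
    · rw [List.concat_eq_append] at h2 hb
      have h3 : l ++ [x] = (u ++ y :: x :: v) ++ [x'] := by rw [h2]; simp
      have h4 : l = u ++ y :: x :: v ∧ [x] = [x'] := List.append_inj' h3 rfl
      obtain ⟨rfl, h5⟩ := h4
      rw [List.cons.injEq] at h5
      obtain ⟨rfl, -⟩ := h5
      have hu : u ≠ [] := by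
        rintro rfl
        have h6 : List.IsChain E (x :: y :: y :: (x :: v ++ [x])) := hc
        rw [List.isChain_cons_cons, List.isChain_cons_cons] at h6
        exact hX.irr y h6.2.1
      refine Or.inr ⟨y, u, x :: (v ++ [x]), a, b, ?_, hu, by simp, hab, ha, ?_⟩
      · have h6 : (y :: u ++ y :: (x :: (v ++ [x]))) = (y :: (u ++ y :: x :: v)) ++ [x] := by simp
        rw [h6]
        have h7 : ((y :: (u ++ y :: x :: v)) ++ [x]) ~r ([x] ++ (y :: (u ++ y :: x :: v))) :=
          List.isRotated_append
        exact h7.symm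
      · have h6 : cw (y :: x :: (v ++ [x])) = [(y, x)] ++ (pw (x :: (v ++ [x])) ++ [(x, y)]) := by
          show (y, x) :: pw (x :: (v ++ [x] ++ [y])) = _
          have h7 : x :: (v ++ [x] ++ [y]) = (x :: v) ++ x :: [y] := by simp
          rw [h7, pw_append]
          rfl
        rw [h6]
        refine g_rot hX ?_
        have h7 : G T b (pw (x :: (v ++ [x])) ++ []) := by
          rw [List.append_nil]
          exact hb
        have h8 := g_bt (x := x) (y := y) h7
        simpa using h8

theorem gb (hX : Cx E T) (hs : ∀ x y z, T x y z → θ x + θ y + θ z ≤ 1) (hg : Gth T θ) (n : ℕ) :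
    ∀ l : List V, Cyc E l → 2 ≤ l.length → Ar T n l → GB1 T θ n l ∨ GB2 T n l := by
  induction n using Nat.strong_induction_on with
  | _ n ih =>
    intro l hc h2 hA
    match l, h2 with
    | x :: y :: l, _ =>
      have h0 : G T n ((x, y) :: pw (y :: (l ++ [x]))) := hA.1
      rcases g_peel h0 with ⟨z, m, hT, hm, h3⟩ | ⟨U, W, a, b, hw, hab, ha, hb⟩
      · have h3' : G T m (cw (x :: z :: y :: l)) := h3
        obtain ⟨rfl, hA'⟩ := ar_tri hX hT hA hm h3'
        have hxz : E x z := hX.edge _ _ _ hT
        have hzy : E z y := hX.edge _ _ _ (hX.rot _ _ _ hT)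
        have hc0 : List.IsChain E (x :: y :: (l ++ [x])) := hc
        have hc' : Cyc E (x :: z :: y :: l) := by
          show List.IsChain E (x :: z :: y :: (l ++ [x]))
          rw [List.isChain_cons_cons, List.isChain_cons_cons]
          rw [List.isChain_cons_cons] at hc0
          exact ⟨hxz, hzy, hc0.2⟩
        rcases ih m (Nat.lt_succ_self m) _ hc' (by simp) hA' with h4 | h4
        · exact Or.inl (gb1_step hX hs hg hT hA h4)
        · rcases gb2_step hX hT h4 with h5 | ⟨l₁, l₂, a, b, rfl, hab, ha, hb⟩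
          · exact Or.inr h5
          · obtain ⟨a₀, ha₀, hA1⟩ := ar_ex' ha
            obtain ⟨b₀, hb₀, hB1⟩ := ar_ex' hb
            have h6 : x :: y :: (l₁ ++ z :: l₂ ++ [x]) = (x :: y :: l₁) ++ z :: (l₂ ++ [x]) := by simp
            rw [h6, List.isChain_split] at hc0
            have hc1 : Cyc E (z :: y :: l₁) := by
              show List.IsChain E (z :: y :: (l₁ ++ [z]))
              have h7 : List.IsChain E (x :: y :: (l₁ ++ [z])) := hc0.1
              rw [List.isChain_cons_cons] at h7 ⊢
              exact ⟨hzy, h7.2⟩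
            have hc2 : Cyc E (z :: (l₂ ++ [x])) := by
              show List.IsChain E (z :: (l₂ ++ [x] ++ [z]))
              have h7 : z :: (l₂ ++ [x] ++ [z]) = (z :: l₂) ++ x :: [z] := by simp
              rw [h7, List.isChain_split]
              refine ⟨hc0.2, ?_⟩
              rw [List.isChain_cons_cons]
              exact ⟨hxz, List.isChain_singleton _⟩
            rcases ih a₀ (by omega) _ hc1 (by simp) hA1 with g1 | g1
            · rcases ih b₀ (by omega) _ hc2 (by simp) hB1 with g2 | g2
              · exact Or.inl (gb1_join hX hs hT hA (by omega) hA1.1 hB1.1 g1 g2)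
              · exact Or.inr (gb2_mono (gb2_merge2 hX hT ha g2) (by omega))
            · exact Or.inr (gb2_mono (gb2_merge1 hX hT g1 hb) (by omega))
      · exact gb_pair hX hc hA.1 hw hab ha hb

end Pool.Agent.H52.VK
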