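import Pool.Agent.H52.VK.Fill

/-!
# [H52 VK GLUE] Gluing, deletion of backtracks (60 min)

`glue`: strong induction on `m + k`, then on `s.length + t.length + r.length`, for all `s t r m k`. Write `t⁻¹ = (t.map inv).reverse`.
Case `r = e :: r'`. By `rot`: `Fill m (e :: (r' ++ s))`; invert.
(tri) `R a b e`, `Fill (m - 1) (a :: b :: (r' ++ s))`; `rot`: `Fill (m - 1) (s ++ a :: b :: r')`; induction (smaller area): `Fill j (t ++ a :: b :: r')`, `j ≤ m - 1 + k`; `tri_any`.
(pair) `r' ++ s = u ++ inv e :: v`, `Fill a u`, `Fill b v`, `a + b = m`; two cases (`List.append_eq_append_iff`):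
 - `r' = u ++ inv e :: v'`, `v = v' ++ s`: `Fill b (s ++ v')` by `rot`; induction (length smaller, area not larger): `Fill j (t ++ v')`, `j ≤ b + k`; `insert` the word `e :: u ++ [inv e]` (pair of
   area `a`) between `t` and `v'`.
 - `u = r' ++ s₁`, `s = s₁ ++ inv e :: v`: `Fill a (r' ++ s₁)`, `Fill b v`, `Fill k (s₁ ++ inv e :: (v ++ t⁻¹))`. FIRST: induction for `(s, t, r) := (v, [], t⁻¹ ++ s₁ ++ [inv e])`, areas `k` (rotate) and `b`
   (`Fill b (v ++ [])`): the sum `k + b ≤ k + m`, the length is smaller by `1 + r'.length`: `Fill j (t⁻¹ ++ s₁ ++ [inv e])`, `j ≤ k + b`. THEN induction for `(s, t, r) := (s₁, t ++ [e], r')`, areas `a`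
   (`s₁ ++ r'` by `rot`) and `j` (`s₁ ++ (t ++ [e])⁻¹ = s₁ ++ inv e :: t⁻¹` by `rot`): the sum `a + j ≤ m + k`, the length is smaller: `Fill i ((t ++ [e]) ++ r')`.
Case `r = []`: `Fill m s`, `Fill k (s ++ t⁻¹)`. If `t = []`: `Fill.nil`. Otherwise the case above (NOT the induction hypothesis: prove the case `r ≠ []` first, as a `have` for all `s t r m k` with the given
measure) for `(s, t, r) := (s, [], t⁻¹)`: `Fill j t⁻¹`; `rev` and `hi`: `Fill j t`.
`del`: `glue` with `s = [inv d', ..]`: `rot` to `d :: inv d :: (v ++ u)`, `s = [d, inv d]`, `r = v ++ u`, `t = []`, `Fill 0 [d, inv d]` (pair).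
`swap`: `Fill n (v ++ u)` (`rot`), `s = v`, `r = u`; `Fill j (v⁻¹ ++ w)` is `Fill j (v ++ w⁻¹)` after `rev` (`(v⁻¹ ++ w)⁻¹ = w⁻¹ ++ v`) and `rot`; `t = w`: `Fill i (w ++ u)`, `rot`.
-/

set_option autoImplicit false

namespace Pool.Agent.H52.VK

variable {D : Type*} {inv : D → D} {R : D → D → D → Prop}

private theorem inv_cons {m : ℕ} {e : D} {l : List D} (h : Fill inv R m (e :: l)) :
    (∃ a b u v, m = a + b ∧ l = u ++ inv e :: v ∧ Fill inv R a u ∧ Fill inv R b v) ∨
      ∃ n a b, m = n + 1 ∧ R a b e ∧ Fill inv R n (a :: b :: l) := by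
  cases h with
  | pair hu hv => exact Or.inl ⟨_, _, _, _, rfl, rfl, hu, hv⟩
  | tri hR h => exact Or.inr ⟨_, _, _, rfl, hR, h⟩

private theorem inv_inv_word (hS : Sym inv R) (t : List D) : (((t.map inv).reverse).map inv).reverse = t := by
  rw [List.map_reverse, List.reverse_reverse, List.map_map]
  conv_rhs => rw [← List.map_id t]
  refine List.map_congr_left fun d _ => ?_
  exact hS.hi d

private theorem glue_aux (hS : Sym inv R) : ∀ N L : ℕ, ∀ (m k : ℕ) (s t r : List D), m + k ≤ N →
    s.length + t.length + r.length ≤ L → Fill inv R m (s ++ r) → Fill inv R k (s ++ (t.map inv).reverse) →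
      ∃ j ≤ m + k, Fill inv R j (t ++ r) := by
  intro N
  induction N using Nat.strong_induction_on with
  | _ N IHN =>
  intro L
  induction L using Nat.strong_induction_on with
  | _ L IHL =>
  have main : ∀ (m k : ℕ) (s t r : List D), r ≠ [] → m + k ≤ N → s.length + t.length + r.length ≤ L →
      Fill inv R m (s ++ r) → Fill inv R k (s ++ (t.map inv).reverse) → ∃ j ≤ m + k, Fill inv R j (t ++ r) := by
    intro m k s t r hr hmk hlen h1 h2
    cases r with
    | nil => exact absurd rfl hr
    | cons e r' =>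
    have h3 : Fill inv R m (e :: (r' ++ s)) := Fill.rot hS h1
    rw [List.length_cons] at hlen
    rcases inv_cons h3 with ⟨a, b, u, v, hm, hl, hu, hv⟩ | ⟨n, a, b, hm, hR, h4⟩
    · -- pair
      have caseB : ∀ s₁ : List D, u = r' ++ s₁ → s = s₁ ++ inv e :: v → ∃ j ≤ m + k, Fill inv R j (t ++ e :: r') := by
        intro s₁ hu1 hs1
        subst hu1 hs1
        rw [List.length_append, List.length_cons] at hlen
        have h5 : Fill inv R k ((s₁ ++ [inv e]) ++ (v ++ (t.map inv).reverse)) := by
          have e1 : (s₁ ++ [inv e]) ++ (v ++ (t.map inv).reverse) = s₁ ++ inv e :: v ++ (t.map inv).reverse := by simp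
          rw [e1]
          exact h2
        have h6 : Fill inv R k (v ++ ((t.map inv).reverse ++ (s₁ ++ [inv e]))) := by
          have h7 := Fill.rot hS h5
          rwa [List.append_assoc] at h7
        obtain ⟨j, hj, h8⟩ := IHL (v.length + ([] : List D).length + ((t.map inv).reverse ++ (s₁ ++ [inv e])).length)
          (by simp; omega) k b v [] ((t.map inv).reverse ++ (s₁ ++ [inv e])) (by omega) le_rfl h6 (by simpa using hv)
        rw [List.nil_append] at h8
        have h9 : Fill inv R j (s₁ ++ ((t ++ [e]).map inv).reverse) := by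
          have h10 := Fill.rot hS h8
          have e1 : s₁ ++ ((t ++ [e]).map inv).reverse = (s₁ ++ [inv e]) ++ (t.map inv).reverse := by simp
          rw [e1]
          exact h10
        obtain ⟨i, hi, h11⟩ := IHL (s₁.length + (t ++ [e]).length + r'.length) (by simp; omega) a j s₁ (t ++ [e]) r'
          (by omega) le_rfl (Fill.rot hS hu) h9
        refine ⟨i, by omega, ?_⟩
        rw [List.append_assoc] at h11
        exact h11
      rcases List.append_eq_append_iff.1 hl with ⟨s₁, h5, h6⟩ | ⟨c', h5, h6⟩
      · exact caseB s₁ h5 h6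
      · cases c' with
        | nil =>
          rw [List.nil_append] at h6
          rw [List.append_nil] at h5
          exact caseB [] (by rw [h5, List.append_nil]) (by rw [← h6, List.nil_append])
        | cons x v' =>
          rw [List.cons_append, List.cons.injEq] at h6
          obtain ⟨rfl, rfl⟩ := h6
          subst h5
          rw [List.length_append, List.length_cons] at hlen
          obtain ⟨j, hj, h7⟩ := IHL (s.length + t.length + v'.length) (by omega) b k s t v' (by omega) le_rfl
            (Fill.rot hS hv) h2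
          have h8 : Fill inv R (a + 0) (e :: (u ++ inv e :: [])) := Fill.pair hu Fill.nil
          have h9 := Fill.insert h7 h8
          refine ⟨j + (a + 0), by omega, ?_⟩
          have e1 : t ++ e :: (u ++ inv e :: v') = t ++ (e :: (u ++ [inv e]) ++ v') := by simp
          rw [e1]
          exact h9
    · -- tri
      subst hm
      have h5 : Fill inv R n (s ++ (a :: b :: r')) := Fill.rot hS (u := a :: b :: r') (v := s) h4
      obtain ⟨j, hj, h6⟩ := IHN (N - 1) (by omega) (s.length + t.length + (a :: b :: r').length) n k s t (a :: b :: r')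
        (by omega) le_rfl h5 h2
      exact ⟨j + 1, by omega, Fill.tri_any hS h6 hR⟩
  intro m k s t r hmk hlen h1 h2
  by_cases hr : r = []
  · subst hr
    by_cases ht : t = []
    · subst ht
      exact ⟨0, Nat.zero_le _, Fill.nil⟩
    · obtain ⟨j, hj, h3⟩ := main k m s [] (t.map inv).reverse (by simpa using ht) (by omega) (by simp at hlen ⊢; omega) h2
        (by simpa using h1)
      rw [List.nil_append] at h3
      have h4 := Fill.rev hS h3
      rw [inv_inv_word hS] at h4
      exact ⟨j, by omega, by rwa [List.append_nil]⟩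
  · exact main m k s t r hr hmk hlen h1 h2

theorem Fill.glue (hS : Sym inv R) {m k : ℕ} {s t r : List D} (h1 : Fill inv R m (s ++ r))
    (h2 : Fill inv R k (s ++ (t.map inv).reverse)) : ∃ j ≤ m + k, Fill inv R j (t ++ r) :=
  glue_aux hS _ _ m k s t r le_rfl le_rfl h1 h2

theorem Fill.del (hS : Sym inv R) {n : ℕ} {d : D} {u v : List D} (h : Fill inv R n (u ++ d :: inv d :: v)) :
    ∃ j ≤ n, Fill inv R j (u ++ v) := by
  have h1 : Fill inv R n ([d, inv d] ++ (v ++ u)) := by
    have h2 := Fill.rot hS h
    simpa using h2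
  have h2 : Fill inv R (0 + 0) ([d, inv d] ++ (([] : List D).map inv).reverse) := Fill.pair (u := []) (v := []) Fill.nil Fill.nil
  obtain ⟨j, hj, h3⟩ := Fill.glue hS (t := []) h1 h2
  exact ⟨j, by omega, Fill.rot hS (u := v) (v := u) (by simpa using h3)⟩

theorem Fill.swap (hS : Sym inv R) {n j : ℕ} {u v w : List D} (h1 : Fill inv R n (u ++ v))
    (h2 : Fill inv R j ((v.map inv).reverse ++ w)) : ∃ i ≤ n + j, Fill inv R i (u ++ w) := by
  have h3 := Fill.rev hS h2
  have h4 : Fill inv R j ((w.map inv).reverse ++ v) := by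
    have e1 : (((v.map inv).reverse ++ w).map inv).reverse = (w.map inv).reverse ++ v := by
      rw [List.map_append, List.reverse_append, inv_inv_word hS]
    rwa [e1] at h3
  obtain ⟨i, hi, h5⟩ := Fill.glue hS (Fill.rot hS h1) (Fill.rot hS h4)
  exact ⟨i, hi, Fill.rot hS h5⟩

end Pool.Agent.H52.VK
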