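import Pool.Agent.H52.VK.Cnf

/-!
# [H52 VK TRI] The closed chain in the link (75 min)

`dn P i k` is the list `P (i + k), .., P i`. `loc_tri`: `Z = p ++ dn P i k` is a closed chain in the link of `x` (all vertices are `adj` to `x`: `T x _ _` gives `E x _`; `same`), consecutive ones are `adj`; its `csum` is
`(p.length - 1) θ x + wv b (P (i + k)) + ∑ W + wv (P i) a < 1 + 1/2 + 1/2` (`theta_w`, `whalf`, `wsymm`). `link x`: a triple (`Z.length ≥ 4`).
`trip`: a triple of a rotation is a triple of `Z ++ Z.take 2` (`l.rotate k = drop k ++ take k`; the triple lies in `drop k ++ take k`, its elements have the indices `k, k + 1, k + 2` mod the length).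
Then the triple `u ++ a :: b :: c :: w = p ++ dn P i k ++ [first two elements of Z]` is one of: inside `p` (types in the link alternate, `tri_same`: `a = c`, `same`: a fold); the last two of `p` and `P (i + k)`; `b`, `P (i + k)`,
`P (i + k - 1)`; inside `dn` (`nd`); `P (i + 1)`, `P i`, `a`; `P i`, `a` and the second element `y` of `p`; for `k = 0`: `b`, `P i`, `a`; for `p = [a]`: `P i`, `a`, `P (i + k)`. Write it as: `NT Z` (no triple) is proved by
`nt_append` from the pieces if all seven alternatives fail. (`p = [a]`, `k ≥ 2` as `4 ≤ 1 + k + 1`.)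
-/

set_option autoImplicit false

namespace Pool.Agent.H52.VK

namespace Sys

variable {B V : Type*} {A : Sys B V} {n : ℕ} {P : ℤ → V}

/-- the list `P (i + k), .., P i` -/
def dn (P : ℤ → V) (i : ℤ) : ℕ → List V
  | 0 => [P i]
  | k + 1 => P (i + (k + 1 : ℕ)) :: dn P i k

/-- no degenerate triple -/
def NT (A : Sys B V) (Z : List V) : Prop := ∀ u a b c w, Z = u ++ a :: b :: c :: w → ¬ A.J a c

theorem nt_append {u v : List V} {a b : V} (h1 : A.NT (u ++ [a, b])) (h2 : A.NT (a :: b :: v)) : A.NT (u ++ a :: b :: v) := by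
  intro u' x y z w' h hJ
  rcases List.append_eq_append_iff.1 h with ⟨t, ht1, ht2⟩ | ⟨t, ht1, ht2⟩
  · exact h2 t x y z w' ht2 hJ
  · match t, ht1, ht2 with
    | [], _, ht2 =>
      exact h2 [] x y z w' ht2.symm hJ
    | [t0], ht1, ht2 =>
      rw [List.singleton_append, List.cons.injEq, List.cons.injEq, List.cons.injEq] at ht2
      obtain ⟨e1, e2, e3, -⟩ := ht2
      refine h1 u' x y z [] ?_ hJ
      rw [ht1, e1, e2, e3, List.append_assoc]
      rfl
    | [t0, t1], ht1, ht2 =>
      rw [List.cons_append, List.singleton_append, List.cons.injEq, List.cons.injEq, List.cons.injEq] at ht2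
      obtain ⟨e1, e2, e3, -⟩ := ht2
      refine h1 u' x y z [b] ?_ hJ
      rw [ht1, e1, e2, e3, List.append_assoc]
      rfl
    | t0 :: t1 :: t2 :: t', ht1, ht2 =>
      rw [List.cons_append, List.cons_append, List.cons_append, List.cons.injEq, List.cons.injEq, List.cons.injEq] at ht2
      obtain ⟨e1, e2, e3, -⟩ := ht2
      refine h1 u' x y z (t' ++ [a, b]) ?_ hJ
      rw [ht1, e1, e2, e3, List.append_assoc]
      rfl

private theorem nt_cons {a : V} {l : List V} (h1 : A.NT l) (h2 : ∀ b c w, l = b :: c :: w → ¬ A.J a c) : A.NT (a :: l) := by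
  intro u x y z w h hJ
  cases u with
  | nil =>
    rw [List.nil_append, List.cons.injEq] at h
    obtain ⟨e1, e2⟩ := h
    exact h2 y z w e2 (by rw [e1]; exact hJ)
  | cons u0 u =>
    rw [List.cons_append, List.cons.injEq] at h
    exact h1 u x y z w h.2 hJ

private theorem nt_two (a b : V) : A.NT [a, b] := by
  refine nt_cons (nt_cons ?_ ?_) ?_
  · intro u x y z w h
    have := congrArg List.length h
    simp at this
  · intro b c w h
    simp at h
  · intro b c w h
    simp at h

private theorem nt_three {a b c : V} (h : ¬ A.J a c) : A.NT [a, b, c] := by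
  refine nt_cons (nt_two b c) ?_
  intro b' c' w he
  rw [List.cons.injEq, List.cons.injEq] at he
  rw [← he.2.1]
  exact h

private theorem nt_four {a b c d : V} (h : ¬ A.J a c) (h' : ¬ A.J b d) : A.NT [a, b, c, d] := by
  refine nt_cons (nt_three h') ?_
  intro b' c' w he
  rw [List.cons.injEq, List.cons.injEq] at he
  rw [← he.2.1]
  exact h

private theorem dn_cons (P : ℤ → V) (i : ℤ) (k : ℕ) : ∃ D, dn P i k = P (i + k) :: D := by
  cases k with
  | zero => exact ⟨[], by simp [dn]⟩
  | succ k => exact ⟨dn P i k, rfl⟩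

private theorem dn_len (P : ℤ → V) (i : ℤ) (k : ℕ) : (dn P i k).length = k + 1 := by
  induction k with
  | zero => rfl
  | succ k ih => rw [dn, List.length_cons, ih]

private theorem dn_snoc (P : ℤ → V) (i : ℤ) (k : ℕ) : ∃ D, dn P i (k + 1) = D ++ [P (i + 1), P i] := by
  induction k with
  | zero => exact ⟨[], by simp [dn]⟩
  | succ k ih =>
    obtain ⟨D, hD⟩ := ih
    exact ⟨P (i + (k + 1 + 1 : ℕ)) :: D, by rw [dn, hD]; rfl⟩

private theorem dn_mem (P : ℤ → V) (i : ℤ) (k : ℕ) {v : V} (h : v ∈ dn P i k) : ∃ m, i ≤ m ∧ m ≤ i + k ∧ v = P m := by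
  induction k with
  | zero =>
    rw [dn, List.mem_singleton] at h
    exact ⟨i, le_rfl, by simp, h⟩
  | succ k ih =>
    rw [dn, List.mem_cons] at h
    rcases h with h | h
    · exact ⟨_, by omega, le_rfl, h⟩
    · obtain ⟨m, h1, h2, h3⟩ := ih h
      exact ⟨m, h1, by push_cast; omega, h3⟩

theorem nt_dn (hA : A.Ax) (hP : A.Ctr n P) (i : ℤ) (k : ℕ) : A.NT (dn P i k) := by
  induction k with
  | zero =>
    intro u x y z w h
    have := congrArg List.length h
    simp [dn] at this
    omega
  | succ k ih =>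
    rw [dn]
    refine nt_cons ih ?_
    intro b c w h hJ
    cases k with
    | zero =>
      have := congrArg List.length h
      simp [dn] at this
    | succ k =>
      rw [dn, List.cons.injEq] at h
      obtain ⟨D, hD⟩ := dn_cons P i k
      rw [hD, List.cons.injEq] at h
      have h1 := hA.symm _ _ hJ
      rw [← h.2.1] at h1
      apply hP.nd (i + k)
      have e : i + k + 2 = i + ((k + 1 + 1 : ℕ) : ℤ) := by push_cast; ring
      rw [e]
      exact h1

theorem trip {l m : List V} {a b c : V} (h : l ~r (a :: b :: c :: m)) : ∃ u w, l ++ l.take 2 = u ++ a :: b :: c :: w := by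
  obtain ⟨k, hk, hr⟩ := List.isRotated_iff_mod.1 h
  rw [List.rotate_eq_drop_append_take hk] at hr
  have hl : l = l.take k ++ l.drop k := (List.take_append_drop k l).symm
  by_cases hd0 : l.drop k = []
  · rw [hd0, List.nil_append] at hr
    rw [hd0, List.append_nil, hr] at hl
    refine ⟨[], m ++ (a :: b :: c :: m).take 2, ?_⟩
    rw [hl]
    rfl
  refine ⟨l.take k, ?_⟩
  suffices hs : ∃ w, l.drop k ++ l.take 2 = a :: b :: c :: w by
    obtain ⟨w, hw⟩ := hs
    refine ⟨w, ?_⟩
    rw [← hw, ← List.append_assoc, List.take_append_drop]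
  match hd : l.drop k, hr with
  | [], hr => exact absurd hd hd0
  | [d0], hr =>
    rw [List.singleton_append, List.cons.injEq] at hr
    rw [hd, hr.2] at hl
    refine ⟨[], ?_⟩
    rw [hl, hr.1]
    rfl
  | [d0, d1], hr =>
    rw [List.cons_append, List.singleton_append, List.cons.injEq, List.cons.injEq] at hr
    rw [hd, hr.2.2] at hl
    rw [hl, hr.1, hr.2.1]
    cases m with
    | nil => exact ⟨[a], rfl⟩
    | cons m0 m => exact ⟨[m0], rfl⟩
  | d0 :: d1 :: d2 :: d, hr =>
    rw [List.cons_append, List.cons_append, List.cons_append, List.cons.injEq, List.cons.injEq, List.cons.injEq] at hr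
    refine ⟨d ++ l.take 2, ?_⟩
    rw [hr.1, hr.2.1, hr.2.2.1]
    rfl

/-- sums over walks -/
private theorem ps_app (w : V → V → ℝ) (a c : V) (l l' : List V) : ps w a (l ++ c :: l') = ps w a (l ++ [c]) + ps w c l' := by
  induction l generalizing a with
  | nil => simp [ps]
  | cons b l ih =>
    rw [List.cons_append, List.cons_append, ps, ps, ih b, add_assoc]

private theorem ps_snoc (w : V → V → ℝ) (a b c : V) (l : List V) (h : (a :: l).getLast? = some b) :
    ps w a (l ++ [c]) = ps w a l + w b c := by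
  induction l generalizing a with
  | nil =>
    rw [List.getLast?_singleton, Option.some.injEq] at h
    simp [ps, h]
  | cons d l ih =>
    rw [List.getLast?_cons_cons] at h
    rw [List.cons_append, ps, ps, ih d h, add_assoc]

private theorem ps_T (hA : A.Ax) {x a : V} {l : List V} (h : List.IsChain (A.T x) (a :: l)) :
    ps A.wv a l = (l.length : ℝ) * A.θ x := by
  induction l generalizing a with
  | nil => simp [ps]
  | cons b l ih =>
    rw [List.isChain_cons_cons] at h
    rw [ps, ih h.2, theta_w hA h.1, List.length_cons]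
    push_cast
    ring

private theorem dn_ps (hA : A.Ax) (P : ℤ → V) (i : ℤ) (c : V) (k : ℕ) : ∀ D, dn P i k = P (i + k) :: D →
    ps A.wv (P (i + k)) (D ++ [c]) = ∑ m ∈ Finset.Ico i (i + k), A.W P m + A.wv (P i) c := by
  induction k with
  | zero =>
    intro D hD
    simp only [dn, List.cons.injEq] at hD
    rw [← hD.2]
    simp [ps]
  | succ k ih =>
    intro D hD
    rw [dn, List.cons.injEq] at hD
    obtain ⟨D', hD'⟩ := dn_cons P i k
    rw [← hD.2, hD', List.cons_append, ps, ih D' hD']
    have e : Finset.Ico i (i + ((k + 1 : ℕ) : ℤ)) = insert (i + (k : ℤ)) (Finset.Ico i (i + k)) := by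
      ext m
      simp only [Finset.mem_Ico, Finset.mem_insert]
      push_cast
      omega
    rw [e, Finset.sum_insert (by simp)]
    have e2 : A.wv (P (i + ((k + 1 : ℕ) : ℤ))) (P (i + k)) = A.W P (i + k) := by
      unfold W wv
      rw [hA.wsymm]
      congr 3
      push_cast
      ring
    rw [e2]
    ring

private theorem dn_chain (hA : A.Ax) (hP : A.Ctr n P) (i : ℤ) {c : V} (hc : A.adj (P i) c) (k : ℕ) :
    List.IsChain A.adj (dn P i k ++ [c]) := by
  induction k with
  | zero =>
    show List.IsChain A.adj [P i, c]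
    rw [List.isChain_cons_cons]
    exact ⟨hc, List.isChain_singleton _⟩
  | succ k ih =>
    obtain ⟨D, hD⟩ := dn_cons P i k
    rw [dn, List.cons_append]
    rw [hD, List.cons_append] at ih ⊢
    rw [List.isChain_cons_cons]
    refine ⟨?_, ih⟩
    have h1 := hP.adj (i + k)
    have e : i + k + 1 = i + ((k + 1 : ℕ) : ℤ) := by push_cast; ring
    rw [e] at h1
    exact ⟨fun h => h1.1 h.symm, hA.symm _ _ h1.2⟩

theorem loc_tri (hA : A.Ax) (hP : A.Ctr n P) {x a b : V} {p : List V} {i : ℤ} {k : ℕ} (hx : A.U x) (hp : List.IsChain (A.T x) p)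
    (ha : p.head? = some a) (hb : p.getLast? = some b) (hPx : ∀ m, i ≤ m → m ≤ i + k → A.J x (P m) ∧ P m ≠ x)
    (hEa : A.E x a) (hai : A.J a (P i)) (ha' : a ≠ P i) (hbj : A.J b (P (i + k))) (hb' : b ≠ P (i + k))
    (hs : ((p.length - 1 : ℕ) : ℝ) * A.θ x + ∑ m ∈ Finset.Ico i (i + k), A.W P m < 1) (hl : 4 ≤ p.length + (k + 1)) :
    (∃ u c d w, p = u ++ c :: d :: c :: w) ∨ (∃ y p', p = p' ++ [y, b] ∧ A.J y (P (i + k))) ∨
      (∃ y p', p = a :: y :: p' ∧ A.J y (P i)) ∨ (1 ≤ k ∧ A.J b (P (i + k - 1))) ∨ (1 ≤ k ∧ A.J a (P (i + 1))) ∨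
      (k = 0 ∧ A.J b a) ∨ (p.length = 1 ∧ A.J (P i) (P (i + k))) := by
  have hne : ∀ u v : V, A.J u v → u ≠ v → A.typ u ≠ A.typ v := fun u v h1 h2 h3 => h2 (hA.same u v h1 h3)
  obtain ⟨p1, rfl⟩ : ∃ p1, p = a :: p1 := by
    cases p with
    | nil => simp at ha
    | cons c p1 =>
      rw [List.head?_cons, Option.some.injEq] at ha
      exact ⟨p1, by rw [ha]⟩
  obtain ⟨D, hD⟩ := dn_cons P i k
  -- the closed chain
  have hadjPa : A.adj (P i) a := ⟨fun h => hne _ _ hai ha' h.symm, hA.symm _ _ hai⟩
  have hadjbP : A.adj b (P (i + k)) := ⟨hne _ _ hbj hb', hbj⟩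
  have hmem : ∀ v ∈ (a :: p1) ++ dn P i k, A.adj v x := by
    intro v hv
    rw [List.mem_append] at hv
    rcases hv with hv | hv
    · have hE : A.E x v := by
        rcases List.mem_cons.1 hv with h1 | h1
        · rw [h1]
          exact hEa
        · obtain ⟨s, t, hst⟩ := List.append_of_mem h1
          rw [hst] at hp
          have h2 : ∃ s' c, a :: s = s' ++ [c] := by
            rcases List.eq_nil_or_concat (a :: s) with h3 | ⟨s', c, h3⟩
            · simp at h3
            · exact ⟨s', c, by rw [h3, List.concat_eq_append]⟩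
          obtain ⟨s', c, h3⟩ := h2
          rw [← List.cons_append, h3, List.append_assoc, List.singleton_append, List.isChain_append_cons_cons] at hp
          exact hp.2.1.2.2
      exact ⟨fun h => hE.2.2.1 h.symm, hA.symm _ _ hE.2.2.2⟩
    · obtain ⟨m, h1, h2, rfl⟩ := dn_mem P i k hv
      obtain ⟨h3, h4⟩ := hPx m h1 h2
      exact ⟨hne _ _ (hA.symm _ _ h3) h4, hA.symm _ _ h3⟩
  have hcyc : Cyc A.adj ((a :: p1) ++ dn P i k) := by
    show List.IsChain A.adj (a :: ((p1 ++ dn P i k) ++ [a]))
    rw [← List.cons_append, ← List.cons_append, List.append_assoc, List.isChain_append]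
    refine ⟨hp.imp (fun c d h => h.2.1.2.2), dn_chain hA hP i hadjPa k, ?_⟩
    intro c hc d hd
    rw [hb, Option.mem_some_iff] at hc
    rw [hD, List.cons_append, List.head?_cons, Option.mem_some_iff] at hd
    rw [← hc, ← hd]
    exact hadjbP
  have hcs : csum A.wv ((a :: p1) ++ dn P i k) < 2 := by
    show ps A.wv a ((p1 ++ dn P i k) ++ [a]) < 2
    rw [hD, List.append_assoc, List.cons_append, ps_app, ps_snoc A.wv a b _ p1 hb, ps_T hA hp, dn_ps hA P i a k D hD]
    have h1 : A.wv b (P (i + k)) ≤ 1 / 2 := hA.whalf _ _ hadjbP.1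
    have h2 : A.wv (P i) a ≤ 1 / 2 := hA.whalf _ _ hadjPa.1
    rw [List.length_cons, Nat.add_sub_cancel] at hs
    linarith
  rcases hA.link x hx _ hmem hcyc hcs with h1 | ⟨a', b', c', m, hrot, hJ⟩
  · rw [List.length_append, dn_len] at h1
    omega
  obtain ⟨u, w, huw⟩ := trip hrot
  by_contra hcon
  simp only [not_or] at hcon
  obtain ⟨n1, n2, n3, n4, n5, n6, n7⟩ := hcon
  -- no triples in `p`
  have hNp : A.NT (a :: p1) := by
    intro u c d e w h hJ
    rw [h, List.isChain_append_cons_cons, List.isChain_cons_cons] at hp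
    have h1 := hA.same _ _ hJ (tri_same hA hp.2.1 hp.2.2.1)
    exact n1 ⟨u, c, d, w, by rw [h, ← h1]⟩
  obtain ⟨p0, hp0⟩ : ∃ p0, a :: p1 = p0 ++ [b] := by
    rcases List.eq_nil_or_concat (a :: p1) with h3 | ⟨s', c, h3⟩
    · simp at h3
    · rw [List.concat_eq_append] at h3
      rw [h3, List.getLast?_append, List.getLast?_singleton] at hb
      simp at hb
      exact ⟨s', by rw [h3, hb]⟩
  have hN1 : A.NT (p0 ++ [b, P (i + k)]) := by
    rcases List.eq_nil_or_concat p0 with h3 | ⟨p', y, h3⟩
    · rw [h3]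
      exact nt_two _ _
    · rw [List.concat_eq_append] at h3
      rw [h3, List.append_assoc]
      refine nt_append ?_ (nt_three fun h4 => n2 ⟨y, p', ?_, h4⟩)
      · have e : p' ++ [y, b] = a :: p1 := by rw [hp0, h3, List.append_assoc]; rfl
        rw [e]
        exact hNp
      · rw [hp0, h3, List.append_assoc]
        rfl
  obtain ⟨s, hs1, hs2⟩ : ∃ s, ((a :: p1) ++ dn P i k).take 2 = [a, s] ∧ ¬ A.J (P i) s := by
    cases p1 with
    | nil =>
      refine ⟨P (i + k), ?_, fun h => n7 ⟨rfl, h⟩⟩
      rw [hD]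
      rfl
    | cons y p2 =>
      exact ⟨y, rfl, fun h => n3 ⟨y, p2, rfl, hA.symm _ _ h⟩⟩
  have hfin : A.NT ((a :: p1) ++ dn P i k ++ [a, s]) := by
    cases k with
    | zero =>
      have e : (a :: p1) ++ dn P i 0 ++ [a, s] = p0 ++ b :: P i :: [a, s] := by
        rw [hp0]
        simp [dn]
      rw [e]
      refine nt_append ?_ (nt_four (fun h => n6 ⟨rfl, h⟩) hs2)
      simpa using hN1
    | succ k =>
      obtain ⟨E, hE⟩ := dn_snoc P i k
      have hN2 : A.NT ((a :: p1) ++ dn P i (k + 1)) := by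
        have e : (a :: p1) ++ dn P i (k + 1) = p0 ++ b :: P (i + ((k + 1 : ℕ) : ℤ)) :: dn P i k := by
          rw [hp0, List.append_assoc]
          rfl
        rw [e]
        refine nt_append hN1 ?_
        have h5 : A.NT (dn P i (k + 1)) := nt_dn hA hP i (k + 1)
        rw [dn] at h5
        refine nt_cons h5 ?_
        intro c d w h6 h7
        rw [List.cons.injEq] at h6
        obtain ⟨D', hD'⟩ := dn_cons P i k
        rw [hD', List.cons.injEq] at h6
        refine n4 ⟨by omega, ?_⟩
        have e2 : i + ((k + 1 : ℕ) : ℤ) - 1 = i + k := by push_cast; ring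
        rw [e2, h6.2.1]
        exact h7
      have e : (a :: p1) ++ dn P i (k + 1) ++ [a, s] = ((a :: p1) ++ E) ++ P (i + 1) :: P i :: [a, s] := by
        rw [hE]
        simp
      rw [e]
      refine nt_append ?_ (nt_four (fun h => n5 ⟨by omega, hA.symm _ _ h⟩) hs2)
      rw [hE, ← List.append_assoc] at hN2
      exact hN2
  rw [hs1] at huw
  exact hfin u a' b' c' w huw hJ

end Sys

end Pool.Agent.H52.VK
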