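import Pool.Agent.H52.VK.Ops
import Pool.Agent.H52.VK.Tri

/-!
# [H52 VK LOC] The local claim, spurs (CASE l = 0 below is this file; 45 min)

`loc` (think 1291, section 4, (★)). `W > 0` (`wpos`), so sums over smaller intervals are smaller. Induction on `(j - i).toNat` for all `i j L l` (`i ≤ j` from `Cf`). Let `p` be the path of the sector, `a`, `b` its first and last
vertex (`= ` last and first of `v = L.map fst`), `p.length = l + 1`, `G T (N - l) (pw v ++ pw p)`. Suppose `l θ x + ∑ Ico i j W < 1`. `short`: `j + 2 ≤ i + n`. `last_J`, `head_J`: `J a (P i)`, `J b (P j)`.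
CASE `l = 0`: `p = [a]`, `a = b`. (1) `j ≤ i + 1`: `op_spur` (`m = i` or `m = j`). (2) `x = P k`, `i ≤ k ≤ j`: `chord` for `J x (P j)`, `J x (P i)` (both from `Cf`): `j ≤ k + 1`, `k ≤ i + 1`: `m ∈ {i, j, k}`, `J a (P k)` as `E a x`:
`op_spur`. (3) `a = P i`: `J (P i) (P j)`: `chord` (`i + 2 ≤ j`); `a = P j`: the same. (4) Otherwise `loc_tri` with `k = (j - i).toNat ≥ 2` (`4 ≤ 1 + k + 1`): fold, `op_last`, `op_first` impossible (`p = [a]`); `J b (P (j - 1))`: `op_fwd` and the
induction hypothesis for `i, j - 1` (same `v`, so the same sector; its sum is smaller); `J a (P (i + 1))`: `op_back` and the induction hypothesis for `i + 1, j` (`L'.map fst = L.map fst`); `k = 0` impossible; `J (P i) (P j)`: `chord`.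
CASE `l ≥ 1`. If `a = b`: `Sec T N x 0 v` (path `[a]`; `pw v` has area `≤ N`: `cw (x :: v) = (x, a) :: pw v ++ [(a, x)]`, rotate, `g_del`), the case `l = 0` gives `1 ≤ ∑ W`: contradiction. So `a ≠ b`. (2) `x = P k`: `k ≤ i + 1`, `j ≤ k + 1` by
`chord` as above: `op_push`. (3) `a = P i`: `p = a :: y :: p'`, `E a y` (`T x a y`), `J y (P i)`: `op_first`. `b = P j`: `op_last`. (4) `l = 1` and `i = j`: `p = [a, b]`, `J b a` (`T x a b`): go to (5). Otherwise `loc_tri` (`4 ≤ l + 1 + (k + 1)`): fold: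
`op_unfold`; `op_last`; `op_first`; `J b (P (j - 1))`, `J a (P (i + 1))`: as above; `p.length = 1` impossible; `k = 0` and `J b a`: (5).
(5) `i = j`, `J b a`, `a ≠ b`: `T x b a`; `p` is a closed path in the link, `(l + 1) θ x < 1 + 1/2 < 2`: `gth`: length `2` or a fold: `g_fold`: `G T (N - l + (l + 1 - 2)) (pw v ++ [(a, b)])`, this is `cw v` (`v = b .. a`), area `≤ N - 1`
(`l ≤ N`): `op_remove` (`Cyc E v`: `E a b`).
-/

set_option autoImplicit false

namespace Pool.Agent.H52.VK

namespace Sys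

variable {B V : Type*} {A : Sys B V} {n N : ℕ} {P : ℤ → V}

private theorem W_pos (hA : A.Ax) (P : ℤ → V) (k : ℤ) : 0 < A.W P k := hA.wpos _ _

private theorem sum_mono (hA : A.Ax) (P : ℤ → V) {i j i' j' : ℤ} (h1 : i' ≤ i) (h2 : j ≤ j') :
    ∑ k ∈ Finset.Ico i j, A.W P k ≤ ∑ k ∈ Finset.Ico i' j', A.W P k :=
  Finset.sum_le_sum_of_subset_of_nonneg (Finset.Ico_subset_Ico h1 h2) fun k _ _ => (W_pos hA P k).le

private theorem chordZ (hP : A.Ctr n P) (i j : ℤ) (h1 : i + 2 ≤ j) (h2 : j + 2 ≤ i + n) : ¬ A.J (P i) (P j) := by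
  first
  | exact hP.chord i j h1 h2
  | have h4 := hP.hn
    obtain ⟨t, ht⟩ : ∃ t : ℤ, t = |i| * n := ⟨_, rfl⟩
    have h5 : 0 ≤ i + t := by
      have h6 : |i| ≤ t := by
        rw [ht]
        have : (1 : ℤ) ≤ n := by omega
        nlinarith [abs_nonneg i]
      have := neg_abs_le i
      omega
    have h7 := hP.chord (i + t).toNat (j + t).toNat (by omega) (by omega)
    have h8 : (((i + t).toNat : ℕ) : ℤ) = i + t := Int.toNat_of_nonneg h5
    have h9 : (((j + t).toNat : ℕ) : ℤ) = j + t := Int.toNat_of_nonneg (by omega)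
    rw [h8, h9, ht, per_mul hP, per_mul hP] at h7
    exact h7

/-- the case of a spur -/
theorem loc0 (hA : A.Ax) (hP : A.Ctr n P) (s : ℕ) : ∀ (i j : ℤ) (x : V) (L : List (V × ℤ)), (j - i).toNat = s →
    A.MinConf n P N i ((x, j) :: L) → Sec A.T N x 0 (L.map Prod.fst) → 1 ≤ ∑ k ∈ Finset.Ico i j, A.W P k := by
  induction s using Nat.strong_induction_on with
  | _ s ih =>
  intro i j x L hs h hsec
  by_contra hlt
  rw [not_le] at hlt
  have hsec0 := hsec
  obtain ⟨p, hp, hpl, hph, hpt, -, -⟩ := hsec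
  obtain ⟨a, rfl⟩ : ∃ a, p = [a] := List.length_eq_one_iff.1 (by simpa using hpl)
  have hla : (L.map Prod.fst).getLast? = some a := hph.symm
  have hlb : (L.map Prod.fst).head? = some a := hpt.symm
  obtain ⟨hai, hEax⟩ := last_J hP h hla
  obtain ⟨haj, hExa⟩ := head_J hA h hlb
  have hUx : A.U x := hExa.1
  have hCf : i ≤ j ∧ (∀ k, i ≤ k → k ≤ j → A.J x (P k)) ∧ A.Cf P j L := h.1.2.1
  obtain ⟨hij, hJx, -⟩ := hCf
  have hsh := short hA hP hUx hJx
  rcases le_or_gt j (i + 1) with hj1 | hj1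
  · refine op_spur hA hP h hla hlb fun m hm1 hm2 => ?_
    rcases eq_or_lt_of_le hm1 with h1 | h1
    · rw [← h1]
      exact hai
    · have h2 : m = j := by omega
      rw [h2]
      exact haj
  by_cases hx : ∃ k, i ≤ k ∧ k ≤ j ∧ x = P k
  · obtain ⟨k, hik, hkj, hxk⟩ := hx
    have h1 : j ≤ k + 1 := by
      by_contra h0
      have h2 := hJx j hij le_rfl
      rw [hxk] at h2
      exact chordZ hP k j (by omega) (by omega) h2
    have h2 : k ≤ i + 1 := by
      by_contra h0
      have h3 := hJx i le_rfl hij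
      rw [hxk] at h3
      exact chordZ hP i k (by omega) (by omega) (hA.symm _ _ h3)
    have hak : A.J a (P k) := by
      rw [← hxk]
      exact hEax.2.2.2
    refine op_spur hA hP h hla hlb fun m hm1 hm2 => ?_
    have h3 : m = i ∨ m = k ∨ m = j := by omega
    rcases h3 with rfl | rfl | rfl
    · exact hai
    · exact hak
    · exact haj
  have hchord : ¬ A.J (P i) (P j) := chordZ hP i j (by omega) hsh
  by_cases hx2 : a = P i
  · rw [hx2] at haj
    exact hchord haj
  by_cases hx3 : a = P j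
  · rw [hx3] at hai
    exact hchord (hA.symm _ _ hai)
  obtain ⟨k, hk⟩ : ∃ k : ℕ, j = i + k := ⟨(j - i).toNat, by omega⟩
  have htri := loc_tri hA hP (x := x) (a := a) (b := a) (p := [a]) (i := i) (k := k) hUx hp rfl rfl
    (fun m h1 h2 => ⟨hJx m h1 (by omega), fun h3 => hx ⟨m, h1, by omega, h3.symm⟩⟩) hExa hai hx2
    (by rw [← hk]; exact haj) (by rw [← hk]; exact hx3) (by
      rw [← hk]
      have h1 : (([a].length - 1 : ℕ) : ℝ) = 0 := by simp
      rw [h1, zero_mul, zero_add]
      exact hlt) (by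
      show 4 ≤ 1 + (k + 1)
      omega)
  rcases htri with ⟨u, c, e, w, h1⟩ | ⟨y, p', h1, -⟩ | ⟨y, p', h1, -⟩ | ⟨-, h1⟩ | ⟨-, h1⟩ | ⟨h1, -⟩ | ⟨-, h1⟩
  · have h2 := congrArg List.length h1
    simp only [List.length_append, List.length_cons, List.length_nil] at h2
    omega
  · have h2 := congrArg List.length h1
    simp only [List.length_append, List.length_cons, List.length_nil] at h2
    omega
  · have h2 := congrArg List.length h1
    simp only [List.length_cons, List.length_nil] at h2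
    omega
  · rw [← hk] at h1
    have h2 := op_fwd h hlb (by omega) h1
    have h3 := ih (j - 1 - i).toNat (by omega) i (j - 1) x L rfl h2 hsec0
    have h4 := sum_mono hA P (le_refl i) (show j - 1 ≤ j by omega)
    linarith
  · obtain ⟨L', h2, h3⟩ := op_back hP h hla (by omega) h1
    have h4 := ih (j - (i + 1)).toNat (by omega) (i + 1) j x L' rfl h2 (by rw [h3]; exact hsec0)
    have h5 := sum_mono hA P (show i ≤ i + 1 by omega) (le_refl j)
    linarith
  · omega
  · rw [← hk] at h1
    exact hchord h1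

end Sys

end Pool.Agent.H52.VK
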