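import Pool.Agent.H52.VK.Loc0

/-!
# [H52 VK LOC] The local claim, general case (CASE l >= 1 below is this file; loc0 is in Loc0; 75 min)

`loc` (think 1291, section 4, (★)). `W > 0` (`wpos`), so sums over smaller intervals are smaller. Induction on `(j - i).toNat` for all `i j L l` (`i ≤ j` from `Cf`). Let `p` be the path of the sector, `a`, `b` its first and last
vertex (`= ` last and first of `v = L.map fst`), `p.length = l + 1`, `G T (N - l) (pw v ++ pw p)`. Suppose `l θ x + ∑ Ico i j W < 1`. `short`: `j + 2 ≤ i + n`. `last_J`, `head_J`: `J a (P i)`, `J b (P j)`.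
CASE `l = 0`: `p = [a]`, `a = b`. (1) `j ≤ i + 1`: `op_spur` (`m = i` or `m = j`). (2) `x = P k`, `i ≤ k ≤ j`: `chord` for `J x (P j)`, `J x (P i)` (both from `Cf`): `j ≤ k + 1`, `k ≤ i + 1`: `m ∈ {i, j, k}`, `J a (P k)` as `E a x`:
`op_spur`. (3) `a = P i`: `J (P i) (P j)`: `chord` (`i + 2 ≤ j`); `a = P j`: the same. (4) Otherwise `loc_tri` with `k = (j - i).toNat ≥ 2` (`4 ≤ 1 + k + 1`): fold, `op_last`, `op_first` impossible (`p = [a]`); `J b (P (j - 1))`: `op_fwd` and the
induction hypothesis for `i, j - 1` (same `v`, so the same sector; its sum is smaller); `J a (P (i + 1))`: `op_back` and the induction hypothesis for `i + 1, j` (`L'.map fst = L.map fst`); `k = 0` impossible; `J (P i) (P j)`: `chord`.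
CASE `l ≥ 1`. If `a = b`: `Sec T N x 0 v` (path `[a]`; `pw v` has area `≤ N`: `cw (x :: v) = (x, a) :: pw v ++ [(a, x)]`, rotate, `g_del`), the case `l = 0` gives `1 ≤ ∑ W`: contradiction. So `a ≠ b`. (2) `x = P k`: `k ≤ i + 1`, `j ≤ k + 1` by
`chord` as above: `op_push`. (3) `a = P i`: `p = a :: y :: p'`, `E a y` (`T x a y`), `J y (P i)`: `op_first`. `b = P j`: `op_last`. (4) `l = 1` and `i = j`: `p = [a, b]`, `J b a` (`T x a b`): go to (5). Otherwise `loc_tri` (`4 ≤ l + 1 + (k + 1)`): fold:
`op_unfold`; `op_last`; `op_first`; `J b (P (j - 1))`, `J a (P (i + 1))`: as above; `p.length = 1` impossible; `k = 0` and `J b a`: (5).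
(5) `i = j`, `J b a`, `a ≠ b`: `T x b a`; `p` is a closed path in the link, `(l + 1) θ x < 1 + 1/2 < 2`: `gth`: length `2` or a fold: `g_fold`: `G T (N - l + (l + 1 - 2)) (pw v ++ [(a, b)])`, this is `cw v` (`v = b .. a`), area `≤ N - 1`
(`l ≤ N`): `op_remove` (`Cyc E v`: `E a b`).
-/

set_option autoImplicit false

namespace Pool.Agent.H52.VK

namespace Sys

variable {B V : Type*} {A : Sys B V} {n N : ℕ} {P : ℤ → V}

private theorem loc1_pw {a z : V} {v v' : List V} (h : v = v' ++ [a]) : pw (v ++ [z]) = pw v ++ [(a, z)] := by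
  have h1 := pw_append v' [z] a
  rw [← h] at h1
  have h2 : v ++ [z] = v' ++ a :: [z] := by rw [h]; simp
  rw [h2, h1]
  rfl

/-- chords for integer indices -/
private theorem loc1_chord (hP : A.Ctr n P) {i j : ℤ} (h1 : i + 2 ≤ j) (h2 : j + 2 ≤ i + n) : ¬ A.J (P i) (P j) := by
  first
  | exact hP.chord i j h1 h2
  | skip
    have hn := hP.hn
    have hm : 0 ≤ i + (i.natAbs : ℤ) * n := by
      have h3 : (i.natAbs : ℤ) * 1 ≤ (i.natAbs : ℤ) * n :=
        mul_le_mul_of_nonneg_left (by omega) (by omega)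
      omega
    have hi := per_mul hP i (i.natAbs : ℤ)
    have hj := per_mul hP j (i.natAbs : ℤ)
    obtain ⟨i', hi'⟩ := Int.eq_ofNat_of_zero_le hm
    obtain ⟨j', hj'⟩ := Int.eq_ofNat_of_zero_le (a := j + (i.natAbs : ℤ) * n) (by omega)
    rw [hi'] at hi
    rw [hj'] at hj
    rw [← hi, ← hj]
    exact hP.chord i' j' (by omega) (by omega)

/-- the general case -/
theorem loc1 (hA : A.Ax) (hP : A.Ctr n P) (s : ℕ) : ∀ (i j : ℤ) (x : V) (L : List (V × ℤ)) (l : ℕ), (j - i).toNat = s →
    A.MinConf n P N i ((x, j) :: L) → Sec A.T N x l (L.map Prod.fst) →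
    1 - (l : ℝ) * A.θ x ≤ ∑ k ∈ Finset.Ico i j, A.W P k := by
  induction s using Nat.strong_induction_on with
  | _ s ih =>
  intro i j x L l hs h hsec
  have hX := cx hA
  have hW : ∀ k, 0 < A.W P k := fun k => hA.wpos _ _
  by_contra hcon
  push Not at hcon
  have hθ := theta_pos hA x
  rcases Nat.eq_zero_or_pos l with rfl | hl
  · have h1 := loc0 hA hP s i j x L hs h hsec
    rw [Nat.cast_zero, zero_mul, sub_zero] at hcon
    linarith
  obtain ⟨⟨-, hCf, -, hCyc⟩, hGN, -⟩ := id h
  obtain ⟨hij, hJx, -⟩ := hCf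
  obtain ⟨p, hp, hlen, hhd, hlst, hlN, hG⟩ := id hsec
  obtain ⟨a, ha⟩ : ∃ a, p.head? = some a := by
    cases p with
    | nil => simp at hlen
    | cons a q => exact ⟨a, rfl⟩
  obtain ⟨b, hb⟩ : ∃ b, p.getLast? = some b := by
    rcases hq : p.getLast? with _ | b
    · rw [List.getLast?_eq_none_iff] at hq
      rw [hq] at hlen
      simp at hlen
    · exact ⟨b, rfl⟩
  have hva : (L.map Prod.fst).getLast? = some a := hhd.symm.trans ha
  have hvb : (L.map Prod.fst).head? = some b := hlst.symm.trans hb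
  obtain ⟨hai, hEa⟩ := last_J hP h hva
  obtain ⟨hbj, hEb⟩ := head_J hA h hvb
  have hxU : A.U x := hEb.1
  have hEa' : A.E x a := hX.symm _ _ hEa
  have hsh := short hA hP hxU hJx
  obtain ⟨v', hv'⟩ := List.head?_eq_some_iff.1 hvb
  obtain ⟨v'', hv''⟩ := List.getLast?_eq_some_iff.1 hva
  have hpw : ∀ z, pw (L.map Prod.fst ++ [z]) = pw (L.map Prod.fst) ++ [(a, z)] := fun z => loc1_pw hv''
  have hab : a ≠ b := by
    rintro rfl
    have h0 : Sec A.T N x 0 (L.map Prod.fst) := by
      refine ⟨[a], List.isChain_singleton _, rfl, ?_, ?_, Nat.zero_le _, ?_⟩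
      · rw [hva]
        rfl
      · rw [hvb]
        rfl
      · have h1 : cw (x :: L.map Prod.fst) = ((x, a) :: pw (L.map Prod.fst)) ++ [(a, x)] := by
          have h2 : cw (x :: L.map Prod.fst) = (x, a) :: pw (L.map Prod.fst ++ [x]) := by
            rw [hv']
            rfl
          rw [h2, hpw x]
          rfl
        have h2 : G A.T N (cw (x :: L.map Prod.fst)) := hGN
        rw [h1] at h2
        have h3 : G A.T N ([] ++ (a, x) :: (x, a) :: pw (L.map Prod.fst)) :=
          g_rot hX (u := (x, a) :: pw (L.map Prod.fst)) (v := [(a, x)]) h2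
        have h3 := g_del hX h3
        rw [Nat.sub_zero]
        have h4 : pw (L.map Prod.fst) ++ pw [a] = [] ++ pw (L.map Prod.fst) := by
          rw [List.nil_append]
          exact List.append_nil _
        rw [h4]
        exact h3
    have h1 := loc0 hA hP s i j x L hs h h0
    have h2 : 0 ≤ (l : ℝ) * A.θ x := by positivity
    linarith
  by_cases hxk : ∃ k, i ≤ k ∧ k ≤ j ∧ x = P k
  · obtain ⟨k, hik, hkj, hxk⟩ := hxk
    have hjk : j ≤ k + 1 := by
      by_contra hc
      push Not at hc
      exact loc1_chord hP (i := k) (j := j) (by omega) (by omega)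
        (by rw [← hxk]; exact hJx j hij le_rfl)
    have hki : k ≤ i + 1 := by
      by_contra hc
      push Not at hc
      exact loc1_chord hP (i := i) (j := k) (by omega) (by omega)
        (hA.symm _ _ (by rw [← hxk]; exact hJx i le_rfl hij))
    exact op_push hA hP h hxk hik hki hkj hjk hp (by omega) hhd hlst hG (by omega)
  obtain ⟨y, p', hpy⟩ : ∃ y p', p = a :: y :: p' := by
    cases p with
    | nil => simp at ha
    | cons a0 q =>
      have h1 : a0 = a := by simpa using ha
      subst h1
      cases q with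
      | nil =>
        simp at hlen
        omega
      | cons y q => exact ⟨y, q, rfl⟩
  obtain ⟨z, p'', hpz⟩ : ∃ z p'', p = p'' ++ [z, b] := by
    obtain ⟨r, hr⟩ := List.getLast?_eq_some_iff.1 hb
    rcases List.eq_nil_or_concat r with rfl | ⟨r', z, rfl⟩
    · rw [hr] at hlen
      simp at hlen
      omega
    · exact ⟨z, r', by rw [hr, List.concat_eq_append]; simp⟩
  have hTy : A.T x a y := by
    have h1 := hp
    rw [hpy, List.isChain_cons_cons] at h1
    exact h1.1
  have hTz : A.T x z b := by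
    have h1 := hp
    rw [hpz, List.isChain_split, List.isChain_cons_cons] at h1
    exact h1.2.1
  have hly : p'.length = l - 1 := by
    have h1 := congrArg List.length hpy
    simp only [List.length_cons] at h1
    omega
  have hlz : p''.length = l - 1 := by
    have h1 := congrArg List.length hpz
    simp only [List.length_append, List.length_cons, List.length_nil] at h1
    omega
  have first : ∀ y q, p = a :: y :: q → A.J y (P i) → False := by
    intro y q hq hJ
    have h1 := congrArg List.length hq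
    simp only [List.length_cons] at h1
    exact op_first hA hP h (hq ▸ hp) hva (by rw [← hq]; exact hlst) (by rw [← hq]; exact hG)
      (by omega) hJ
  have last : ∀ y q, p = q ++ [y, b] → A.J y (P j) → False := by
    intro y q hq hJ
    have h1 := congrArg List.length hq
    simp only [List.length_append, List.length_cons, List.length_nil] at h1
    exact op_last hA hP h (hq ▸ hp) hvb (by rw [← hq]; exact hhd) (by rw [← hq]; exact hG)
      (by omega) hJ
  by_cases haP : a = P i
  · refine first y p' hpy ?_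
    rw [← haP]
    exact hA.symm _ _ hTy.2.1.2.2.2
  by_cases hbP : b = P j
  · refine last z p'' hpz ?_
    rw [← hbP]
    exact hTz.2.1.2.2.2
  have key5 : i = j → A.J b a → False := by
    intro hij5 hJba
    have hEab : A.E b a := ⟨hEb.2.1, hEa.1, fun ht => hab (hA.same _ _ hJba ht).symm, hJba⟩
    have hT5 : A.T x b a := ⟨hEb, hEab, hEa'⟩
    have hcy : Cyc (A.T x) p := by
      have h1 : List.IsChain (A.T x) (p ++ [a]) := by
        have h2 : p ++ [a] = (p'' ++ [z]) ++ b :: [a] := by rw [hpz]; simp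
        rw [h2, List.isChain_split, List.isChain_cons_cons]
        refine ⟨?_, hT5, List.isChain_singleton _⟩
        have h3 : p'' ++ [z] ++ [b] = p := by rw [hpz]; simp
        rw [h3]
        exact hp
      rw [hpy] at h1 ⊢
      exact h1
    have hsum : ∑ k ∈ Finset.Ico i j, A.W P k = 0 := by
      rw [hij5, Finset.Ico_self, Finset.sum_empty]
    have hh := theta_half hA x
    have h6 := gth hA x p (by rw [hpy]; exact List.cons_ne_nil _ _) hcy (by
      rw [hlen]
      push_cast
      nlinarith)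
    have h7 := g_fold hX hp ha hb hT5 h6 hG
    have h8 : cw (L.map Prod.fst) = pw (L.map Prod.fst) ++ [(a, b)] := by
      rw [← hpw b]
      conv_lhs => rw [hv']
      conv_rhs => rw [hv']
      rfl
    rw [← h8] at h7
    have hcE : Cyc A.E (L.map Prod.fst) := by
      have h1 : List.IsChain A.E (x :: (L.map Prod.fst ++ [x])) := hCyc
      have h2 : x :: (L.map Prod.fst ++ [x]) = (x :: v'') ++ a :: [x] := by rw [hv'']; simp
      rw [h2, List.isChain_split] at h1
      have h3 : List.IsChain A.E (v'' ++ [a]) := by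
        have h4 := h1.1
        rw [List.cons_append] at h4
        exact h4.tail
      have h5 : List.IsChain A.E (L.map Prod.fst ++ [b]) := by
        have h6 : L.map Prod.fst ++ [b] = v'' ++ a :: [b] := by rw [hv'']; simp
        rw [h6, List.isChain_split, List.isChain_cons_cons]
        exact ⟨h3, hX.symm _ _ hEab, List.isChain_singleton _⟩
      rw [hv'] at h5 ⊢
      exact h5
    have hL : L ≠ [] := by
      rintro rfl
      simp at hva
    subst hij5
    exact op_remove h hcE hL h7 (by omega)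
  by_cases h4 : l = 1 ∧ i = j
  · refine key5 h4.2 ?_
    have h1 : p'' = [] := List.eq_nil_of_length_eq_zero (by omega)
    rw [hpz, h1] at ha
    have h2 : z = a := by simpa using ha
    rw [← h2]
    exact hA.symm _ _ hTz.2.1.2.2.2
  obtain ⟨k, hk⟩ : ∃ k : ℕ, j = i + k := ⟨(j - i).toNat, by omega⟩
  subst hk
  have hks : k = s := by omega
  have hPx : ∀ m, i ≤ m → m ≤ i + k → A.J x (P m) ∧ P m ≠ x := fun m h1 h2 =>
    ⟨hJx m h1 h2, fun h3 => hxk ⟨m, h1, h2, h3.symm⟩⟩
  have hss : ((p.length - 1 : ℕ) : ℝ) * A.θ x + ∑ m ∈ Finset.Ico i (i + k), A.W P m < 1 := by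
    rw [hlen, Nat.add_sub_cancel]
    linarith
  rcases loc_tri hA hP hxU hp ha hb hPx hEa' hai haP hbj hbP hss (by omega) with
    ⟨u, c, d, w, hpe⟩ | ⟨y1, q, hq, hJ⟩ | ⟨y1, q, hq, hJ⟩ | ⟨hk1, hJ⟩ | ⟨hk1, hJ⟩ | ⟨hk0, hJ⟩ | ⟨hl1, -⟩
  · exact op_unfold hA h hpe hp hhd hlst hG (by omega)
  · exact last y1 q hq hJ
  · exact first y1 q hq hJ
  · have h5 := op_fwd h hvb (by omega) hJ
    have h6 := ih (s - 1) (by omega) i (i + k - 1) x L l (by omega) h5 hsec
    have h7 : ∑ m ∈ Finset.Ico i (i + k - 1), A.W P m ≤ ∑ m ∈ Finset.Ico i (i + k), A.W P m :=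
      Finset.sum_le_sum_of_subset_of_nonneg (Finset.Ico_subset_Ico_right (by omega))
        (fun _ _ _ => (hW _).le)
    linarith
  · obtain ⟨L', h5, hL'⟩ := op_back hP h hva (by omega) hJ
    have h6 := ih (s - 1) (by omega) (i + 1) (i + k) x L' l (by omega) h5 (by rw [hL']; exact hsec)
    have h7 : ∑ m ∈ Finset.Ico (i + 1) (i + k), A.W P m ≤ ∑ m ∈ Finset.Ico i (i + k), A.W P m :=
      Finset.sum_le_sum_of_subset_of_nonneg (Finset.Ico_subset_Ico_left (by omega))
        (fun _ _ _ => (hW _).le)
    linarith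
  · exact key5 (by omega) hJ
  · omega

end Sys

end Pool.Agent.H52.VK
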