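import Pool.Agent.H52.VK.Cnf

/-!
# [H52 VK OPS] Changes of a configuration (2 hands: 90 min)

`P` is a `Ctr`, `(x, j) :: L` is a minimal configuration with incoming label `i`; `a` = the last vertex of `L` (predecessor of `x`), `b` = the first vertex of `L` (successor). The last label is `i + n`: `L = L₄ ++ [(a, i + n)]`
(`ll`, `conf`), and `J a (P i)` (`per`). Every lemma: write down the new configuration and contradict the minimality (third part of `MinConf`).
`op_spur`: `L = [(a, i + n)]` (then `J a (P m)` for `j ≤ m ≤ i + n` and for `i ≤ m ≤ j`: all `m` by `per`: `short`), or `L = (a, c) :: L₃ ++ [(a, i + n)]`, `L₃ ≠ []` (else `E a a`): new `Conf c (L₃ ++ [(a, c + n)])`: the last entry: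
incoming label `ν = ll c L₃ ≤ i + n ≤ j + n ≤ c + n`, and `J a (P m)` on `[ν, i + n]` (old last entry), `[i + n, j + n]` (`hJ`), `[j + n, c + n]` (entry `(a, c)`). Its walk is the old one without `x` and one `a`: the old `cw` is a rotation of
`cw (a :: x :: a :: L₃)`, `g_del`: the same area, smaller length.
`op_first`: new `Conf i ((x, j) :: (L ++ [(y, i + n)]))`. Area: `v = L.map fst`: `G T k (pw v ++ (a, y) :: pw (y :: p))`; `cone` for `y :: p`: `G T p.length ((x, y) :: (pw (y :: p) ++ [(b, x)]))`; rotate, `g_rev`/`g_swap`: replace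
`pw (y :: p)` by `(y, x), (x, b)`: `G T (k + p.length) (pw v ++ [(a, y), (y, x), (x, b)])`, a rotation of `cw (x :: (v ++ [y]))`; `k + p.length < N`.
`op_last`: the same with `(x, j) :: (y, j) :: L`; replace `pw (p ++ [y])` by `(a, x), (x, y)`.
`op_back`: new `Conf (i + 1) ((x, j) :: (L₄ ++ [(a, i + 1 + n)]))`. `op_fwd`: new `Conf i ((x, j - 1) :: L)`. The walks are the same, so minimality is inherited.
`op_remove`: `Conf i L`. `op_push`: `x = P k`; new `Conf k (L₄ ++ [(a, k + n)] ++ ys.map (·, k + n))`, `p = a :: (ys ++ [b])`; the first entry of it has the incoming label `k ≥ j - 1` instead of `j` (`J b (P k)` as `b` is adjacent to `x`), the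
entry of `a` the outgoing label `k + n ≤ i + 1 + n` (`J a (P k)`). If `L₄ = []` then `a = b` is the first entry. Its word is `pw v ++ pw p`.
`op_unfold`: `p = u ++ c :: d :: c :: w`: `g_del` in `pw p`: `G T k (pw v ++ pw (u ++ c :: w))`, `cone` for `u ++ c :: w`, replace it by `(a, x), (x, b)`: `G T (k + (l - 2))` of `cw (x :: v)`, `l = p.length - 1`, `k + l ≤ N`: smaller than `N`.
-/

set_option autoImplicit false

namespace Pool.Agent.H52.VK

namespace Sys

variable {B V : Type*} {A : Sys B V} {n N : ℕ} {P : ℤ → V} {i j : ℤ} {x : V} {L : List (V × ℤ)}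

/-! private lemmas -/

private theorem last_split {j i : ℤ} {n : ℕ} {L : List (V × ℤ)} {v : V} (h : ll j L = i + n)
    (ha : (L.map Prod.fst).getLast? = some v) : ∃ L₄, L = L₄ ++ [(v, i + (n : ℤ))] := by
  rcases List.eq_nil_or_concat L with h1 | ⟨L₄, ⟨c, μ⟩, h1⟩
  · rw [h1] at ha
    simp at ha
  · rw [List.concat_eq_append] at h1
    rw [h1, List.map_append, List.map_cons, List.map_nil, List.getLast?_append] at ha
    have h2 : c = v := by simpa using ha
    have h3 : μ = i + n := by
      rw [h1, ll_append] at h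
      exact h
    exact ⟨L₄, by rw [h1, h2, h3]⟩

private theorem head_split {L : List (V × ℤ)} {b : V} (hb : (L.map Prod.fst).head? = some b) :
    ∃ c M, L = (b, c) :: M := by
  cases L with
  | nil => simp at hb
  | cons e M =>
    obtain ⟨b', c⟩ := e
    have h1 : b' = b := by simpa using hb
    exact ⟨c, M, by rw [h1]⟩

private theorem per1 (hP : A.Ctr n P) (k : ℤ) : P (k + n) = P k := hP.per k

/-- replace a path in the link of `x` by the two radii -/
private theorem cone_swap (hA : A.Ax) {x a b : V} {q : List V} {k : ℕ} {u : List (V × V)} (h : List.IsChain (A.T x) q)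
    (ha : q.head? = some a) (hb : q.getLast? = some b) (hG : G A.T k (u ++ pw q)) :
    G A.T (k + (q.length - 1)) (u ++ [(a, x), (x, b)]) := by
  have h1 := g_rev (cx hA) (cone (cx hA) h ha hb)
  refine g_swap (cx hA) hG ?_
  have e : (((x, a) :: (pw q ++ [(b, x)])).map Prod.swap).reverse =
      [(x, b)] ++ (((pw q).map Prod.swap).reverse ++ [(a, x)]) := by
    simp
  rw [e] at h1
  have h2 := g_rot (cx hA) h1
  simpa using h2

private theorem chain_e {x : V} {q : List V} (h : List.IsChain (A.T x) q) : List.IsChain A.E q :=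
  List.IsChain.imp (fun _ _ h => h.2.1) h

private theorem cyc_cons {x : V} {v : List V} : Cyc A.E (x :: v) ↔ List.IsChain A.E (x :: (v ++ [x])) := Iff.rfl

/-- the last edge of the walk -/
private theorem cyc_last {x a : V} {v : List V} (h : Cyc A.E (x :: (v ++ [a]))) :
    List.IsChain A.E (x :: (v ++ [a])) ∧ A.E a x := by
  have h1 : List.IsChain A.E ((x :: v) ++ a :: [x]) := by
    have h2 : List.IsChain A.E (x :: ((v ++ [a]) ++ [x])) := h
    have e : x :: ((v ++ [a]) ++ [x]) = (x :: v) ++ a :: [x] := by simp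
    rwa [e] at h2
  rw [List.isChain_split] at h1
  refine ⟨h1.1, ?_⟩
  have h3 := h1.2
  rw [List.isChain_cons_cons] at h3
  exact h3.1

private theorem cyc_last' {x a : V} {v : List V} (h1 : List.IsChain A.E (x :: (v ++ [a]))) (h2 : A.E a x) :
    Cyc A.E (x :: (v ++ [a])) := by
  have h3 : List.IsChain A.E ((x :: v) ++ a :: [x]) := by
    rw [List.isChain_split]
    exact ⟨h1, by rw [List.isChain_cons_cons]; exact ⟨h2, List.isChain_singleton x⟩⟩
  have e : (x :: v) ++ a :: [x] = x :: ((v ++ [a]) ++ [x]) := by simp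
  rw [e] at h3
  exact h3

theorem last_J (hP : A.Ctr n P) (h : A.MinConf n P N i ((x, j) :: L)) {a : V} (ha : (L.map Prod.fst).getLast? = some a) :
    A.J a (P i) ∧ A.E a x := by
  obtain ⟨L₄, rfl⟩ := last_split (j := j) (L := L) h.1.2.2.1 ha
  have h1 := h.1.2.1.2.2
  rw [cf_append] at h1
  obtain ⟨_, h2, h3, _⟩ := h1
  refine ⟨?_, ?_⟩
  · have h4 := h3 (i + n) h2 le_rfl
    rwa [per1 hP] at h4
  · have h4 := h.1.2.2.2
    rw [List.map_cons, List.map_append] at h4
    exact (cyc_last h4).2

theorem head_J (hA : A.Ax) (h : A.MinConf n P N i ((x, j) :: L)) {b : V} (hb : (L.map Prod.fst).head? = some b) : A.J b (P j) ∧ A.E x b := by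
  obtain ⟨c, M, rfl⟩ := head_split hb
  obtain ⟨h1, h2, _⟩ := h.1.2.1.2.2
  refine ⟨h2 j le_rfl h1, ?_⟩
  have h4 : List.IsChain A.E (x :: b :: (M.map Prod.fst ++ [x])) := h.1.2.2.2
  rw [List.isChain_cons_cons] at h4
  exact h4.1

theorem op_spur (hA : A.Ax) (hP : A.Ctr n P) (h : A.MinConf n P N i ((x, j) :: L)) {a : V} (ha : (L.map Prod.fst).getLast? = some a)
    (hb : (L.map Prod.fst).head? = some a) (hJ : ∀ m, i ≤ m → m ≤ j → A.J a (P m)) : False := by
  have hE := (last_J hP h ha).2
  obtain ⟨L₄, hL4⟩ := last_split (j := j) (L := L) h.1.2.2.1 ha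
  have hij : i ≤ j := h.1.2.1.1
  cases L₄ with
  | nil =>
    rw [List.nil_append] at hL4
    have h1 := h.1.2.1.2.2
    rw [hL4] at h1
    obtain ⟨h2, h3, _⟩ := h1
    have h4 := short hA hP hE.1 (i := i) (j := i + n) (fun k hk1 hk2 => by
      by_cases hk : k ≤ j
      · exact hJ k hk1 hk
      · exact h3 k (by omega) hk2)
    omega
  | cons e L₃ =>
    obtain ⟨a', c⟩ := e
    have haa : a' = a := by
      rw [hL4] at hb
      simpa using hb
    rw [haa] at hL4
    subst hL4
    have hcf := h.1.2.1.2.2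
    obtain ⟨h2, h3, h4⟩ := hcf
    change A.Cf P c (L₃ ++ [(a, i + (n : ℤ))]) at h4
    rw [cf_append] at h4
    obtain ⟨h5, h6, h7, _⟩ := h4
    have hcyc : List.IsChain A.E (x :: a :: (L₃.map Prod.fst ++ [a] ++ [x])) := by
      have h8 := h.1.2.2.2
      rw [List.map_cons, List.cons_append, List.map_cons, List.map_append] at h8
      exact h8
    rw [List.isChain_cons_cons] at hcyc
    have hch : List.IsChain A.E (a :: (L₃.map Prod.fst ++ [a])) := by
      have h9 : List.IsChain A.E ((a :: L₃.map Prod.fst) ++ a :: [x]) := by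
        have e1 : (a :: L₃.map Prod.fst) ++ a :: [x] = a :: (L₃.map Prod.fst ++ [a] ++ [x]) := by simp
        rw [e1]
        exact hcyc.2
      rw [List.isChain_split] at h9
      exact h9.1
    have hrot : (a :: L₃.map Prod.fst) ~r (L₃ ++ [(a, c + (n : ℤ))]).map Prod.fst := by
      rw [List.map_append, List.map_cons, List.map_nil]
      exact (List.isRotated_concat _ _).symm
    have hconf : A.Conf n P c (L₃ ++ [(a, c + n)]) := by
      refine ⟨fun h0 => ?_, ?_, ?_, ?_⟩
      · have := congrArg List.length h0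
        rw [List.length_append, List.length_singleton, List.length_nil] at this
        omega
      · rw [cf_append]
        refine ⟨h5, by omega, fun k hk1 hk2 => ?_, trivial⟩
        by_cases hk : k ≤ i + n
        · exact h7 k hk1 hk
        · have e2 : P k = P (k - n) := by
            have := hP.per (k - n)
            rw [sub_add_cancel] at this
            exact this
          rw [e2]
          by_cases hk' : k - n ≤ j
          · exact hJ _ (by omega) hk'
          · exact h3 _ (by omega) (by omega)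
      · rw [ll_append]
        rfl
      · exact Cyc.rot (l := a :: L₃.map Prod.fst) hch hrot
    have hG : G A.T N (cw (a :: L₃.map Prod.fst)) := by
      have h8 := h.1.2.2.2
      have h9 : G A.T N (cw (x :: a :: (L₃.map Prod.fst ++ [a]))) := by
        have h10 := h.2.1
        rw [List.map_cons, List.cons_append, List.map_cons, List.map_append] at h10
        exact h10
      have hr : (x :: a :: (L₃.map Prod.fst ++ [a])) ~r (a :: x :: a :: L₃.map Prod.fst) := by
        have e3 : (x :: a :: (L₃.map Prod.fst ++ [a])) = (x :: a :: L₃.map Prod.fst) ++ [a] := by simp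
        rw [e3]
        exact List.isRotated_concat _ _
      have h11 := g_isrot (cx hA) h9 (cw_rot hr)
      have e4 : cw (a :: x :: a :: L₃.map Prod.fst) = [] ++ (a, x) :: (x, a) :: cw (a :: L₃.map Prod.fst) := rfl
      rw [e4] at h11
      have h12 := g_del (cx hA) h11
      rwa [List.nil_append] at h12
    obtain ⟨_, h13⟩ := h.2.2 c _ N hconf (g_isrot (cx hA) hG (cw_rot hrot))
    have h14 := h13 rfl
    simp only [List.length_cons, List.length_append, List.length_nil] at h14
    omega

theorem op_first (hA : A.Ax) (hP : A.Ctr n P) (h : A.MinConf n P N i ((x, j) :: L)) {a y : V} {p : List V} {k : ℕ}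
    (hp : List.IsChain (A.T x) (a :: y :: p)) (ha : (L.map Prod.fst).getLast? = some a)
    (hb : (a :: y :: p).getLast? = (L.map Prod.fst).head?) (hG : G A.T k (pw (L.map Prod.fst) ++ pw (a :: y :: p)))
    (hk : k + p.length + 1 ≤ N) (hJ : A.J y (P i)) : False := by
  obtain ⟨L₄, hL4⟩ := last_split (j := j) (L := L) h.1.2.2.1 ha
  have hij : i ≤ j := h.1.2.1.1
  rw [List.isChain_cons_cons] at hp
  obtain ⟨hT, hp2⟩ := hp
  obtain ⟨b, hb'⟩ : ∃ b, (L.map Prod.fst).head? = some b := by
    cases hL : L.map Prod.fst with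
    | nil => rw [hL] at ha; simp at ha
    | cons b v => exact ⟨b, rfl⟩
  have hbl : (y :: p).getLast? = some b := by
    rw [← hb', ← hb, List.getLast?_cons_cons]
  have hconf : A.Conf n P i ((x, j) :: (L ++ [(y, i + n)])) := by
    refine ⟨List.cons_ne_nil _ _, ⟨hij, h.1.2.1.2.1, ?_⟩, ?_, ?_⟩
    · rw [cf_append]
      have h3 : ll j L = i + n := h.1.2.2.1
      rw [h3]
      refine ⟨h.1.2.1.2.2, le_rfl, fun m hm1 hm2 => ?_, trivial⟩
      have h4 : m = i + n := le_antisymm hm2 hm1
      rw [h4, per1 hP]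
      exact hJ
    · change ll j (L ++ [(y, i + (n : ℤ))]) = i + n
      rw [ll_append]
      rfl
    · rw [List.map_cons, List.map_append]
      refine cyc_last' ?_ ?_
      · have h4 := h.1.2.2.2
        rw [hL4, List.map_cons, List.map_append] at h4
        have h5 := (cyc_last h4).1
        rw [hL4, List.map_append]
        have h6 : List.IsChain A.E ((x :: L₄.map Prod.fst) ++ a :: [y]) := by
          rw [List.isChain_split]
          exact ⟨h5, by rw [List.isChain_cons_cons]; exact ⟨hT.2.1, List.isChain_singleton y⟩⟩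
        have e1 : (x :: L₄.map Prod.fst) ++ a :: [y] =
            x :: (L₄.map Prod.fst ++ [(a, i + (n : ℤ))].map Prod.fst ++ [(y, i + (n : ℤ))].map Prod.fst) := by simp
        rwa [e1] at h6
      · exact (cx hA).symm _ _ hT.2.2
  have hG1 : G A.T k ((pw (L.map Prod.fst) ++ [(a, y)]) ++ pw (y :: p)) := by
    have e1 : (pw (L.map Prod.fst) ++ [(a, y)]) ++ pw (y :: p) = pw (L.map Prod.fst) ++ pw (a :: y :: p) := by
      rw [List.append_assoc]
      rfl
    rw [e1]
    exact hG
  have hG2 := cone_swap hA hp2 (a := y) rfl hbl hG1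
  have hG3 : G A.T (k + p.length) (cw (((x, j) :: (L ++ [(y, i + n)])).map Prod.fst)) := by
    rw [List.map_cons, List.map_append, List.map_cons, List.map_nil]
    obtain ⟨c, M, hM⟩ := head_split hb'
    have e1 : cw (x :: (L.map Prod.fst ++ [y])) = [(x, b)] ++ (pw (L.map Prod.fst) ++ [(a, y)] ++ [(y, x)]) := by
      have e2 : cw (x :: (L.map Prod.fst ++ [y])) = pw (x :: (L.map Prod.fst ++ [y] ++ [x])) := rfl
      have e3 : pw (L.map Prod.fst ++ [y] ++ [x]) = pw (L.map Prod.fst) ++ [(a, y)] ++ [(y, x)] := by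
        rw [hL4, List.map_append]
        have e4 : L₄.map Prod.fst ++ List.map Prod.fst [(a, i + (n : ℤ))] ++ [y] ++ [x] = L₄.map Prod.fst ++ a :: [y, x] := by simp
        rw [e4, pw_append]
        simp [pw]
      have e5 : pw (x :: (L.map Prod.fst ++ [y] ++ [x])) = (x, b) :: pw (L.map Prod.fst ++ [y] ++ [x]) := by
        rw [hM]
        rfl
      rw [e2, e5, e3]
      rfl
    rw [e1]
    refine g_rot (cx hA) ?_
    have h5 : (y :: p).length - 1 = p.length := by simp
    rw [h5] at hG2
    simpa using hG2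
  have h6 := (h.2.2 i _ _ hconf hG3).1
  omega

theorem op_last (hA : A.Ax) (hP : A.Ctr n P) (h : A.MinConf n P N i ((x, j) :: L)) {b y : V} {p : List V} {k : ℕ}
    (hp : List.IsChain (A.T x) (p ++ [y, b])) (hb : (L.map Prod.fst).head? = some b)
    (ha : (p ++ [y, b]).head? = (L.map Prod.fst).getLast?) (hG : G A.T k (pw (L.map Prod.fst) ++ pw (p ++ [y, b])))
    (hk : k + p.length + 1 ≤ N) (hJ : A.J y (P j)) : False := by
  have hij : i ≤ j := h.1.2.1.1
  obtain ⟨c, M, hM⟩ := head_split hb
  obtain ⟨a, ha'⟩ : ∃ a, (L.map Prod.fst).getLast? = some a := by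
    cases hL : (L.map Prod.fst).getLast? with
    | none =>
      rw [List.getLast?_eq_none_iff] at hL
      rw [hL] at hb
      simp at hb
    | some a => exact ⟨a, rfl⟩
  obtain ⟨L₄, hL4⟩ := last_split (j := j) (L := L) h.1.2.2.1 ha'
  have hsp : List.IsChain (A.T x) (p ++ [y]) ∧ A.T x y b := by
    rw [List.isChain_split] at hp
    refine ⟨hp.1, ?_⟩
    have h1 := hp.2
    rw [List.isChain_cons_cons] at h1
    exact h1.1
  obtain ⟨hp2, hT⟩ := hsp
  have hah : (p ++ [y]).head? = some a := by
    rw [← ha', ← ha]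
    cases p with
    | nil => rfl
    | cons e p => rfl
  have hyl : (p ++ [y]).getLast? = some y := by
    simp
  have hconf : A.Conf n P i ((x, j) :: (y, j) :: L) := by
    refine ⟨List.cons_ne_nil _ _, ⟨hij, h.1.2.1.2.1, le_rfl, ?_, h.1.2.1.2.2⟩, h.1.2.2.1, ?_⟩
    · intro m hm1 hm2
      have h4 : m = j := le_antisymm hm2 hm1
      rw [h4]
      exact hJ
    · have h4 : List.IsChain A.E (x :: (L.map Prod.fst ++ [x])) := h.1.2.2.2
      rw [hM, List.map_cons, List.cons_append, List.isChain_cons_cons] at h4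
      change List.IsChain A.E (x :: y :: (L.map Prod.fst ++ [x]))
      rw [hM, List.map_cons, List.cons_append, List.isChain_cons_cons, List.isChain_cons_cons]
      exact ⟨hT.1, hT.2.1, h4.2⟩
  have hG1 : G A.T k (((y, b) :: pw (L.map Prod.fst)) ++ pw (p ++ [y])) := by
    have e1 : pw (p ++ [y, b]) = pw (p ++ [y]) ++ [(y, b)] := pw_append p [b] y
    rw [e1, ← List.append_assoc] at hG
    exact g_rot (cx hA) (u := pw (L.map Prod.fst) ++ pw (p ++ [y])) (v := [(y, b)]) hG
  have hG2 := cone_swap hA hp2 hah hyl hG1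
  have hG3 : G A.T (k + p.length) (cw (((x, j) :: (y, j) :: L).map Prod.fst)) := by
    rw [List.map_cons, List.map_cons]
    have e1 : cw (x :: y :: L.map Prod.fst) = [(x, y)] ++ (((y, b) :: pw (L.map Prod.fst)) ++ [(a, x)]) := by
      have e2 : cw (x :: y :: L.map Prod.fst) = (x, y) :: pw (y :: (L.map Prod.fst ++ [x])) := rfl
      have e3 : pw (L.map Prod.fst ++ [x]) = pw (L.map Prod.fst) ++ [(a, x)] := by
        rw [hL4, List.map_append]
        have e4 : L₄.map Prod.fst ++ List.map Prod.fst [(a, i + (n : ℤ))] ++ [x] = L₄.map Prod.fst ++ a :: [x] := by simp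
        rw [e4, pw_append]
        simp [pw]
      have e5 : pw (y :: (L.map Prod.fst ++ [x])) = (y, b) :: pw (L.map Prod.fst ++ [x]) := by
        rw [hM]
        rfl
      rw [e2, e5, e3]
      rfl
    rw [e1]
    refine g_rot (cx hA) ?_
    have h5 : (p ++ [y]).length - 1 = p.length := by simp
    rw [h5] at hG2
    simpa using hG2
  have h6 := (h.2.2 i _ _ hconf hG3).1
  omega

theorem op_back (hP : A.Ctr n P) (h : A.MinConf n P N i ((x, j) :: L)) {a : V} (ha : (L.map Prod.fst).getLast? = some a)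
    (hij : i < j) (hJ : A.J a (P (i + 1))) : ∃ L', A.MinConf n P N (i + 1) ((x, j) :: L') ∧ L'.map Prod.fst = L.map Prod.fst := by
  obtain ⟨L₄, rfl⟩ := last_split (j := j) (L := L) h.1.2.2.1 ha
  have hm : (L₄ ++ [(a, i + 1 + (n : ℤ))]).map Prod.fst = (L₄ ++ [(a, i + (n : ℤ))]).map Prod.fst := by simp
  refine ⟨L₄ ++ [(a, i + 1 + n)], ⟨⟨List.cons_ne_nil _ _, ⟨by omega, ?_, ?_⟩, ?_, ?_⟩, ?_, ?_⟩, hm⟩
  · intro k hk1 hk2
    exact h.1.2.1.2.1 k (by omega) hk2
  · have h1 := h.1.2.1.2.2
    rw [cf_append] at h1 ⊢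
    obtain ⟨h2, h3, h4, _⟩ := h1
    refine ⟨h2, by omega, fun k hk1 hk2 => ?_, trivial⟩
    by_cases hk : k ≤ i + n
    · exact h4 k hk1 hk
    · have e1 : k = i + 1 + n := by omega
      rw [e1, per1 hP]
      exact hJ
  · change ll j (L₄ ++ [(a, i + 1 + (n : ℤ))]) = i + 1 + n
    rw [ll_append]
    rfl
  · rw [List.map_cons, hm]
    exact h.1.2.2.2
  · rw [List.map_cons, hm]
    exact h.2.1
  · intro i' L' N' h1 h2
    obtain ⟨h3, h4⟩ := h.2.2 i' L' N' h1 h2
    refine ⟨h3, fun h5 => ?_⟩
    have h6 := h4 h5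
    simp only [List.length_cons, List.length_append, List.length_nil] at h6 ⊢
    exact h6

theorem op_fwd (h : A.MinConf n P N i ((x, j) :: L)) {b : V} (hb : (L.map Prod.fst).head? = some b)
    (hij : i < j) (hJ : A.J b (P (j - 1))) : A.MinConf n P N i ((x, j - 1) :: L) := by
  obtain ⟨c, M, rfl⟩ := head_split hb
  obtain ⟨⟨h1, h2, h3, h4⟩, h5, h6⟩ := h
  refine ⟨⟨List.cons_ne_nil _ _, ⟨by omega, ?_, ?_, ?_, h2.2.2.2.2⟩, h3, h4⟩, h5, h6⟩
  · intro k hk1 hk2
    exact h2.2.1 k hk1 (by omega)
  · have := h2.2.2.1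
    omega
  · intro k hk1 hk2
    by_cases hk : k = j - 1
    · rw [hk]
      exact hJ
    · exact h2.2.2.2.1 k (by omega) hk2

theorem op_remove (h : A.MinConf n P N i ((x, i) :: L)) {m : ℕ} (hc : Cyc A.E (L.map Prod.fst)) (hL : L ≠ [])
    (hG : G A.T m (cw (L.map Prod.fst))) (hm : m < N) : False := by
  obtain ⟨h1, _⟩ := h.2.2 i L m ⟨hL, h.1.2.1.2.2, h.1.2.2.1, hc⟩ hG
  omega

private theorem chain_mem {x : V} : ∀ {p : List V}, List.IsChain (A.T x) p → 2 ≤ p.length → ∀ y ∈ p, A.E x y := by
  intro p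
  induction p with
  | nil => intro _ _ y hy; simp at hy
  | cons a p ih =>
    intro h h2 y hy
    cases p with
    | nil => simp at h2
    | cons b p =>
      rw [List.isChain_cons_cons] at h
      rcases List.mem_cons.1 hy with h3 | h3
      · rw [h3]
        exact h.1.1
      · cases p with
        | nil =>
          have h4 : y = b := by simpa using h3
          rw [h4]
          exact h.1.2.2
        | cons c p => exact ih h.2 (by simp) y h3

private theorem cf_const {k : ℤ} {ys : List V} (h : ∀ y ∈ ys, A.J y (P k)) : A.Cf P k (ys.map fun y => (y, k)) := by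
  induction ys with
  | nil => trivial
  | cons y ys ih =>
    refine ⟨le_rfl, fun m hm1 hm2 => ?_, ih fun z hz => h z (List.mem_cons_of_mem _ hz)⟩
    have h1 : m = k := le_antisymm hm2 hm1
    rw [h1]
    exact h y List.mem_cons_self

private theorem ll_const {k : ℤ} {ys : List V} : ll k (ys.map fun y => (y, k)) = k := by
  induction ys with
  | nil => rfl
  | cons y ys ih => exact ih

theorem op_push (hA : A.Ax) (hP : A.Ctr n P) (h : A.MinConf n P N i ((x, j) :: L)) {p : List V} {k : ℤ} {m : ℕ}
    (hx : x = P k) (hik : i ≤ k) (hki : k ≤ i + 1) (hkj : k ≤ j) (hjk : j ≤ k + 1) (hp : List.IsChain (A.T x) p) (h2 : 2 ≤ p.length)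
    (ha : p.head? = (L.map Prod.fst).getLast?) (hb : p.getLast? = (L.map Prod.fst).head?)
    (hG : G A.T m (pw (L.map Prod.fst) ++ pw p)) (hm : m < N) : False := by
  have hij : i ≤ j := h.1.2.1.1
  have hmem := chain_mem hp h2
  obtain ⟨a, q, rfl⟩ : ∃ a q, p = a :: q := by
    cases p with
    | nil => simp at h2
    | cons a q => exact ⟨a, q, rfl⟩
  obtain ⟨ys, b, rfl⟩ : ∃ ys b, q = ys ++ [b] := by
    rcases List.eq_nil_or_concat q with h3 | ⟨ys, b, h3⟩
    · rw [h3] at h2
      simp at h2
    · exact ⟨ys, b, by rw [h3, List.concat_eq_append]⟩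
  have ha' : (L.map Prod.fst).getLast? = some a := by
    rw [← ha]
    rfl
  have hb' : (L.map Prod.fst).head? = some b := by
    rw [← hb, ← List.cons_append, List.getLast?_append]
    simp
  have hJa : A.J a (P k) := by
    rw [← hx]
    exact hA.symm _ _ (hmem a List.mem_cons_self).2.2.2
  have hJb : A.J b (P k) := by
    rw [← hx]
    exact hA.symm _ _ (hmem b (by simp)).2.2.2
  have hJy : ∀ y ∈ ys, A.J y (P (k + n)) := by
    intro y hy
    rw [per1 hP, ← hx]
    exact hA.symm _ _ (hmem y (by simp [hy])).2.2.2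
  obtain ⟨L₄, hL4⟩ := last_split (j := j) (L := L) h.1.2.2.1 ha'
  -- the labels from `k`
  have hcf : A.Cf P k (L₄ ++ [(a, k + (n : ℤ))]) := by
    have h3 := h.1.2.1.2.2
    rw [hL4] at h3
    cases L₄ with
    | nil =>
      obtain ⟨h4, h5, _⟩ := h3
      refine ⟨by omega, fun t ht1 ht2 => ?_, trivial⟩
      by_cases h6 : t = k
      · rw [h6]
        exact hJa
      by_cases h7 : t = k + n
      · rw [h7, per1 hP]
        exact hJa
      · exact h5 t (by omega) (by omega)
    | cons e L₄ =>
      obtain ⟨b', c⟩ := e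
      have hbb : b' = b := by
        rw [hL4] at hb'
        simpa using hb'
      subst hbb
      obtain ⟨h4, h5, h6⟩ := h3
      change A.Cf P c (L₄ ++ [(a, i + (n : ℤ))]) at h6
      rw [cf_append] at h6
      obtain ⟨h7, h8, h9, _⟩ := h6
      refine ⟨by omega, fun t ht1 ht2 => ?_, ?_⟩
      · by_cases h10 : t = k
        · rw [h10]
          exact hJb
        · exact h5 t (by omega) ht2
      · change A.Cf P c (L₄ ++ [(a, k + (n : ℤ))])
        rw [cf_append]
        refine ⟨h7, by omega, fun t ht1 ht2 => ?_, trivial⟩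
        by_cases h10 : t = k + n
        · rw [h10, per1 hP]
          exact hJa
        · exact h9 t ht1 (by omega)
  have hll : ll k (L₄ ++ [(a, k + (n : ℤ))]) = k + n := by
    rw [ll_append]
    rfl
  have hmap : (L₄ ++ [(a, k + (n : ℤ))] ++ ys.map (fun y => (y, k + (n : ℤ)))).map Prod.fst = L.map Prod.fst ++ ys := by
    rw [hL4]
    simp [Function.comp_def]
  obtain ⟨c, M, hM⟩ := head_split hb'
  have hch : List.IsChain A.E (L.map Prod.fst ++ ys ++ [b]) := by
    have h3 := h.1.2.2.2
    rw [hL4, List.map_cons, List.map_append] at h3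
    have h4 := (cyc_last h3).1
    have h5 : List.IsChain A.E (L₄.map Prod.fst ++ [a]) := by
      exact h4.tail
    have h7 : List.IsChain A.E (L₄.map Prod.fst ++ a :: (ys ++ [b])) := by
      rw [List.isChain_split]
      exact ⟨h5, chain_e hp⟩
    have e1 : L.map Prod.fst ++ ys ++ [b] = L₄.map Prod.fst ++ a :: (ys ++ [b]) := by
      rw [hL4]
      simp
    rw [e1]
    exact h7
  have hconf : A.Conf n P k (L₄ ++ [(a, k + (n : ℤ))] ++ ys.map (fun y => (y, k + (n : ℤ)))) := by
    refine ⟨fun h0 => ?_, ?_, ?_, ?_⟩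
    · have := congrArg List.length h0
      simp at this
    · rw [cf_append]
      refine ⟨hcf, ?_⟩
      rw [hll]
      exact cf_const hJy
    · rw [ll_append, hll]
      exact ll_const
    · rw [hmap]
      have e1 : L.map Prod.fst ++ ys = b :: (M.map Prod.fst ++ ys) := by
        rw [hM]
        rfl
      rw [e1]
      change List.IsChain A.E (b :: (M.map Prod.fst ++ ys ++ [b]))
      rw [hM] at hch
      exact hch
  have hG3 : G A.T m (cw ((L₄ ++ [(a, k + (n : ℤ))] ++ ys.map (fun y => (y, k + (n : ℤ)))).map Prod.fst)) := by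
    rw [hmap]
    have e1 : cw (L.map Prod.fst ++ ys) = pw (L.map Prod.fst ++ ys ++ [b]) := by
      rw [hM]
      rfl
    have e2 : L.map Prod.fst ++ ys ++ [b] = L₄.map Prod.fst ++ a :: (ys ++ [b]) := by
      rw [hL4]
      simp
    have e3 : L₄.map Prod.fst ++ [a] = L.map Prod.fst := by
      rw [hL4]
      simp
    rw [e1, e2, pw_append, e3]
    exact hG
  have h6 := (h.2.2 k _ _ hconf hG3).1
  omega

theorem op_unfold (hA : A.Ax) (h : A.MinConf n P N i ((x, j) :: L)) {p u w : List V} {c d : V} {k : ℕ}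
    (hpe : p = u ++ c :: d :: c :: w) (hp : List.IsChain (A.T x) p)
    (ha : p.head? = (L.map Prod.fst).getLast?) (hb : p.getLast? = (L.map Prod.fst).head?)
    (hG : G A.T k (pw (L.map Prod.fst) ++ pw p)) (hk : k + (p.length - 1) ≤ N) : False := by
  subst hpe
  obtain ⟨a, ha'⟩ : ∃ a, (u ++ c :: d :: c :: w).head? = some a := by
    cases u with
    | nil => exact ⟨c, rfl⟩
    | cons e u => exact ⟨e, rfl⟩
  have ha1 : (L.map Prod.fst).getLast? = some a := by rw [← ha, ha']
  have ha2 : (u ++ c :: w).head? = some a := by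
    rw [← ha']
    cases u with
    | nil => rfl
    | cons e u => rfl
  obtain ⟨b, hb'⟩ : ∃ b, (c :: w).getLast? = some b := ⟨_, List.getLast?_eq_some_getLast (List.cons_ne_nil c w)⟩
  have hb1 : (L.map Prod.fst).head? = some b := by
    rw [← hb, List.getLast?_append, List.getLast?_cons_cons, List.getLast?_cons_cons, hb']
    rfl
  have hb2 : (u ++ c :: w).getLast? = some b := by
    rw [List.getLast?_append, hb']
    rfl
  have hch : List.IsChain (A.T x) (u ++ c :: w) := by
    rw [List.isChain_split] at hp ⊢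
    refine ⟨hp.1, ?_⟩
    have h1 := hp.2
    rw [List.isChain_cons_cons, List.isChain_cons_cons] at h1
    exact h1.2.2
  obtain ⟨L₄, hL4⟩ := last_split (j := j) (L := L) h.1.2.2.1 ha1
  obtain ⟨e, M, hM⟩ := head_split hb1
  have hG1 : G A.T k (pw (L.map Prod.fst) ++ pw (u ++ c :: w)) := by
    have e1 : pw (L.map Prod.fst) ++ pw (u ++ c :: d :: c :: w) =
        (pw (L.map Prod.fst) ++ pw (u ++ [c])) ++ (c, d) :: (d, c) :: pw (c :: w) := by
      rw [pw_append u (d :: c :: w) c, ← List.append_assoc]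
      rfl
    rw [e1] at hG
    have h2 := g_del (cx hA) hG
    rw [pw_append u w c, ← List.append_assoc]
    exact h2
  have hG2 := cone_swap hA hch ha2 hb2 hG1
  have hG3 : G A.T (k + ((u ++ c :: w).length - 1)) (cw (((x, j) :: L).map Prod.fst)) := by
    rw [List.map_cons]
    have e1 : cw (x :: L.map Prod.fst) = [(x, b)] ++ (pw (L.map Prod.fst) ++ [(a, x)]) := by
      have e2 : cw (x :: L.map Prod.fst) = pw (x :: (L.map Prod.fst ++ [x])) := rfl
      have e3 : pw (L.map Prod.fst ++ [x]) = pw (L.map Prod.fst) ++ [(a, x)] := by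
        rw [hL4, List.map_append]
        have e4 : L₄.map Prod.fst ++ List.map Prod.fst [(a, i + (n : ℤ))] ++ [x] = L₄.map Prod.fst ++ a :: [x] := by simp
        rw [e4, pw_append]
        simp [pw]
      have e5 : pw (x :: (L.map Prod.fst ++ [x])) = (x, b) :: pw (L.map Prod.fst ++ [x]) := by
        rw [hM]
        rfl
      rw [e2, e5, e3]
      rfl
    rw [e1]
    refine g_rot (cx hA) ?_
    simpa using hG2
  have h6 := (h.2.2 i _ _ h.1 hG3).1
  simp only [List.length_append, List.length_cons] at h6 hk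
  omega

end Sys

end Pool.Agent.H52.VK
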