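import Pool.Agent.H52.VK.Gb0

/-!
# [H52 VK SYS] Coset complexes, abstractly: definitions

Vertices `V` with types; `J a b`: equal or adjacent; `adj`: adjacent; `E`, `T`: edges and triangles of the complex of the vertices with types `p`, `q`, `r`; `θ x`: the weight of the two other types
(think 1291, section 4). `Ctr`: a counterexample with the properties of section 3 (`P : ℤ → V` periodic; `W k` the weight of the pair `P k`, `P (k + 1)`). `Conf i L`: configurations: `L` is the list of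
the pairs (vertex, outgoing label), `i` the incoming label of the first vertex, `ll i L` the last label, `= i + n`. `MinConf N i L`: area `N` and length minimal. `cD`: the weights `c_p`.
-/

set_option autoImplicit false

namespace Pool.Agent.H52.VK

variable {B V : Type*}

structure Sys (B V : Type*) where
  typ : V → B
  J : V → V → Prop
  w : B → B → ℝ
  p : B
  q : B
  r : B

namespace Sys

variable (A : Sys B V)

/-- adjacent vertices -/
def adj (a b : V) : Prop := A.typ a ≠ A.typ b ∧ A.J a b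

/-- the vertices of the complex -/
def U (x : V) : Prop := A.typ x = A.p ∨ A.typ x = A.q ∨ A.typ x = A.r

/-- the edges of the complex -/
def E (x y : V) : Prop := A.U x ∧ A.U y ∧ A.adj x y

/-- the triangles of the complex -/
def T (x y z : V) : Prop := A.E x y ∧ A.E y z ∧ A.E x z

/-- the weight of a pair of vertices -/
def wv (a b : V) : ℝ := A.w (A.typ a) (A.typ b)

open Classical in
/-- the angle -/
noncomputable def θ (x : V) : ℝ := if A.typ x = A.p then A.w A.q A.r else if A.typ x = A.q then A.w A.p A.r else A.w A.p A.q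

/-- the axioms -/
structure Ax : Prop where
  refl : ∀ x, A.J x x
  symm : ∀ x y, A.J x y → A.J y x
  same : ∀ x y, A.J x y → A.typ x = A.typ y → x = y
  wsymm : ∀ s t, A.w s t = A.w t s
  wpos : ∀ s t, 0 < A.w s t
  whalf : ∀ s t, s ≠ t → A.w s t ≤ 1 / 2
  hpq : A.p ≠ A.q
  hqr : A.q ≠ A.r
  hpr : A.p ≠ A.r
  hU : A.w A.p A.q + A.w A.q A.r + A.w A.p A.r ≤ 1
  link : ∀ x, A.U x → PolR A.adj A.J A.wv (fun a => A.adj a x)
  conn : ∀ P x y, A.U x → A.U y → A.J x P → A.J y P → Relation.ReflTransGen (fun a b => A.E a b ∧ A.J b P) x y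
  corner : ∀ P Q, A.J P Q → ∃ x, A.U x ∧ A.J x P ∧ A.J x Q
  fill : ∀ l, Cyc A.E l → ∃ n, G A.T n (cw l)

/-- the weight of `P k`, `P (k + 1)` -/
def W (P : ℤ → V) (k : ℤ) : ℝ := A.wv (P k) (P (k + 1))

/-- counterexamples without chords -/
structure Ctr (n : ℕ) (P : ℤ → V) : Prop where
  hn : 4 ≤ n
  per : ∀ k, P (k + n) = P k
  adj : ∀ k, A.adj (P k) (P (k + 1))
  nd : ∀ k, ¬ A.J (P k) (P (k + 2))
  wt : ∀ h, ∑ k ∈ Finset.Ico h (h + n), A.W P k < 2
  chord : ∀ i j, i + 2 ≤ j → j + 2 ≤ i + n → ¬ A.J (P i) (P j)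

/-- the conditions on the labels -/
def Cf (P : ℤ → V) : ℤ → List (V × ℤ) → Prop
  | _, [] => True
  | i, (x, j) :: L => i ≤ j ∧ (∀ k, i ≤ k → k ≤ j → A.J x (P k)) ∧ Cf P j L

/-- the last label -/
def ll : ℤ → List (V × ℤ) → ℤ
  | i, [] => i
  | _, (_, j) :: L => ll j L

/-- configurations -/
def Conf (n : ℕ) (P : ℤ → V) (i : ℤ) (L : List (V × ℤ)) : Prop :=
  L ≠ [] ∧ A.Cf P i L ∧ ll i L = i + n ∧ Cyc A.E (L.map Prod.fst)

/-- minimal configurations -/
def MinConf (n : ℕ) (P : ℤ → V) (N : ℕ) (i : ℤ) (L : List (V × ℤ)) : Prop :=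
  A.Conf n P i L ∧ G A.T N (cw (L.map Prod.fst)) ∧
    ∀ i' L' N', A.Conf n P i' L' → G A.T N' (cw (L'.map Prod.fst)) → N ≤ N' ∧ (N' = N → L.length ≤ L'.length)

/-- the weights of the corners -/
noncomputable def cD (P : ℤ → V) : ℤ → List (V × ℤ) → List (V × ℝ)
  | _, [] => []
  | i, (x, j) :: L => (x, ∑ k ∈ Finset.Ico i j, A.W P k) :: cD P j L

end Sys

end Pool.Agent.H52.VK
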