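import Pool.Agent.H52.VK.Glue

/-!
# [H52 VK WALK] Words of walks in a triangle complex (90 min)

`E` edges, `T` triangles on `V` (`Cx E T`). `pw l` is the word of the darts of the walk `l` (consecutive pairs), `cw l` the word of the closed walk `l` (a list with `Cyc E`, `Defs.lean`),
`RT T` the triangle relation on darts, `G T n w`: the word `w` can be filled with at most `n` triangles (`Fill.lean`).

`pw_append`, `pw_rev`: induction. `cw_rot`: `cw (l ++ [x])` is a rotation of `cw (x :: l)` (`pw_append`), then by induction along `IsRotated` (`List.IsRotated` is given by `rotate k`). The `g_` lemmas: from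
`Fill.append`, `.insert`, `.rot`, `.tri_any`, `.del`, `.swap`, `Fill.pair`. `g_bt`: `Fill.insert` of the pair `(x, y) (y, x)` (`Fill.pair` of two `nil`). `g_tri`: `RT (x, z) (z, y) (x, y)`. `g_tri'`: insert
`(x, z) (z, x)` before `(x, y)`, then `RT (z, x) (x, y) (z, y)` (`T z x y`), `tri_any`.
`g_peel`: invert `Fill` for the first dart: tri: the two darts are `(x, z)`, `(z, y)`; pair.
`cone`: induction on `p` (from the front): `p = [a]`: the pair `(x, a) (a, x)`; `p = a :: b :: p'`: `g_tri'`-like: `(x, b)` is replaced by `(x, a) (a, b)` (`T x a b`).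
`cone_cyc`: `c = a :: c'`: `cone` for `p = c`: `(x, a) :: pw c ++ [(b, x)]` has `c.length - 1`; rotate: `pw c ++ (b, x) :: (x, a) :: []`, `g_tri` (`T b x a`): `c.length`.
`cone_fold`: `c.length = 2`: a pair. Otherwise `cw c` is a rotation of `cw (a :: b :: a :: m)`, `m ≠ []` (otherwise `T x a a`), which is `cw (a :: m)` with a backtrack inserted; `cone_cyc` for `a :: m`
(`Cyc.rot`).
-/

set_option autoImplicit false

namespace Pool.Agent.H52.VK

variable {V : Type*}

/-- the word of a walk -/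
def pw : List V → List (V × V)
  | x :: y :: l => (x, y) :: pw (y :: l)
  | _ => []

/-- the word of a closed walk -/
def cw : List V → List (V × V)
  | [] => []
  | x :: l => pw (x :: (l ++ [x]))

/-- triangles of darts -/
def RT (T : V → V → V → Prop) (a b c : V × V) : Prop := a.2 = b.1 ∧ c = (a.1, b.2) ∧ T a.1 a.2 b.2

/-- the word can be filled with at most `n` triangles -/
def G (T : V → V → V → Prop) (n : ℕ) (w : List (V × V)) : Prop := ∃ j ≤ n, Fill Prod.swap (RT T) j w

/-- triangle complexes -/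
structure Cx (E : V → V → Prop) (T : V → V → V → Prop) : Prop where
  irr : ∀ x, ¬ E x x
  symm : ∀ x y, E x y → E y x
  edge : ∀ x y z, T x y z → E x y
  rot : ∀ x y z, T x y z → T y z x
  flip : ∀ x y z, T x y z → T y x z

variable {E : V → V → Prop} {T : V → V → V → Prop}

theorem pw_append (u v : List V) (x : V) : pw (u ++ x :: v) = pw (u ++ [x]) ++ pw (x :: v) := by
  induction u with
  | nil => rfl
  | cons a u ih =>
    cases u with
    | nil => rfl
    | cons b u =>
      show (a, b) :: pw ((b :: u) ++ x :: v) = ((a, b) :: pw ((b :: u) ++ [x])) ++ pw (x :: v)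
      rw [ih]
      rfl

theorem pw_rev (l : List V) : ((pw l).map Prod.swap).reverse = pw l.reverse := by
  induction l with
  | nil => rfl
  | cons a l ih =>
    cases l with
    | nil => rfl
    | cons b l =>
      have h1 : pw (a :: b :: l) = (a, b) :: pw (b :: l) := rfl
      have h2 : (a :: b :: l).reverse = l.reverse ++ b :: [a] := by simp
      have h3 : pw (l.reverse ++ b :: [a]) = pw (l.reverse ++ [b]) ++ pw (b :: [a]) :=
        pw_append _ _ _
      rw [h1, List.map_cons, List.reverse_cons, ih, List.reverse_cons, h2, h3]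
      rfl

private theorem cyc_rot_one {R : V → V → Prop} {a : V} {l : List V} (h : Cyc R (a :: l)) :
    Cyc R (l ++ [a]) := by
  cases l with
  | nil => exact h
  | cons b l =>
    have h1 : List.IsChain R (a :: b :: (l ++ [a])) := h
    rw [List.isChain_cons_cons] at h1
    show List.IsChain R (b :: ((l ++ [a]) ++ [b]))
    have h2 : b :: ((l ++ [a]) ++ [b]) = (b :: l) ++ a :: [b] := by simp
    rw [h2, List.isChain_split]
    refine ⟨h1.2, ?_⟩
    rw [List.isChain_cons_cons]
    exact ⟨h1.1, List.isChain_singleton _⟩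

theorem Cyc.rot {R : V → V → Prop} {l l' : List V} (h : Cyc R l) (hr : l ~r l') : Cyc R l' := by
  obtain ⟨k, rfl⟩ := hr
  induction k generalizing l with
  | zero => rwa [List.rotate_zero]
  | succ k ih =>
    cases l with
    | nil => rwa [List.rotate_nil]
    | cons a l =>
      rw [List.rotate_cons_succ]
      exact ih (cyc_rot_one h)

private theorem cw_rot_one (a : V) (l : List V) : cw (a :: l) ~r cw (l ++ [a]) := by
  cases l with
  | nil => exact List.IsRotated.refl _
  | cons b l =>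
    have h1 : cw (a :: b :: l) = [(a, b)] ++ pw (b :: (l ++ [a])) := rfl
    have h2 : cw ((b :: l) ++ [a]) = pw (b :: (l ++ [a])) ++ [(a, b)] := by
      show pw (b :: ((l ++ [a]) ++ [b])) = _
      have h3 : b :: ((l ++ [a]) ++ [b]) = (b :: l) ++ a :: [b] := by simp
      rw [h3, pw_append]
      rfl
    rw [h1, h2]
    exact List.isRotated_append

theorem cw_rot {l l' : List V} (hr : l ~r l') : cw l ~r cw l' := by
  obtain ⟨k, rfl⟩ := hr
  induction k generalizing l with
  | zero => rw [List.rotate_zero]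
  | succ k ih =>
    cases l with
    | nil => rw [List.rotate_nil]
    | cons a l =>
      rw [List.rotate_cons_succ]
      exact (cw_rot_one a l).trans ih

theorem Cx.sym (hX : Cx E T) : Sym Prod.swap (RT T) := by
  refine ⟨fun d => Prod.swap_swap d, ?_, ?_⟩
  · rintro ⟨a1, a2⟩ ⟨b1, b2⟩ c ⟨h1, h2, h3⟩
    subst h2
    simp only at h1
    subst h1
    exact ⟨rfl, rfl, hX.rot _ _ _ h3⟩
  · rintro ⟨a1, a2⟩ ⟨b1, b2⟩ c ⟨h1, h2, h3⟩
    subst h2
    simp only at h1
    subst h1
    exact ⟨rfl, rfl, hX.rot _ _ _ (hX.rot _ _ _ (hX.flip _ _ _ h3))⟩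

theorem G.mono {n m : ℕ} {w : List (V × V)} (h : G T n w) (hm : n ≤ m) : G T m w := by
  obtain ⟨j, hj, h1⟩ := h
  exact ⟨j, le_trans hj hm, h1⟩

theorem g_rot (hX : Cx E T) {n : ℕ} {u v : List (V × V)} (h : G T n (u ++ v)) : G T n (v ++ u) := by
  obtain ⟨j, hj, h1⟩ := h
  exact ⟨j, hj, Fill.rot hX.sym h1⟩

theorem g_isrot (hX : Cx E T) {n : ℕ} {u v : List (V × V)} (h : G T n u) (hr : u ~r v) : G T n v := by
  obtain ⟨k, rfl⟩ := hr
  rw [List.rotate_eq_drop_append_take_mod]
  refine g_rot hX ?_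
  rw [List.take_append_drop]
  exact h

theorem g_nil : G T 0 [] := 
  ⟨0, le_rfl, Fill.nil⟩

theorem g_append {a b : ℕ} {u v : List (V × V)} (hu : G T a u) (hv : G T b v) : G T (a + b) (u ++ v) := by
  obtain ⟨j, hj, h1⟩ := hu
  obtain ⟨k, hk, h2⟩ := hv
  exact ⟨j + k, by omega, h1.append h2⟩

theorem g_insert {a b : ℕ} {u v w : List (V × V)} (h : G T a (u ++ v)) (hw : G T b w) : G T (a + b) (u ++ (w ++ v)) := by
  obtain ⟨j, hj, h1⟩ := h
  obtain ⟨k, hk, h2⟩ := hw
  exact ⟨j + k, by omega, h1.insert h2⟩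

theorem g_pair {a b : ℕ} {x y : V} {u v : List (V × V)} (hu : G T a u) (hv : G T b v) :
    G T (a + b) ((x, y) :: (u ++ (y, x) :: v)) := by
  obtain ⟨j, hj, h1⟩ := hu
  obtain ⟨k, hk, h2⟩ := hv
  exact ⟨j + k, by omega, Fill.pair (d := (x, y)) h1 h2⟩

theorem g_bt {n : ℕ} {x y : V} {u v : List (V × V)} (h : G T n (u ++ v)) : G T n (u ++ (x, y) :: (y, x) :: v) := by
  have h1 : G T (0 + 0) ((x, y) :: ([] ++ (y, x) :: [])) := g_pair g_nil g_nil
  exact g_insert h h1

theorem g_del (hX : Cx E T) {n : ℕ} {x y : V} {u v : List (V × V)} (h : G T n (u ++ (x, y) :: (y, x) :: v)) : G T n (u ++ v) := by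
  obtain ⟨j, hj, h1⟩ := h
  obtain ⟨k, hk, h2⟩ := Fill.del hX.sym (d := (x, y)) h1
  exact ⟨k, by omega, h2⟩

theorem g_tri (hX : Cx E T) {n : ℕ} {x z y : V} {u v : List (V × V)} (hT : T x z y) (h : G T n (u ++ (x, z) :: (z, y) :: v)) :
    G T (n + 1) (u ++ (x, y) :: v) := by
  obtain ⟨j, hj, h1⟩ := h
  exact ⟨j + 1, by omega, Fill.tri_any hX.sym h1 ⟨rfl, rfl, hT⟩⟩

theorem g_tri' (hX : Cx E T) {n : ℕ} {x z y : V} {u v : List (V × V)} (hT : T x z y) (h : G T n (u ++ (x, y) :: v)) :
    G T (n + 1) (u ++ (x, z) :: (z, y) :: v) := by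
  have h1 : G T n ((u ++ [(x, z)]) ++ (z, x) :: (x, y) :: v) := by
    have h2 := g_bt (x := x) (y := z) h
    simpa using h2
  have h3 := g_tri hX (hX.flip _ _ _ hT) h1
  simpa using h3

theorem g_swap (hX : Cx E T) {n j : ℕ} {u v w : List (V × V)} (h1 : G T n (u ++ v))
    (h2 : G T j ((v.map Prod.swap).reverse ++ w)) : G T (n + j) (u ++ w) := by
  obtain ⟨i, hi, h3⟩ := h1
  obtain ⟨k, hk, h4⟩ := h2
  obtain ⟨l, hl, h5⟩ := Fill.swap hX.sym h3 h4
  exact ⟨l, by omega, h5⟩

theorem g_peel {n : ℕ} {x y : V} {w : List (V × V)} (h : G T n ((x, y) :: w)) :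
    (∃ z m, T x z y ∧ m + 1 ≤ n ∧ G T m ((x, z) :: (z, y) :: w)) ∨
      ∃ u v a b, w = u ++ (y, x) :: v ∧ a + b ≤ n ∧ G T a u ∧ G T b v := by
  obtain ⟨j, hj, h1⟩ := h
  generalize hw : (x, y) :: w = l at h1
  cases h1 with
  | nil => exact absurd hw (List.cons_ne_nil _ _)
  | @pair a b d u v h2 h3 =>
    rw [List.cons.injEq] at hw
    obtain ⟨rfl, rfl⟩ := hw
    exact Or.inr ⟨u, v, a, b, rfl, hj, ⟨a, le_rfl, h2⟩, ⟨b, le_rfl, h3⟩⟩
  | @tri m a b c l hR h2 =>
    rw [List.cons.injEq] at hw
    obtain ⟨rfl, rfl⟩ := hw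
    obtain ⟨a1, a2⟩ := a
    obtain ⟨b1, b2⟩ := b
    obtain ⟨h3, h4, h5⟩ := hR
    simp only [Prod.mk.injEq] at h3 h4 h5
    obtain ⟨rfl, rfl⟩ := h4
    subst h3
    exact Or.inl ⟨a2, m, h5, hj, ⟨m, le_rfl, h2⟩⟩

theorem cone (hX : Cx E T) {x a b : V} {p : List V} (h : List.IsChain (T x) p) (ha : p.head? = some a) (hb : p.getLast? = some b) :
    G T (p.length - 1) ((x, a) :: (pw p ++ [(b, x)])) := by
  induction p generalizing a with
  | nil => simp at ha
  | cons a' p ih =>
    have ha' : a' = a := by simpa using ha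
    subst ha'
    cases p with
    | nil =>
      have hb' : a' = b := by simpa using hb
      subst hb'
      have h1 : G T (0 + 0) ((x, a') :: ([] ++ (a', x) :: [])) := g_pair g_nil g_nil
      exact h1
    | cons c p =>
      rw [List.isChain_cons_cons] at h
      have h1 := ih h.2 (a := c) rfl (by rw [List.getLast?_cons_cons] at hb; exact hb)
      exact g_tri' hX (u := []) h.1 h1

theorem cone_cyc (hX : Cx E T) {x : V} {c : List V} (h : Cyc (T x) c) : G T c.length (cw c) := by
  cases c with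
  | nil => exact g_nil
  | cons a c =>
    have h0 : List.IsChain (T x) (a :: (c ++ [a])) := h
    obtain ⟨q, b, hq⟩ : ∃ q b, a :: c = q ++ [b] :=
      ⟨_, _, (List.dropLast_append_getLast (List.cons_ne_nil a c)).symm⟩
    have h1 : a :: (c ++ [a]) = q ++ b :: [a] := by
      rw [← List.cons_append, hq]
      simp
    rw [h1, List.isChain_split, List.isChain_cons_cons] at h0
    have h2 := cone hX (a := a) (b := b) (p := a :: c) (by rw [hq]; exact h0.1) rfl
      (by rw [hq]; simp)
    have h3 : G T c.length (pw (a :: c) ++ (b, x) :: (x, a) :: []) := by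
      have h4 := g_rot hX (u := [(x, a)]) (v := pw (a :: c) ++ [(b, x)]) h2
      simpa using h4
    have h5 := g_tri hX (hX.flip _ _ _ h0.2.1) h3
    have h6 : cw (a :: c) = pw (a :: c) ++ [(b, a)] := by
      show pw (a :: (c ++ [a])) = _
      rw [h1, pw_append, hq]
      rfl
    rw [h6]
    exact h5

theorem cone_fold (hX : Cx E T) {x : V} {c : List V} (h : Cyc (T x) c) (hf : c.length = 2 ∨ ∃ a b m, c ~r (a :: b :: a :: m)) :
    G T (c.length - 2) (cw c) := by
  rcases hf with hf | ⟨a, b, m, hr⟩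
  · match c, hf with
    | [a, b], _ =>
      have h1 : G T (0 + 0) ((a, b) :: ([] ++ (b, a) :: [])) := g_pair g_nil g_nil
      exact h1
  · have h1 := h.rot hr
    have h2 : List.IsChain (T x) (a :: b :: a :: (m ++ [a])) := h1
    rw [List.isChain_cons_cons, List.isChain_cons_cons] at h2
    have h3 : Cyc (T x) (a :: m) := h2.2.2
    have h4 := cone_cyc hX h3
    have h5 : G T (m.length + 1) (cw (a :: b :: a :: m)) :=
      g_bt (u := []) (v := cw (a :: m)) h4
    have h6 := g_isrot hX h5 (cw_rot hr).symm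
    have h7 : c.length = m.length + 3 := by
      rw [hr.perm.length_eq]
      simp
    rw [h7]
    exact h6

end Pool.Agent.H52.VK
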